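import Pool.Agent.Lib.MP_7610b6_lc.Trans
import Pool.Agent.Lib.helper10.Sig

/-!
All syntactic operations are primitive recursive.
-/

namespace Pool.Agent.Lib.MP_7610b6_lc

open Pool.Agent.H10

section Base
variable {α β σ : Type} [Primcodable α] [Primcodable β] [Primcodable σ]

@[fun_prop] theorem pr_foldr {f : α → List β} {g : α → σ} {h : α → β → σ → σ} (hf : Primrec f)
    (hg : Primrec g) (hh : Primrec fun x : α × β × σ => h x.1 x.2.1 x.2.2) :
    Primrec fun a => (f a).foldr (h a) (g a) :=
  Primrec.list_foldr (h := fun a x => h a x.1 x.2) hf hg hh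

@[fun_prop] theorem pr_any {f : α → List β} {p : α → β → Bool} (hf : Primrec f)
    (hp : Primrec fun x : α × β => p x.1 x.2) : Primrec fun a => (f a).any (p a) := by
  have : Primrec fun a => (f a).foldr (fun b acc => bif p a b then true else acc) false := by
    apply pr_foldr hf (Primrec.const _)
    exact Primrec.cond (hp.comp (g := fun x : α × β × Bool => (x.1, x.2.1)) (by fun_prop))
      (Primrec.const _) (by fun_prop)
  refine this.of_eq fun a => ?_
  induction f a with
  | nil => rfl
  | cons b l ih => rw [List.foldr_cons, ih, List.any_cons]; cases p a b <;> rfl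

@[fun_prop] theorem pr_all {f : α → List β} {p : α → β → Bool} (hf : Primrec f)
    (hp : Primrec fun x : α × β => p x.1 x.2) : Primrec fun a => (f a).all (p a) := by
  have : Primrec fun a => (f a).foldr (fun b acc => bif p a b then acc else false) true := by
    apply pr_foldr hf (Primrec.const _)
    exact Primrec.cond (hp.comp (g := fun x : α × β × Bool => (x.1, x.2.1)) (by fun_prop))
      (by fun_prop) (Primrec.const _)
  refine this.of_eq fun a => ?_
  induction f a with
  | nil => rfl
  | cons b l ih => rw [List.foldr_cons, ih, List.all_cons]; cases p a b <;> rfl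

@[fun_prop] theorem pr_eqb {f g : α → ℕ} (hf : Primrec f) (hg : Primrec g) :
    Primrec fun a => eqb (f a) (g a) := (Primrec.eq.comp hf hg).decide

@[fun_prop] theorem pr_ltb {f g : α → ℕ} (hf : Primrec f) (hg : Primrec g) :
    Primrec fun a => ltb (f a) (g a) := (Primrec.nat_lt.comp hf hg).decide

@[fun_prop] theorem pr_mod {f g : α → ℕ} (hf : Primrec f) (hg : Primrec g) :
    Primrec fun a => f a % g a := Primrec.nat_mod.comp hf hg

@[fun_prop] theorem pr_pow {f g : α → ℕ} (hf : Primrec f) (hg : Primrec g) :
    Primrec fun a => f a ^ g a := (Primrec₂.unpaired'.1 Nat.Primrec.pow).comp hf hg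

@[fun_prop] theorem pr_natPair {f g : α → ℕ} (hf : Primrec f) (hg : Primrec g) :
    Primrec fun a => Nat.pair (f a) (g a) := Primrec₂.natPair.comp hf hg

@[fun_prop] theorem pr_getD {f : α → List ℤ} {g : α → ℕ} (hf : Primrec f) (hg : Primrec g) :
    Primrec fun a => (f a).getD (g a) 0 := (Primrec.list_getD 0).comp hf hg

lemma encode_ofNat (n : ℕ) : Encodable.encode (Int.ofNat n) = 2 * n :=
  congrFun Equiv.natSumNatEquivNat_apply (Sum.inl n)

lemma encode_negSucc (n : ℕ) : Encodable.encode (Int.negSucc n) = 2 * n + 1 :=
  congrFun Equiv.natSumNatEquivNat_apply (Sum.inr n)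

@[fun_prop] theorem pr_toNat {f : α → ℤ} (hf : Primrec f) : Primrec fun a => (f a).toNat := by
  have h1 : Primrec fun z : ℤ => Encodable.encode z := Primrec.encode
  have h2 : Primrec fun z : ℤ => Encodable.encode z / 2 := Primrec.nat_div.comp h1 (Primrec.const 2)
  have : Primrec fun z : ℤ => bif eqb (Encodable.encode z % 2) 0 then Encodable.encode z / 2
      else 0 := by fun_prop
  refine (this.of_eq fun z => ?_).comp hf
  cases z with
  | ofNat n => rw [encode_ofNat]; simp [eqb]
  | negSucc n => rw [encode_negSucc]; simp [eqb]

@[fun_prop] theorem pr_negToNat {f : α → ℤ} (hf : Primrec f) : Primrec fun a => (-(f a)).toNat := by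
  have h1 : Primrec fun z : ℤ => Encodable.encode z := Primrec.encode
  have h2 : Primrec fun z : ℤ => Encodable.encode z / 2 := Primrec.nat_div.comp h1 (Primrec.const 2)
  have : Primrec fun z : ℤ => bif eqb (Encodable.encode z % 2) 0 then 0
      else Encodable.encode z / 2 + 1 := by fun_prop
  refine (this.of_eq (g := fun z : ℤ => (-z).toNat) fun z => ?_).comp hf
  cases z with
  | ofNat n => rw [encode_ofNat]; simp [eqb]
  | negSucc n =>
    rw [encode_negSucc]
    have : (2 * n + 1) / 2 = n := by omega
    simp [eqb, this, Int.neg_negSucc]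

@[fun_prop] theorem pr_atomD {f : α → β} (hf : Primrec f) : Primrec fun a => atomD (f a) := by
  unfold atomD; fun_prop

@[fun_prop] theorem pr_andD {f g : α → DNF β} (hf : Primrec f) (hg : Primrec g) :
    Primrec fun a => andD (f a) (g a) := by
  unfold andD; fun_prop

@[fun_prop] theorem pr_allD {f : α → List (DNF β)} (hf : Primrec f) :
    Primrec fun a => allD (f a) := by
  unfold allD
  exact pr_foldr (h := fun _ x y => andD x y) hf (Primrec.const _) (by fun_prop)

@[fun_prop] theorem pr_anyD {f : α → List (DNF β)} (hf : Primrec f) :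
    Primrec fun a => anyD (f a) := by
  unfold anyD; fun_prop

@[fun_prop] theorem pr_negD {f : α → DNF β} (hf : Primrec f) : Primrec fun a => negD (f a) := by
  unfold negD; fun_prop

@[fun_prop] theorem pr_bindD {f : α → β → DNF σ} {g : α → DNF β}
    (hf : Primrec fun x : α × β => f x.1 x.2) (hg : Primrec g) :
    Primrec fun a => bindD (f a) (g a) := by
  unfold bindD
  apply pr_anyD
  apply pr_map hg
  apply pr_allD
  apply pr_map Primrec.snd
  have := hf.comp (g := fun x : (α × List (Bool × β)) × Bool × β => (x.1.1, x.2.2)) (by fun_prop)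
  exact Primrec.cond (by fun_prop) this (pr_negD this)

@[fun_prop] theorem pr_atoms {f : α → DNF β} (hf : Primrec f) : Primrec fun a => atoms (f a) := by
  unfold atoms; fun_prop

@[fun_prop] theorem pr_holdB {f : α → β → Bool} {g : α → DNF β}
    (hf : Primrec fun x : α × β => f x.1 x.2) (hg : Primrec g) :
    Primrec fun a => holdB (f a) (g a) := by
  unfold holdB
  apply pr_any hg
  apply pr_all Primrec.snd
  have := hf.comp (g := fun x : (α × List (Bool × β)) × Bool × β => (x.1.1, x.2.2)) (by fun_prop)
  exact Primrec.cond (by fun_prop) this (pr_not this)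

end Base

section Syn
variable {α : Type} [Primcodable α]

@[fun_prop] theorem pr_coefF : Primrec coefF := by unfold coefF; fun_prop
@[fun_prop] theorem pr_restF : Primrec restF := by unfold restF; fun_prop
@[fun_prop] theorem pr_negF : Primrec negF := by unfold negF; fun_prop
@[fun_prop] theorem pr_mulF {f g : α → Form} (hf : Primrec f) (hg : Primrec g) :
    Primrec fun a => mulF (f a) (g a) := by unfold mulF; fun_prop
@[fun_prop] theorem pr_crossF {f g : α → Form} (hf : Primrec f) (hg : Primrec g) :
    Primrec fun a => crossF (f a) (g a) := by unfold crossF; fun_prop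
@[fun_prop] theorem pr_zeroA : Primrec zeroA := by unfold zeroA; fun_prop
@[fun_prop] theorem pr_subC {f : α → Form} {g : α → Atom} (hf : Primrec f) (hg : Primrec g) :
    Primrec fun a => subC (f a) (g a) := by unfold subC; fun_prop
@[fun_prop] theorem pr_choices {f : α → Form} {g h : α → List Form} (hf : Primrec f)
    (hg : Primrec g) (hh : Primrec h) : Primrec fun a => choices (f a) (g a) (h a) := by
  unfold choices; fun_prop
@[fun_prop] theorem pr_extD {f : α → Form} {g : α → Atom} (hf : Primrec f) (hg : Primrec g) :
    Primrec fun a => extD (f a) (g a) := by unfold extD; fun_prop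
@[fun_prop] theorem pr_rep {f : α → ℕ} {g : α → List Form} (hf : Primrec f) (hg : Primrec g) :
    Primrec fun a => rep (f a) (g a) := by unfold rep; fun_prop
@[fun_prop] theorem pr_leAt {f : α → Thr} {g : α → EAtom} (hf : Primrec f) (hg : Primrec g) :
    Primrec fun a => leAt (f a) (g a) := by unfold leAt; fun_prop
@[fun_prop] theorem pr_vs {f : α → Test} {g : α → EAtom} (hf : Primrec f) (hg : Primrec g) :
    Primrec fun a => vs (f a) (g a) := by unfold vs; fun_prop
@[fun_prop] theorem pr_thr : Primrec thr := by unfold thr; fun_prop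
@[fun_prop] theorem pr_tests : Primrec tests := by unfold tests; fun_prop
@[fun_prop] theorem pr_guard : Primrec guard := by unfold guard; fun_prop
@[fun_prop] theorem pr_elimR : Primrec elimR := by unfold elimR; fun_prop
@[fun_prop] theorem pr_forms : Primrec forms := by unfold forms; fun_prop
@[fun_prop] theorem pr_nzL : Primrec nzL := by unfold nzL; fun_prop
@[fun_prop] theorem pr_loc : Primrec loc := by unfold loc; fun_prop
@[fun_prop] theorem pr_zeroF : Primrec zeroF := by unfold zeroF; fun_prop
@[fun_prop] theorem pr_genA : Primrec genA := by unfold genA; fun_prop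
@[fun_prop] theorem pr_genL : Primrec genL := by unfold genL; fun_prop
@[fun_prop] theorem pr_subL {f : α → Form} {g : α → LF} (hf : Primrec f) (hg : Primrec g) :
    Primrec fun a => subL (f a) (g a) := by unfold subL; fun_prop
@[fun_prop] theorem pr_posL : Primrec posL := by unfold posL; fun_prop
@[fun_prop] theorem pr_negL : Primrec negL := by unfold negL; fun_prop
@[fun_prop] theorem pr_th0 : Primrec th0 := by unfold th0; fun_prop
@[fun_prop] theorem pr_lam : Primrec lam := by unfold lam; fun_prop
@[fun_prop] theorem pr_centerC {f : α → List (Bool × LF)} {g : α → Form} (hf : Primrec f)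
    (hg : Primrec g) : Primrec fun a => centerC (f a) (g a) := by unfold centerC; fun_prop
@[fun_prop] theorem pr_genC : Primrec genC := by unfold genC; fun_prop
@[fun_prop] theorem pr_exClause : Primrec exClause := by unfold exClause; fun_prop
@[fun_prop] theorem pr_exG : Primrec exG := by unfold exG; fun_prop
@[fun_prop] theorem pr_intF {f : α → ℤ} {g : α → ℕ} (hf : Primrec f) (hg : Primrec g) :
    Primrec fun a => intF (f a) (g a) := by
  unfold intF
  have h1 := pr_toNat hf
  have h2 := pr_negToNat hf
  exact pr_append (pr_map (pr_range h1) (by fun_prop)) (pr_map (pr_range h2) (by fun_prop))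
@[fun_prop] theorem pr_toForm : Primrec toForm := by unfold toForm; fun_prop
@[fun_prop] theorem pr_dvdG : Primrec dvdG := by unfold dvdG; fun_prop
@[fun_prop] theorem pr_cntP : Primrec cntP := by unfold cntP; fun_prop
@[fun_prop] theorem pr_cntN : Primrec cntN := by unfold cntN; fun_prop
@[fun_prop] theorem pr_aval : Primrec aval := by unfold aval; fun_prop
@[fun_prop] theorem pr_pv : Primrec pv := by unfold pv; fun_prop
@[fun_prop] theorem pr_evalA {f : α → ℕ} {g : α → Atom} (hf : Primrec f) (hg : Primrec g) :
    Primrec fun a => evalA (f a) (g a) := by unfold evalA; fun_prop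
@[fun_prop] theorem pr_primeB : Primrec primeB := by unfold primeB; fun_prop
@[fun_prop] theorem pr_bnd : Primrec bnd := by unfold bnd; fun_prop
@[fun_prop] theorem pr_evalL : Primrec evalL := by unfold evalL; fun_prop
@[fun_prop] theorem pr_evalG : Primrec evalG := by unfold evalG; fun_prop

end Syn

end Pool.Agent.Lib.MP_7610b6_lc
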