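import Mathlib

/-!
Disjunctive normal forms over an arbitrary type of atoms.
-/

namespace Pool.Agent.Lib.MP_7610b6_lc

abbrev DNF (α : Type) := List (List (Bool × α))

variable {α β : Type}

def lit (s : α → Prop) (l : Bool × α) : Prop := s l.2 ↔ l.1 = true

def hold (s : α → Prop) (D : DNF α) : Prop := ∃ C ∈ D, ∀ l ∈ C, lit s l

def atomD (a : α) : DNF α := [[(true, a)]]

def andD (D E : DNF α) : DNF α := D.flatMap fun C => E.map fun C' => C ++ C'

def allD (L : List (DNF α)) : DNF α := L.foldr andD [[]]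

def anyD (L : List (DNF α)) : DNF α := L.flatMap fun D => D

def negD (D : DNF α) : DNF α := allD (D.map fun C => C.map fun l => [(!l.1, l.2)])

def bindD (f : α → DNF β) (D : DNF α) : DNF β :=
  anyD (D.map fun C => allD (C.map fun l => bif l.1 then f l.2 else negD (f l.2)))

def atoms (D : DNF α) : List α := D.flatMap fun C => C.map fun l => l.2

variable {s : α → Prop}

@[simp] lemma hold_atomD (a : α) : hold s (atomD a) ↔ s a := by
  simp [hold, atomD, lit]

@[simp] lemma hold_nil : ¬ hold s [] := by simp [hold]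

@[simp] lemma hold_top : hold s [[]] := by simp [hold]

@[simp] lemma hold_append (D E : DNF α) : hold s (D ++ E) ↔ hold s D ∨ hold s E := by
  simp only [hold, List.mem_append, or_and_right, exists_or]

lemma hold_cons (C : List (Bool × α)) (D : DNF α) :
    hold s (C :: D) ↔ (∀ l ∈ C, lit s l) ∨ hold s D := by
  simp only [hold, List.mem_cons, or_and_right, exists_or, exists_eq_left]

@[simp] lemma hold_andD (D E : DNF α) : hold s (andD D E) ↔ hold s D ∧ hold s E := by
  simp only [hold, andD, List.mem_flatMap, List.mem_map]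
  constructor
  · rintro ⟨_, ⟨C, hC, C', hC', rfl⟩, h⟩
    exact ⟨⟨C, hC, fun l hl => h l (List.mem_append_left _ hl)⟩,
      ⟨C', hC', fun l hl => h l (List.mem_append_right _ hl)⟩⟩
  · rintro ⟨⟨C, hC, h⟩, ⟨C', hC', h'⟩⟩
    refine ⟨_, ⟨C, hC, C', hC', rfl⟩, fun l hl => ?_⟩
    rcases List.mem_append.1 hl with hl | hl
    · exact h l hl
    · exact h' l hl

@[simp] lemma hold_allD (L : List (DNF α)) : hold s (allD L) ↔ ∀ D ∈ L, hold s D := by
  induction L with
  | nil => simp [allD]
  | cons D L ih =>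
    have : allD (D :: L) = andD D (allD L) := rfl
    rw [this, hold_andD, ih]; simp

@[simp] lemma hold_anyD (L : List (DNF α)) : hold s (anyD L) ↔ ∃ D ∈ L, hold s D := by
  simp only [hold, anyD, List.mem_flatMap]
  constructor
  · rintro ⟨C, ⟨D, hD, hC⟩, h⟩; exact ⟨D, hD, C, hC, h⟩
  · rintro ⟨D, hD, C, hC, h⟩; exact ⟨C, ⟨D, hD, hC⟩, h⟩

lemma lit_not (l : Bool × α) : lit s (!l.1, l.2) ↔ ¬ lit s l := by
  obtain ⟨b, a⟩ := l
  cases b <;> simp [lit]

@[simp] lemma hold_negD (D : DNF α) : hold s (negD D) ↔ ¬ hold s D := by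
  rw [negD, hold_allD]
  simp only [List.mem_map, forall_exists_index, and_imp, forall_apply_eq_imp_iff₂]
  constructor
  · rintro h ⟨C, hC, h2⟩
    obtain ⟨C', hC', h3⟩ := h C hC
    obtain ⟨l, hl, rfl⟩ := List.mem_map.1 hC'
    exact (lit_not l).1 (h3 _ (by simp)) (h2 l hl)
  · intro h C hC
    by_contra h2
    refine h ⟨C, hC, fun l hl => ?_⟩
    by_contra h3
    refine h2 ⟨_, List.mem_map.2 ⟨l, hl, rfl⟩, fun l' hl' => ?_⟩
    rw [List.mem_singleton.1 hl']
    exact (lit_not l).2 h3

lemma hold_bindD {s' : β → Prop} (f : α → DNF β) (D : DNF α) :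
    hold s' (bindD f D) ↔ hold (fun a => hold s' (f a)) D := by
  have key : ∀ l : Bool × α, hold s' (bif l.1 then f l.2 else negD (f l.2)) ↔
      lit (fun a => hold s' (f a)) l := by
    rintro ⟨b, a⟩
    cases b <;> simp [lit]
  rw [bindD, hold_anyD]
  constructor
  · rintro ⟨_, hD, h⟩
    obtain ⟨C, hC, rfl⟩ := List.mem_map.1 hD
    rw [hold_allD] at h
    exact ⟨C, hC, fun l hl => (key l).1 (h _ (List.mem_map.2 ⟨l, hl, rfl⟩))⟩
  · rintro ⟨C, hC, h⟩
    refine ⟨_, List.mem_map.2 ⟨C, hC, rfl⟩, ?_⟩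
    rw [hold_allD]
    intro E hE
    obtain ⟨l, hl, rfl⟩ := List.mem_map.1 hE
    exact (key l).2 (h l hl)

lemma hold_congr {s' : α → Prop} {D : DNF α} (h : ∀ a ∈ atoms D, s a ↔ s' a) :
    hold s D ↔ hold s' D := by
  refine exists_congr fun C => and_congr_right fun hC => forall₂_congr fun l hl => ?_
  unfold lit
  rw [h l.2 (List.mem_flatMap.2 ⟨C, hC, List.mem_map.2 ⟨l, hl, rfl⟩⟩)]

/-- Boolean evaluation. -/
def holdB (s : α → Bool) (D : DNF α) : Bool :=
  D.any fun C => C.all fun l => bif l.1 then s l.2 else !(s l.2)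

lemma holdB_iff (s : α → Bool) (D : DNF α) : holdB s D = true ↔ hold (fun a => s a = true) D := by
  simp only [holdB, hold, List.any_eq_true, List.all_eq_true]
  refine exists_congr fun C => and_congr_right fun _ => forall₂_congr fun l _ => ?_
  obtain ⟨b, a⟩ := l
  cases b <;> simp [lit]

def eqb (a b : ℕ) : Bool := decide (a = b)

def ltb (a b : ℕ) : Bool := decide (a < b)

end Pool.Agent.Lib.MP_7610b6_lc
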