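import Mathlib

/-!
The ring of integers of the maximal solvable extension of `ℚ`, and first-order formulas whose
atomic formulas say that a product of linear polynomials divides another such product.
-/

namespace Pool.Agent.Lib.MP_7610b6_lc

/-- `ℤ^solv`: algebraic integers lying in a finite Galois extension of `ℚ` with solvable group. -/
def Zsolv : Set (AlgebraicClosure ℚ) :=
  {x | IsIntegral ℤ x ∧ ∃ L : IntermediateField ℚ (AlgebraicClosure ℚ),
    FiniteDimensional ℚ L ∧ IsGalois ℚ L ∧ Group.IsSolvable (L ≃ₐ[ℚ] L) ∧ x ∈ L}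

/-- The value of the linear polynomial `c + a₀ x₀ + a₁ x₁ + ⋯`, given as `(c, [a₀, a₁, …])`. -/
noncomputable def lin (v : ℕ → AlgebraicClosure ℚ) (t : ℤ × List ℤ) : AlgebraicClosure ℚ :=
  t.1 + ∑ i ∈ Finset.range t.2.length, (t.2.getD i 0 : ℤ) * v i

/-- Formulas: `dvd A B` says that the product of `A` divides the product of `B`; negation,
conjunction, and existential quantification (de Bruijn variables). -/
inductive Fm : Type
  | dvd : List (ℤ × List ℤ) → List (ℤ × List ℤ) → Fm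
  | neg : Fm → Fm
  | conj : Fm → Fm → Fm
  | ex : Fm → Fm

/-- Truth in `ℤ^solv`. -/
def Fm.Sat : Fm → (ℕ → AlgebraicClosure ℚ) → Prop
  | .dvd A B, v => ∃ z ∈ Zsolv, (B.map (lin v)).prod = (A.map (lin v)).prod * z
  | .neg φ, v => ¬ φ.Sat v
  | .conj φ ψ, v => φ.Sat v ∧ ψ.Sat v
  | .ex φ, v => ∃ x ∈ Zsolv, φ.Sat (fun i => Nat.casesOn i x v)

/-- Gödel numbering. -/
def Fm.code : Fm → ℕ
  | .dvd A B => Nat.pair 0 (Encodable.encode (A, B))
  | .neg φ => Nat.pair 1 φ.code
  | .conj φ ψ => Nat.pair 2 (Nat.pair φ.code ψ.code)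
  | .ex φ => Nat.pair 3 φ.code

end Pool.Agent.Lib.MP_7610b6_lc
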