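import Pool.Agent.Lib.MP_7610b6_lc.Stable

/-!
A local-global principle on the affine line with finitely many centres in `K`.
-/

namespace Pool.Agent.Lib.MP_7610b6_lc

variable {K : IntermediateField ℚ Qb}

lemma ext_fin (E : IntermediateField ℚ Qb) [FiniteDimensional ℚ E] (hE : E ≤ K) {s : Set Qb}
    (hs : s.Finite) (hsK : s ⊆ K) :
    ∃ E' : IntermediateField ℚ Qb, FiniteDimensional ℚ E' ∧ E ≤ E' ∧ E' ≤ K ∧ s ⊆ E' := by
  obtain ⟨F, hF, h1, h2⟩ := exists_fin hs hsK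
  exact ⟨E ⊔ F, inferInstance, le_sup_left, sup_le hE h1, fun x hx => le_sup_right (a := E) (h2 hx)⟩

lemma generic_point (hK : RadCl K) {z₀ d : Qb} (hz₀ : z₀ ∈ K) (hd : d ∈ K) (hd0 : d ≠ 0)
    (Z : List Qb) (hZ : ∀ z ∈ Z, z ∈ K) :
    ∃ y ∈ K, ∀ z ∈ Z, ∀ w : Place, w.N (y - z) = max (w.N d) (w.N (z₀ - z)) := by
  obtain ⟨u, hu, h1, h2⟩ := skolem hK _ (Z.map fun z => (z - z₀) / d) rfl (by
    intro a ha
    obtain ⟨z, hz, rfl⟩ := List.mem_map.1 ha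
    exact K.div_mem (K.sub_mem (hZ z hz) hz₀) hd)
  refine ⟨z₀ + d * u, K.add_mem hz₀ (K.mul_mem hd hu), fun z hz w => ?_⟩
  have h3 := h2 _ (List.mem_map.2 ⟨z, hz, rfl⟩) w
  set a := (z - z₀) / d with ha
  have h4 : z₀ + d * u - z = d * (u - a) := by rw [ha]; field_simp; ring
  have h5 : w.N (z₀ - z) = w.N d * w.N a := by
    rw [← map_mul, ← w.N.map_neg]; congr 1; rw [ha]; field_simp; ring
  have h6 : w.N (u - a) = max 1 (w.N a) := by
    rcases le_or_gt (w.N a) 1 with h | h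
    · rw [max_eq_left h]; exact le_antisymm (w.sub_le_of (h1 w) h) h3
    · rw [max_eq_right h.le]; exact w.sub_eq_right ((h1 w).trans_lt h)
  rw [h4, map_mul, h6, h5, mul_max_of_nonneg _ _ (w.N.nonneg _), mul_one]

lemma Place.nearest (w : Place) (y : Qb) {Z : List Qb} (hZ : Z ≠ []) :
    ∃ z₀ ∈ Z, ∀ z ∈ Z, w.N (y - z) = max (w.N (y - z₀)) (w.N (z₀ - z)) := by
  classical
  obtain ⟨z₀, h0, h⟩ := Z.toFinset.exists_min_image (fun z => w.N (y - z))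
    (by simpa [List.toFinset_nonempty_iff] using hZ)
  refine ⟨z₀, by simpa using h0, fun z hz => le_antisymm ?_ (max_le ?_ ?_)⟩
  · have := w.add_le (y - z₀) (z₀ - z)
    rwa [sub_add_sub_cancel] at this
  · exact h z (by simpa using hz)
  · have := w.sub_le_of (le_refl (w.N (y - z))) (h z (by simpa using hz))
    rwa [sub_sub_sub_cancel_left] at this

lemma exists_unif (hK : RadCl K) (w : Place) {x : Qb} (hx : x ≠ 0) :
    ∃ d ∈ K, d ≠ 0 ∧ ∀ w' : Place, w.p = w'.p → w'.N d = w.N x := by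
  obtain ⟨k, hk, c, hc, h⟩ := w.exists_pow_eq_rat hx
  obtain ⟨d, hd, hdk⟩ := hK.root (a := (c : Qb)) (SubfieldClass.ratCast_mem K c) hk
  refine ⟨d, hd, ?_, fun w' hw => ?_⟩
  · rintro rfl
    rw [zero_pow hk] at hdk
    exact hc (by exact_mod_cast hdk.symm)
  · apply (pow_left_inj₀ (w'.N.nonneg _) (w.N.nonneg _) hk).1
    rw [← map_pow, hdk, h, N_rat_eq hw]

lemma transport (hK : RadCl K) {E : IntermediateField ℚ Qb} (hE : E ≤ K) {Z : List Qb}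
    (hZ : ∀ z ∈ Z, z ∈ E) (hne : Z ≠ []) (w : Place) {x : Qb} (hx : x ∉ Z) :
    ∃ y ∈ K, ∃ ρ : ℝ, 0 < ρ ∧ ∀ w', Eqv E w w' → ∀ y', w'.N (y' - y) < ρ →
      ∀ z ∈ Z, w.N (x - z) = w'.N (y' - z) := by
  obtain ⟨z₀, h0, h⟩ := w.nearest x hne
  have hx0 : x - z₀ ≠ 0 := sub_ne_zero.2 (by rintro rfl; exact hx h0)
  obtain ⟨d, hd, hd0, h1⟩ := exists_unif hK w hx0
  obtain ⟨y, hy, h2⟩ := generic_point hK (hE (hZ z₀ h0)) hd hd0 Z fun z hz => hE (hZ z hz)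
  refine ⟨y, hy, w.N (x - z₀), w.N.pos hx0, fun w' hw y' hy' z hz => ?_⟩
  have h3 : w'.N (y - z) = w.N (x - z) := by
    rw [h2 z hz, h z hz, h1 w' hw.p_eq, hw _ (E.sub_mem (hZ z₀ h0) (hZ z hz))]
  have h4 : w'.N (y' - y) < w'.N (y - z) := by
    rw [h3, h z hz]; exact hy'.trans_le (le_max_left _ _)
  have := w'.add_eq_right h4
  rw [sub_add_sub_cancel] at this
  rw [this, h3]

lemma exists_avoid (hK : RadCl K) (E : IntermediateField ℚ Qb) [FiniteDimensional ℚ E]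
    (hE : E ≤ K) (w : Place) (W : List Place) :
    ∃ E' : IntermediateField ℚ Qb, FiniteDimensional ℚ E' ∧ E ≤ E' ∧ E' ≤ K ∧
      ∃ w', Eqv E w w' ∧ ∀ x ∈ W, ¬ Eqv E' w' x := by
  induction W with
  | nil => exact ⟨E, inferInstance, le_rfl, hE, w, Eqv.refl _ _, by simp⟩
  | cons x W ih =>
    obtain ⟨E₁, f1, l1, k1, w₁, e1, h1⟩ := ih
    obtain ⟨w₂, e2, s, q, hs, h2⟩ := exists_split E₁ w₁
    have hsK : s ∈ K := hK s 2 two_ne_zero (hs ▸ natCast_mem K q)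
    have ha : (1 + s) / 2 ∈ K := K.div_mem (K.add_mem K.one_mem hsK) (ofNat_mem K 2)
    obtain ⟨E₂, f2, l2, k2, h3⟩ := ext_fin E₁ k1 (s := {(1 + s) / 2}) (by simp) (by simpa using ha)
    have ha2 : (1 + s) / 2 ∈ E₂ := h3 rfl
    refine ⟨E₂, f2, l1.trans l2, k2, ?_⟩
    by_cases h4 : Eqv E₂ w₁ x
    · refine ⟨w₂, e1.trans (e2.mono l1), ?_⟩
      intro y hy h5
      rcases List.mem_cons.1 hy with rfl | hy
      · exact h2 ((h4.trans h5.symm) _ ha2)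
      · exact h1 y hy (e2.trans (h5.mono l2))
    · refine ⟨w₁, e1, ?_⟩
      intro y hy h5
      rcases List.mem_cons.1 hy with rfl | hy
      · exact h4 h5
      · exact h1 y hy (h5.mono l2)

lemma exists_sep (hK : RadCl K) (E : IntermediateField ℚ Qb) [FiniteDimensional ℚ E]
    (hE : E ≤ K) {ι : Type*} (u : ι → Place) (s : Finset ι) :
    ∃ E' : IntermediateField ℚ Qb, FiniteDimensional ℚ E' ∧ E ≤ E' ∧ E' ≤ K ∧
      ∃ u' : ι → Place, (∀ i, Eqv E (u i) (u' i)) ∧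
        ∀ i ∈ s, ∀ j ∈ s, Eqv E' (u' i) (u' j) → i = j := by
  classical
  induction s using Finset.induction_on with
  | empty => exact ⟨E, inferInstance, le_rfl, hE, u, fun i => Eqv.refl _ _, by simp⟩
  | insert a s ha ih =>
    obtain ⟨E₁, f1, l1, k1, u', e1, h1⟩ := ih
    obtain ⟨E₂, f2, l2, k2, w', e2, h2⟩ := exists_avoid hK E₁ k1 (u' a) (s.toList.map u')
    have h3 : ∀ j ∈ s, ¬ Eqv E₂ w' (u' j) := fun j hj =>
      h2 _ (List.mem_map.2 ⟨j, by simpa using hj, rfl⟩)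
    refine ⟨E₂, f2, l1.trans l2, k2, Function.update u' a w', ?_, ?_⟩
    · intro i
      by_cases h : i = a
      · subst h; simpa using (e1 i).trans (e2.mono l1)
      · simpa [h] using e1 i
    · intro i hi j hj h
      have hs : ∀ k ∈ s, Function.update u' a w' k = u' k := fun k hk =>
        Function.update_of_ne (by rintro rfl; exact ha hk) _ _
      rcases Finset.mem_insert.1 hi with hi | hi <;> rcases Finset.mem_insert.1 hj with hj | hj
      · rw [hi, hj]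
      · rw [hi, Function.update_self, hs j hj] at h
        exact absurd h (h3 j hj)
      · rw [hj, Function.update_self, hs i hi] at h
        exact absurd h.symm (h3 i hi)
      · rw [hs i hi, hs j hj] at h
        exact h1 i hi j hj (h.mono l2)

lemma strong_approx (hK : RadCl K) {a : Qb} (ha : a ∈ K) {ε : ℝ} (hε : 0 < ε) (B : ℕ)
    (Z : List Qb) (hZ : ∀ z ∈ Z, z ∈ K) (hB : ∀ z ∈ Z, ∀ w : Place, B < w.p → w.N z ≤ 1) :
    ∃ y ∈ K, (∀ w : Place, w.p ≤ B → w.N (y - a) < ε) ∧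
      ∀ w : Place, B < w.p → ∀ z ∈ Z, w.N (y - z) = 1 := by
  obtain ⟨D, hD, hi⟩ := exists_den a
  obtain ⟨P, hP⟩ : ∃ P : ℕ, P = B.factorial := ⟨_, rfl⟩
  have hP0 : (P : Qb) ≠ 0 := by rw [hP]; exact_mod_cast B.factorial_ne_zero
  have hP1 : ∀ w : Place, B < w.p → w.N (P : Qb) = 1 := fun w hw =>
    w.N_nat_eq_one (by rw [hP, w.hp.dvd_factorial]; omega)
  have hP2 : ∀ w : Place, w.p ≤ B → w.N (P : Qb) ≤ w.N (w.p : Qb) := fun w hw => by
    have := w.N_int_le_of_dvd (n := P) (by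
      rw [hP]; exact_mod_cast (w.hp.dvd_factorial).2 hw)
    simpa using this
  have hp2 : ∀ w : Place, w.N (w.p : Qb) ≤ 1 / 2 := fun w => by
    rw [w.N_p, one_div]
    exact inv_anti₀ (by norm_num) (by exact_mod_cast w.hp.two_le)
  obtain ⟨n, hn, hper⟩ := exists_period (b := (P : Qb)) (isIntegral_algebraMap (x := (P : ℤ))) hD
  obtain ⟨j, hj⟩ := exists_pow_lt_of_lt_one hε (by norm_num : (1 / 2 : ℝ) < 1)
  set k := j + D.natAbs with hk
  set a' := (1 - ((P : Qb) ^ n) ^ k) * a with ha'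
  have hPK : (P : Qb) ∈ K := natCast_mem K P
  have ha'K : a' ∈ K := K.mul_mem (K.sub_mem K.one_mem (pow_mem (pow_mem hPK _) _)) ha
  obtain ⟨t, ht, h1, h2⟩ := skolem hK _ (Z.map fun z => (z - a') / (P : Qb) ^ k) rfl (by
    intro b hb
    obtain ⟨z, hz, rfl⟩ := List.mem_map.1 hb
    exact K.div_mem (K.sub_mem (hZ z hz) ha'K) (pow_mem hPK _))
  refine ⟨a' + (P : Qb) ^ k * t, K.add_mem ha'K (K.mul_mem (pow_mem hPK _) ht), ?_, ?_⟩
  · intro w hw
    have h3 : a' + (P : Qb) ^ k * t - a = (P : Qb) ^ k * t - ((P : Qb) ^ n) ^ k * a := by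
      rw [ha']; ring
    have hw0 := w.N.nonneg (w.p : Qb)
    have h4 : w.N (w.p : Qb) ^ j < ε := (pow_le_pow_left₀ hw0 (hp2 w) j).trans_lt hj
    have h5 : w.N (P : Qb) ^ k ≤ w.N (w.p : Qb) ^ j * w.N (D : Qb) := by
      refine (pow_le_pow_left₀ (w.N.nonneg _) (hP2 w hw) k).trans ?_
      rw [hk, pow_add]
      exact mul_le_mul_of_nonneg_left (w.pow_le_N_int _ hD le_rfl) (pow_nonneg hw0 _)
    rw [h3]
    apply w.sub_lt_of
    · rw [map_mul, map_pow]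
      refine (mul_le_of_le_one_right (pow_nonneg (w.N.nonneg _) _) (h1 w)).trans_lt ?_
      exact (h5.trans (mul_le_of_le_one_right (pow_nonneg hw0 _) (w.int_le_one D))).trans_lt h4
    · rw [map_mul, map_pow, map_pow]
      have h6 : (w.N (P : Qb) ^ n) ^ k ≤ w.N (P : Qb) ^ k :=
        pow_le_pow_left₀ (pow_nonneg (w.N.nonneg _) _)
          (pow_le_of_le_one (w.N.nonneg _) (w.nat_le_one P) hn) k
      have h7 := w.of_integral hi
      rw [map_mul] at h7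
      calc _ ≤ w.N (w.p : Qb) ^ j * w.N (D : Qb) * w.N a :=
            mul_le_mul_of_nonneg_right (h6.trans h5) (w.N.nonneg _)
        _ = w.N (w.p : Qb) ^ j * (w.N (D : Qb) * w.N a) := by ring
        _ ≤ w.N (w.p : Qb) ^ j := mul_le_of_le_one_right (pow_nonneg hw0 _) h7
        _ < ε := h4
  · intro w hw z hz
    have h3 := h2 _ (List.mem_map.2 ⟨z, hz, rfl⟩) w
    have h4 : a' + (P : Qb) ^ k * t - z = (P : Qb) ^ k * (t - (z - a') / (P : Qb) ^ k) := by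
      field_simp; ring
    have h5 : w.N a' ≤ 1 := by
      have hPn : w.N ((P : Qb) ^ n) ≤ 1 := by rw [map_pow, hP1 w hw, one_pow]
      obtain ⟨g, hg⟩ := sub_dvd_pow_sub_pow (⟨(P : Qb) ^ n, hPn⟩ : w.ball) 1 k
      have h6 := congrArg (fun u : w.ball => w.N (u : Qb)) hg
      simp only [AddSubgroupClass.coe_sub, SubmonoidClass.coe_pow, Subring.coe_mul,
        Subring.coe_one, one_pow, map_mul] at h6
      have h7 : w.N (((P : Qb) ^ n) ^ k - 1) ≤ w.N (D : Qb) := by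
        rw [h6]
        exact (mul_le_of_le_one_right (w.N.nonneg _) (g.2 : w.N g ≤ 1)).trans
          (hper w (hP1 w hw))
      have h8 := w.of_integral hi
      rw [ha', map_mul, w.N.map_sub]
      rw [map_mul] at h8
      exact (mul_le_mul_of_nonneg_right h7 (w.N.nonneg _)).trans h8
    rw [h4, map_mul, map_pow, hP1 w hw, one_pow, one_mul]
    refine le_antisymm (w.sub_le_of (h1 w) ?_) h3
    rw [map_div₀, map_pow, hP1 w hw, one_pow, div_one]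
    exact w.sub_le_of (hB z hz w hw) h5

theorem lgp (hK : RadCl K) (E : IntermediateField ℚ Qb) [FiniteDimensional ℚ E] (hE : E ≤ K)
    {Z : List Qb} (hZ : ∀ z ∈ Z, z ∈ E) (hne : Z ≠ []) {ι : Type*} [Finite ι]
    (P₀ : Place → Qb → Prop) (P : ι → Place → Qb → Prop)
    (inv₀ : ∀ w w' y y', Eqv E w w' → (∀ z ∈ Z, w.N (y - z) = w'.N (y' - z)) →
      P₀ w y → P₀ w' y')
    (inv : ∀ i w w' y y', Eqv E w w' → (∀ z ∈ Z, w.N (y - z) = w'.N (y' - z)) →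
      P i w y → P i w' y')
    (B₀ : ℕ) (gen : ∀ w : Place, B₀ < w.p → ∀ y, (∀ z ∈ Z, w.N (y - z) = 1) → P₀ w y)
    (h0 : ∀ w, ∃ y, y ∉ Z ∧ P₀ w y) (hs : ∀ i, ∃ w y, y ∉ Z ∧ P₀ w y ∧ P i w y) :
    ∃ y ∈ K, (∀ w, P₀ w y) ∧ ∀ i, ∃ w, P i w y := by
  classical
  have := Fintype.ofFinite ι
  choose u yu hu using hs
  obtain ⟨E₁, f1, l1, k1, u', e1, h1⟩ := exists_sep hK E hE u Finset.univ
  have tgt : ∀ w, ∃ w₀ y₀, Eqv E w₀ w ∧ y₀ ∉ Z ∧ P₀ w₀ y₀ ∧
      ∀ i, Eqv E₁ w (u' i) → P i w₀ y₀ := by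
    intro w
    by_cases h : ∃ i, Eqv E₁ w (u' i)
    · obtain ⟨i, hi⟩ := h
      refine ⟨u i, yu i, (e1 i).trans (hi.mono l1).symm, (hu i).1, (hu i).2.1, fun j hj => ?_⟩
      rw [← h1 i (by simp) j (by simp) (hi.symm.trans hj)]
      exact (hu i).2.2
    · obtain ⟨y, hy, h2⟩ := h0 w
      exact ⟨w, y, Eqv.refl _ _, hy, h2, fun i hi => absurd ⟨i, hi⟩ h⟩
  have tgt2 : ∀ w, ∃ y ∈ K, ∃ ρ : ℝ, 0 < ρ ∧ ∀ w', Eqv E₁ w w' → ∀ y', w'.N (y' - y) < ρ →
      P₀ w' y' ∧ ∀ i, Eqv E₁ w' (u' i) → P i w' y' := by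
    intro w
    obtain ⟨w₀, y₀, e0, hy₀, p0, pi⟩ := tgt w
    obtain ⟨y, hy, ρ, hρ, h⟩ := transport hK hE hZ hne w₀ hy₀
    refine ⟨y, hy, ρ, hρ, fun w' hw y' hy' => ?_⟩
    have e2 : Eqv E w₀ w' := e0.trans (hw.mono l1)
    have h2 := h w' e2 y' hy'
    exact ⟨inv₀ _ _ _ _ e2 h2 p0, fun i hi => inv i _ _ _ _ e2 h2 (pi i (hw.trans hi))⟩
  choose Y hY ρ hρ hYρ using tgt2
  choose bz hbz using exists_bound_le
  obtain ⟨B, hB0, hB1, hB2⟩ : ∃ B : ℕ, B₀ ≤ B ∧ (∀ i, (u' i).p ≤ B) ∧ ∀ z ∈ Z, bz z ≤ B := by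
    refine ⟨B₀ + (Finset.univ.sup fun i => (u' i).p) + Z.toFinset.sup bz, by omega, ?_, ?_⟩
    · intro i
      have := Finset.le_sup (f := fun i => (u' i).p) (Finset.mem_univ i)
      omega
    · intro z hz
      have := Finset.le_sup (f := bz) (List.mem_toFinset.2 hz)
      omega
  obtain ⟨Rep, hfin, -, hR⟩ := exists_reps E₁ B
  choose! r hr er using hR
  obtain ⟨E₂, f2, l2, k2, hE₂⟩ := ext_fin E₁ k1 (hfin.image Y) (by
    rintro _ ⟨w, -, rfl⟩; exact hY w)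
  obtain ⟨ε, hε, hερ⟩ : ∃ ε : ℝ, 0 < ε ∧ ∀ w ∈ Rep, ε ≤ ρ w := by
    rcases Rep.eq_empty_or_nonempty with h | h
    · exact ⟨1, one_pos, by simp [h]⟩
    · obtain ⟨w, -, hw⟩ := Set.exists_min_image Rep ρ hfin h
      exact ⟨ρ w, hρ w, hw⟩
  obtain ⟨a, ha, hap⟩ := weak_approx E₂ B (fun w => if w.p ≤ B then Y (r w) else 0) (by
    intro w
    split_ifs with h
    · exact hE₂ ⟨_, hr w h, rfl⟩
    · exact E₂.zero_mem) hε
  obtain ⟨y, hy, h2, h3⟩ := strong_approx hK (k2 ha) hε B Z (fun z hz => hE (hZ z hz))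
    (fun z hz w hw => hbz z w ((hB2 z hz).trans_lt hw))
  have key : ∀ w : Place, w.p ≤ B → P₀ w y ∧ ∀ i, Eqv E₁ w (u' i) → P i w y := by
    intro w hw
    obtain ⟨w', e2, h4⟩ := hap w hw
    have hw' : w'.p ≤ B := e2.p_eq ▸ hw
    simp only [hw', if_true] at h4
    apply hYρ (r w') w ((e2.mono l2).trans (er w' hw')).symm
    have := w.add_lt_of (h2 w hw) h4
    rw [sub_add_sub_cancel] at this
    exact this.trans_le (hερ _ (hr w' hw'))
  refine ⟨y, hy, fun w => ?_, fun i => ⟨u' i, (key _ (hB1 i)).2 i (Eqv.refl _ _)⟩⟩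
  rcases le_or_gt w.p B with h | h
  · exact (key w h).1
  · exact gen w (hB0.trans_lt h) y (h3 w h)

end Pool.Agent.Lib.MP_7610b6_lc
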