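import Pool.Agent.Lib.MP_7610b6_lc.Place

/-!
Places restricted to number fields: finiteness, weak approximation, splitting.
-/

namespace Pool.Agent.Lib.MP_7610b6_lc

open Polynomial

/-- Two places agree on the subfield `E`. -/
def Eqv (E : IntermediateField ℚ Qb) (w w' : Place) : Prop := ∀ x ∈ E, w.N x = w'.N x

lemma Eqv.refl (E : IntermediateField ℚ Qb) (w : Place) : Eqv E w w := fun _ _ => rfl

lemma Eqv.symm {E : IntermediateField ℚ Qb} {w w' : Place} (h : Eqv E w w') : Eqv E w' w :=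
  fun x hx => (h x hx).symm

lemma Eqv.trans {E : IntermediateField ℚ Qb} {w w' w'' : Place} (h : Eqv E w w')
    (h' : Eqv E w' w'') : Eqv E w w'' := fun x hx => (h x hx).trans (h' x hx)

lemma Eqv.mono {E E' : IntermediateField ℚ Qb} (hE : E ≤ E') {w w' : Place} (h : Eqv E' w w') :
    Eqv E w w' := fun x hx => h x (hE hx)

lemma p_eq_of_lt_one {w w' : Place} (h : w'.N (w.p : Qb) < 1) : w.p = w'.p := by
  have h1 := w'.dvd_of_N_lt_one (n := w.p) (by simpa using h)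
  have h2 : w'.p ∣ w.p := by exact_mod_cast h1
  exact ((Nat.prime_dvd_prime_iff_eq w'.hp w.hp).1 h2).symm

lemma Eqv.p_eq {E : IntermediateField ℚ Qb} {w w' : Place} (h : Eqv E w w') : w.p = w'.p := by
  apply p_eq_of_lt_one
  rw [← h _ (natCast_mem E _)]
  exact w.N_p_lt_one

lemma N_rat_eq {w w' : Place} (h : w.p = w'.p) (c : ℚ) : w.N (c : Qb) = w'.N (c : Qb) := by
  rw [w.N_rat, w'.N_rat, h]

lemma exists_reps_p (E : IntermediateField ℚ Qb) [FiniteDimensional ℚ E] (p : ℕ) :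
    ∃ Rep : Set Place, Rep.Finite ∧ (∀ r ∈ Rep, r.p = p) ∧
      ∀ w : Place, w.p = p → ∃ r ∈ Rep, Eqv E w r := by
  classical
  by_cases hp : p.Prime
  swap
  · exact ⟨∅, Set.finite_empty, by simp, fun w hw => absurd (hw ▸ w.hp) hp⟩
  have : Fact p.Prime := ⟨hp⟩
  let f : (Qb →+* PadicAlgCl p) → (E →ₐ[ℚ] PadicAlgCl p) := fun e =>
    (e.comp (algebraMap E Qb)).toRatAlgHom
  have hs : ∀ t : Set.range f, ∃ e, f e = t := fun t => t.2
  choose g hg using hs
  refine ⟨Set.range fun t : Set.range f => (⟨p, hp, g t⟩ : Place), Set.finite_range _, ?_, ?_⟩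
  · rintro _ ⟨t, rfl⟩; rfl
  · rintro ⟨q, hq, e⟩ rfl
    refine ⟨_, ⟨⟨f e, e, rfl⟩, rfl⟩, fun x hx => ?_⟩
    have h1 := hg ⟨f e, e, rfl⟩
    have h2 := congrArg (fun t : E →ₐ[ℚ] PadicAlgCl q => t ⟨x, hx⟩) h1
    simp only [Place.N_apply]
    exact congrArg norm h2.symm

lemma exists_reps (E : IntermediateField ℚ Qb) [FiniteDimensional ℚ E] (B : ℕ) :
    ∃ Rep : Set Place, Rep.Finite ∧ (∀ r ∈ Rep, r.p ≤ B) ∧
      ∀ w : Place, w.p ≤ B → ∃ r ∈ Rep, Eqv E w r := by
  choose R h1 h2 h3 using exists_reps_p E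
  refine ⟨⋃ p ∈ Set.Iic B, R p, (Set.finite_Iic B).biUnion fun p _ => h1 p, ?_, ?_⟩
  · intro r hr
    simp only [Set.mem_iUnion] at hr
    obtain ⟨p, hp, hr⟩ := hr
    rw [h2 p r hr]; exact hp
  · intro w hw
    obtain ⟨r, hr, h⟩ := h3 w.p w rfl
    exact ⟨r, Set.mem_biUnion hw hr, h⟩

/-- Restriction of a place to a subfield. -/
noncomputable def Place.res (w : Place) (E : IntermediateField ℚ Qb) : AbsoluteValue E ℝ :=
  w.N.comp (algebraMap E Qb).injective

lemma Place.res_apply (w : Place) (E : IntermediateField ℚ Qb) (x : E) :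
    w.res E x = w.N x := rfl

lemma res_eq_of_isEquiv {E : IntermediateField ℚ Qb} {w w' : Place}
    (h : (w.res E).IsEquiv (w'.res E)) : w.res E = w'.res E := by
  have hp : w.p = w'.p := by
    apply p_eq_of_lt_one
    have := (h.lt_one_iff (x := (w.p : E))).1 (by
      rw [Place.res_apply]; simpa using w.N_p_lt_one)
    rw [Place.res_apply] at this
    simpa using this
  obtain ⟨c, hc, h1⟩ := AbsoluteValue.isEquiv_iff_exists_rpow_eq.1 h
  have h2 := congrFun h1 (w.p : E)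
  simp only [Place.res_apply] at h2
  have e1 : ((w.p : E) : Qb) = (w.p : Qb) := by simp
  rw [e1] at h2
  have h3 : w'.N (w.p : Qb) = w.N (w.p : Qb) := by
    have := N_rat_eq hp (w.p : ℚ)
    simpa using this.symm
  rw [h3] at h2
  have hc1 : c = 1 := by
    have h4 := congrArg Real.log h2
    rw [Real.log_rpow w.N_p_pos] at h4
    have h5 : Real.log (w.N (w.p : Qb)) ≠ 0 := (Real.log_neg w.N_p_pos w.N_p_lt_one).ne
    exact mul_right_cancel₀ h5 (by rw [h4, one_mul])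
  ext x
  have := congrFun h1 x
  simpa [hc1] using this

/-- Weak approximation at all places above the primes `≤ B`. -/
lemma weak_approx (E : IntermediateField ℚ Qb) [FiniteDimensional ℚ E] (B : ℕ) (f : Place → Qb)
    (hf : ∀ w, f w ∈ E) {ε : ℝ} (hε : 0 < ε) :
    ∃ a ∈ E, ∀ w : Place, w.p ≤ B → ∃ w', Eqv E w w' ∧ w.N (a - f w') < ε := by
  classical
  obtain ⟨Rep, hfin, -, hR⟩ := exists_reps E B
  let I := (fun w : Place => w.res E) '' Rep
  have hI : I.Finite := hfin.image _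
  have : Finite I := hI
  have := Fintype.ofFinite I
  have hs : ∀ t : I, ∃ w : Place, w.res E = t := fun t => by
    obtain ⟨w, -, hw⟩ := t.2
    exact ⟨w, hw⟩
  choose g hg using hs
  have hd := AbsoluteValue.denseRange_algebraMap_pi (v := fun t : I => (t : AbsoluteValue E ℝ))
    (fun t => by
      rw [← hg t]
      refine ⟨((g t).p : E), by exact_mod_cast (g t).hp.ne_zero, ?_⟩
      rw [Place.res_apply]
      simpa using (g t).N_p_lt_one.ne)
    (fun t u htu he => by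
      apply htu
      apply Subtype.ext
      rw [← hg t, ← hg u] at he ⊢
      exact res_eq_of_isEquiv he)
  obtain ⟨a, ha⟩ := Metric.denseRange_iff.1 hd
    (fun t => WithAbs.toAbs _ (⟨f (g t), hf _⟩ : E)) ε hε
  refine ⟨a, a.2, fun w hw => ?_⟩
  obtain ⟨r, hr, h⟩ := hR w hw
  let t : I := ⟨r.res E, r, hr, rfl⟩
  have h1 : Eqv E r (g t) := fun x hx => by
    have := congrArg (fun v : AbsoluteValue E ℝ => v ⟨x, hx⟩) (hg t)
    exact this.symm
  refine ⟨g t, h.trans h1, ?_⟩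
  have h2 := (dist_le_pi_dist _ _ t).trans_lt ha
  rw [dist_comm, dist_eq_norm] at h2
  rw [h _ (E.sub_mem a.2 (hf _))]
  exact h2

lemma not_sq_mul {q q' : ℕ} (hq : q.Prime) (hq' : q'.Prime) (hne : q ≠ q') (r : ℚ) :
    r ^ 2 ≠ (q : ℚ) * q' := by
  intro h
  have h1 : IsSquare ((q * q' : ℕ) : ℚ) := ⟨r, by push_cast; rw [← h]; ring⟩
  obtain ⟨n, hn⟩ := Rat.isSquare_natCast_iff.1 h1
  have h2 : q ∣ n := by
    have : q ∣ n * n := hn ▸ dvd_mul_right q q'
    rcases (Nat.Prime.dvd_mul hq).1 this with h | h <;> exact h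
  obtain ⟨m, rfl⟩ := h2
  have h3 : q' = q * (m * m) := by
    apply Nat.eq_of_mul_eq_mul_left hq.pos
    rw [hn]; ring
  exact hne ((Nat.prime_dvd_prime_iff_eq hq hq').1 ⟨_, h3⟩)

lemma exists_sqrt_notMem (E : IntermediateField ℚ Qb) [FiniteDimensional ℚ E] {k : ℕ}
    (hk : k ≠ 0) : ∃ q : ℕ, q ≡ 1 [MOD k] ∧ 0 < q ∧ ∀ s : Qb, s ^ 2 = q → s ∉ E := by
  by_contra hcon
  push Not at hcon
  let T := {q : ℕ | q.Prime ∧ q ≡ 1 [MOD k]}
  have hT : T.Infinite := Nat.infinite_setOfPred_prime_modEq_one hk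
  have : Infinite T := hT.to_subtype
  have hs : ∀ q : T, ∃ s : Qb, s ^ 2 = (q : ℕ) ∧ s ∈ E := fun q => hcon q q.2.2 q.2.1.pos
  choose s hs hsE using hs
  let φ : T → ((E →ₐ[ℚ] Qb) → Prop) := fun q τ => τ ⟨s q, hsE q⟩ = s q
  obtain ⟨q, q', hne, he⟩ := Finite.exists_ne_map_eq_of_infinite φ
  have hpm : ∀ (σ : Qb ≃ₐ[ℚ] Qb) (q : T), σ (s q) = s q ∨ σ (s q) = - s q := by
    intro σ q
    apply sq_eq_sq_iff_eq_or_eq_neg.1
    rw [← map_pow, hs q, map_natCast]
  have hfix : ∀ σ : Qb ≃ₐ[ℚ] Qb, σ (s q * s q') = s q * s q' := by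
    intro σ
    have h1 : (σ (s q) = s q) = (σ (s q') = s q') :=
      congrFun he (σ.toAlgHom.comp E.val)
    rw [map_mul]
    by_cases h2 : σ (s q) = s q
    · have h3 : σ (s q') = s q' := h1 ▸ h2
      rw [h2, h3]
    · have h3 : ¬ σ (s q') = s q' := h1 ▸ h2
      rw [(hpm σ q).resolve_left h2, (hpm σ q').resolve_left h3]; ring
  obtain ⟨r, hr⟩ := (InfiniteGalois.mem_range_algebraMap_iff_fixed (k := ℚ) (s q * s q')).2 hfix
  apply not_sq_mul q.2.1 q'.2.1 (fun h => hne (Subtype.ext h)) r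
  apply (algebraMap ℚ Qb).injective
  rw [map_pow, hr, mul_pow, hs, hs]
  simp

/-- A place has another extension from `E` to any field containing square roots of integers. -/
lemma exists_split (E : IntermediateField ℚ Qb) [FiniteDimensional ℚ E] (w : Place) :
    ∃ w', Eqv E w w' ∧ ∃ (s : Qb) (q : ℕ), s ^ 2 = q ∧ w.N ((1 + s) / 2) ≠ w'.N ((1 + s) / 2) := by
  obtain ⟨q, hq, hq0, hE⟩ := exists_sqrt_notMem E (k := 4 * w.p)
    (mul_ne_zero (by norm_num) w.hp.ne_zero)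
  obtain ⟨s, hs⟩ := IsAlgClosed.exists_pow_nat_eq (q : Qb) (n := 2) (by norm_num)
  have hG : IsGalois E Qb := IsGalois.tower_top_of_isGalois ℚ E Qb
  have h1 : ¬ ∀ σ : Qb ≃ₐ[E] Qb, σ s = s := by
    intro h
    obtain ⟨r, hr⟩ := (InfiniteGalois.mem_range_algebraMap_iff_fixed (k := E) s).2 h
    exact hE s hs (hr ▸ r.2)
  push Not at h1
  obtain ⟨σ, hσ⟩ := h1
  have h2 : σ s = - s := by
    have : σ s = s ∨ σ s = - s := by
      apply sq_eq_sq_iff_eq_or_eq_neg.1
      rw [← map_pow, hs, map_natCast]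
    exact this.resolve_left hσ
  refine ⟨w.act σ.toRingEquiv.toRingHom, fun x hx => ?_, s, q, hs, ?_⟩
  · rw [Place.act_N]
    exact congrArg w.N (σ.commutes ⟨x, hx⟩).symm
  · rw [Place.act_N]
    have h3 : σ.toRingEquiv.toRingHom ((1 + s) / 2) = 1 - (1 + s) / 2 := by
      change σ ((1 + s) / 2) = _
      rw [map_div₀, map_add, map_one, h2, map_ofNat]; ring
    rw [h3]
    obtain ⟨m, hm⟩ := (Nat.modEq_iff_dvd' hq0).1 hq.symm
    have h4 : (q : Qb) = 1 + 4 * w.p * m := by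
      have : q = 1 + 4 * w.p * m := by omega
      rw [this]; push_cast; ring
    set ρ := (1 + s) / 2 with hρ
    have h5 : ρ * (1 - ρ) = - (w.p * m) := by
      rw [hρ]
      linear_combination (-1 / 4 : Qb) * hs + (-1 / 4 : Qb) * h4
    have h6 : w.N ρ * w.N (1 - ρ) < 1 := by
      rw [← map_mul, h5, w.N.map_neg, map_mul]
      exact mul_lt_one_of_nonneg_of_lt_one_left (w.N.nonneg _) w.N_p_lt_one (w.nat_le_one m)
    intro h7
    rw [← h7] at h6
    have h8 : w.N ρ < 1 := by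
      by_contra h9
      push Not at h9
      nlinarith
    have h9 := w.add_lt_of h8 (h7 ▸ h8 : w.N (1 - ρ) < 1)
    simp at h9

end Pool.Agent.Lib.MP_7610b6_lc
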