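import Mathlib

/-!
Monomial inequalities in one positive real variable.
-/

namespace Pool.Agent.Lib.MP_7610b6_lc

open Filter Topology Set

lemma ev_gt {a b h : ℝ} (ha : 0 ≤ a) (hb : 0 ≤ b) (hh : 0 ≤ h) {d : ℕ} (hd : d ≠ 0) :
    ∀ᶠ ρ in 𝓝[>] h, (ρ ^ d * a ≤ b ↔ (h ^ d * a < b ∨ a = 0)) := by
  rcases ha.eq_or_lt with rfl | ha'
  · simp [hb]
  by_cases h1 : h ^ d * a < b
  · have hc : ContinuousAt (fun ρ : ℝ => ρ ^ d * a) h := by fun_prop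
    have := (hc.eventually_lt (continuousAt_const (y := b)) h1).filter_mono
      (nhdsWithin_le_nhds (s := Ioi h))
    filter_upwards [this] with ρ hρ
    simp [h1, hρ.le]
  · filter_upwards [self_mem_nhdsWithin] with ρ hρ
    have h2 : h ^ d < ρ ^ d := pow_lt_pow_left₀ hρ hh hd
    have h3 := mul_lt_mul_of_pos_right h2 ha'
    constructor
    · intro h4; exfalso; exact h1 (h3.trans_le h4)
    · rintro (h4 | h4)
      · exact absurd h4 h1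
      · exact absurd h4 ha'.ne'

lemma ev_lt {a b h : ℝ} (hb : 0 ≤ b) (hh : 0 ≤ h) (d : ℕ) :
    ∀ᶠ ρ in 𝓝[>] h, (a ≤ ρ ^ d * b ↔ a ≤ h ^ d * b) := by
  by_cases h1 : a ≤ h ^ d * b
  · filter_upwards [self_mem_nhdsWithin] with ρ hρ
    have h2 : h ^ d ≤ ρ ^ d := pow_le_pow_left₀ hh (le_of_lt hρ) d
    simp only [h1, iff_true]
    exact h1.trans (mul_le_mul_of_nonneg_right h2 hb)
  · have hc : ContinuousAt (fun ρ : ℝ => ρ ^ d * b) h := by fun_prop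
    have := (hc.eventually_lt (continuousAt_const (y := a)) (not_le.1 h1)).filter_mono
      (nhdsWithin_le_nhds (s := Ioi h))
    filter_upwards [this] with ρ hρ
    simp [h1, hρ]

lemma div_gt {ρ a b : ℝ} (hρ : 0 < ρ) (t d : ℕ) :
    ρ ^ (t + d) * a ≤ ρ ^ t * b ↔ ρ ^ d * a ≤ b := by
  rw [pow_add, mul_assoc, mul_le_mul_iff_right₀ (pow_pos hρ t)]

lemma div_lt {ρ a b : ℝ} (hρ : 0 < ρ) (s d : ℕ) :
    ρ ^ s * a ≤ ρ ^ (s + d) * b ↔ a ≤ ρ ^ d * b := by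
  rw [pow_add, mul_assoc, mul_le_mul_iff_right₀ (pow_pos hρ s)]

lemma const_between {a b r₁ r₂ : ℝ} (ha : 0 ≤ a) (hb : 0 ≤ b) (h1 : 0 < r₁) (h12 : r₁ ≤ r₂)
    {s t : ℕ} (h : ∀ ρ, r₁ ≤ ρ → ρ ≤ r₂ → ρ ^ s * a = ρ ^ t * b → s = t ∨ a = 0 ∨ b = 0) :
    r₁ ^ s * a ≤ r₁ ^ t * b ↔ r₂ ^ s * a ≤ r₂ ^ t * b := by
  have h2 : 0 < r₂ := h1.trans_le h12
  by_cases hst : s = t
  · subst hst
    rw [mul_le_mul_iff_right₀ (pow_pos h1 s), mul_le_mul_iff_right₀ (pow_pos h2 s)]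
  rcases ha.eq_or_lt with rfl | ha'
  · simp only [mul_zero]
    exact ⟨fun _ => by positivity, fun _ => by positivity⟩
  rcases hb.eq_or_lt with rfl | hb'
  · simp only [mul_zero]
    exact ⟨fun h => absurd h (not_le.2 (by positivity)), fun h => absurd h (not_le.2 (by positivity))⟩
  have hc : ContinuousOn (fun ρ : ℝ => ρ ^ s * a - ρ ^ t * b) (Icc r₁ r₂) := by fun_prop
  have hne : ∀ ρ ∈ Icc r₁ r₂, ρ ^ s * a - ρ ^ t * b ≠ 0 := by
    intro ρ hρ h0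
    rcases h ρ hρ.1 hρ.2 (sub_eq_zero.1 h0) with h | h | h
    · exact hst h
    · exact ha'.ne' h
    · exact hb'.ne' h
  constructor
  · intro h3
    by_contra h4
    obtain ⟨ρ, hρ, h5⟩ := intermediate_value_Icc h12 hc
      (show (0 : ℝ) ∈ Icc _ _ from ⟨by simpa using h3, by simpa using (not_le.1 h4).le⟩)
    exact hne ρ hρ h5
  · intro h3
    by_contra h4
    obtain ⟨ρ, hρ, h5⟩ := intermediate_value_Icc' h12 hc
      (show (0 : ℝ) ∈ Icc _ _ from ⟨by simpa using h3, by simpa using (not_le.1 h4).le⟩)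
    exact hne ρ hρ h5

lemma le_at {ρ u v a b : ℝ} (hρ : 0 < ρ) (hu : 0 < u) (ha : 0 ≤ a) (hb : 0 ≤ b) {k : ℕ}
    (hk : k ≠ 0) (h : ρ ^ k * u = v) (s t : ℕ) :
    v ^ s * a ^ k * u ^ t ≤ v ^ t * b ^ k * u ^ s ↔ ρ ^ s * a ≤ ρ ^ t * b := by
  subst h
  rw [← pow_le_pow_iff_left₀ (a := ρ ^ s * a) (by positivity) (by positivity) hk]
  have e1 : (ρ ^ k * u) ^ s * a ^ k * u ^ t = (ρ ^ s * a) ^ k * (u ^ s * u ^ t) := by ring
  have e2 : (ρ ^ k * u) ^ t * b ^ k * u ^ s = (ρ ^ t * b) ^ k * (u ^ s * u ^ t) := by ring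
  rw [e1, e2, mul_le_mul_iff_left₀ (by positivity)]

end Pool.Agent.Lib.MP_7610b6_lc
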