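import Pool.Agent.Lib.MP_7610b6_lc.Syn
import Pool.Agent.Lib.MP_7610b6_lc.Real
import Pool.Agent.Lib.MP_7610b6_lc.LGP

/-!
Semantics of forms and atoms at a place; elimination of the radius variable.
-/

namespace Pool.Agent.Lib.MP_7610b6_lc

open Filter Topology Set

noncomputable def fval (v : ℕ → Qb) (L : Form) : Qb :=
  (L.map fun e => bif e.1 then v e.2 else - v e.2).sum

def ival (c : Form) : ℤ := (c.map fun e => bif e.1 then 1 else -1).sum

def ins (x : Qb) (v : ℕ → Qb) : ℕ → Qb := fun i => if i = 1 then x else v (i - 1)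

@[simp] lemma fval_nil (v : ℕ → Qb) : fval v [] = 0 := rfl

lemma fval_cons (v : ℕ → Qb) (e : Bool × ℕ) (L : Form) :
    fval v (e :: L) = (bif e.1 then v e.2 else - v e.2) + fval v L := by simp [fval]

@[simp] lemma fval_append (v : ℕ → Qb) (L L' : Form) :
    fval v (L ++ L') = fval v L + fval v L' := by simp [fval]

@[simp] lemma fval_negF (v : ℕ → Qb) (L : Form) : fval v (negF L) = - fval v L := by
  induction L with
  | nil => simp [negF]
  | cons e L ih =>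
    have : negF (e :: L) = (!e.1, e.2) :: negF L := rfl
    rw [this, fval_cons, fval_cons, ih]
    obtain ⟨b, i⟩ := e
    cases b <;> simp <;> ring

@[simp] lemma fval_mulF (v : ℕ → Qb) (c L : Form) : fval v (mulF c L) = ival c * fval v L := by
  induction c with
  | nil => simp [mulF, ival]
  | cons e c ih =>
    have h1 : mulF (e :: c) L = (bif e.1 then L else negF L) ++ mulF c L := rfl
    have h2 : ival (e :: c) = (bif e.1 then 1 else -1) + ival c := by simp [ival]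
    rw [h1, fval_append, ih, h2]
    obtain ⟨b, i⟩ := e
    cases b <;> simp <;> ring

/-- The coefficient of the eliminated variable. -/
def cf (L : Form) : ℤ := ival (coefF L)

lemma coefF_cons (e : Bool × ℕ) (L : Form) :
    coefF (e :: L) = (bif eqb e.2 1 then [(e.1, 0)] else []) ++ coefF L := rfl

lemma restF_cons (e : Bool × ℕ) (L : Form) :
    restF (e :: L) = (bif eqb e.2 1 then [] else [(e.1, e.2 - 1)]) ++ restF L := rfl

lemma cf_cons (e : Bool × ℕ) (L : Form) :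
    cf (e :: L) = (if e.2 = 1 then (bif e.1 then 1 else -1) else 0) + cf L := by
  unfold cf
  rw [coefF_cons]
  by_cases h : e.2 = 1 <;> simp [eqb, h, ival]

lemma fval_coefF {v : ℕ → Qb} (hv : v 0 = 1) (L : Form) : fval v (coefF L) = cf L := by
  induction L with
  | nil => simp [coefF, cf, ival]
  | cons e L ih =>
    rw [coefF_cons, fval_append, ih, cf_cons]
    obtain ⟨b, i⟩ := e
    by_cases h : i = 1 <;> cases b <;> simp [eqb, h, fval, hv]

lemma fval_ins (x : Qb) (v : ℕ → Qb) (L : Form) :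
    fval (ins x v) L = cf L * x + fval v (restF L) := by
  induction L with
  | nil => simp [restF, cf, coefF, ival]
  | cons e L ih =>
    rw [fval_cons, ih, restF_cons, fval_append, cf_cons]
    obtain ⟨b, i⟩ := e
    by_cases h : i = 1 <;> cases b <;> simp [eqb, h, fval, ins] <;> ring

lemma fval_crossF (v : ℕ → Qb) (J F : Form) :
    fval v (crossF J F) = cf J * fval v (restF F) - cf F * fval v (restF J) := by
  simp [crossF, cf]; ring

lemma fval_mem {K : IntermediateField ℚ Qb} {v : ℕ → Qb} (hv : ∀ i, v i ∈ K) (L : Form) :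
    fval v L ∈ K := by
  induction L with
  | nil => exact K.zero_mem
  | cons e L ih =>
    rw [fval_cons]
    refine K.add_mem ?_ ih
    obtain ⟨b, i⟩ := e
    cases b
    · exact K.neg_mem (hv i)
    · exact hv i

noncomputable def pN (w : Place) (v : ℕ → Qb) (A : List Form) : ℝ :=
  (A.map fun F => w.N (fval v F)).prod

def asem (w : Place) (v : ℕ → Qb) (a : Atom) : Prop := pN w v a.1 ≤ pN w v a.2

variable (w : Place) (v : ℕ → Qb)

@[simp] lemma pN_nil : pN w v [] = 1 := rfl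

@[simp] lemma pN_cons (F : Form) (A : List Form) :
    pN w v (F :: A) = w.N (fval v F) * pN w v A := by simp [pN]

@[simp] lemma pN_append (A B : List Form) : pN w v (A ++ B) = pN w v A * pN w v B := by
  simp [pN]

lemma pN_nonneg (A : List Form) : 0 ≤ pN w v A := by
  induction A with
  | nil => simp
  | cons F A ih => rw [pN_cons]; exact mul_nonneg (w.N.nonneg _) ih

lemma pN_eq (A : List Form) : pN w v A = w.N (A.map (fval v)).prod := by
  induction A with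
  | nil => simp
  | cons F A ih => simp [ih]

@[simp] lemma pN_rep (n : ℕ) (P : List Form) : pN w v (rep n P) = pN w v P ^ n := by
  induction n with
  | zero => simp [rep]
  | succ n ih =>
    have : rep (n + 1) P = rep n P ++ P := by simp [rep, List.range_succ]
    rw [this, pN_append, ih, pow_succ]

@[simp] lemma pN_const {γ : Type*} (B : List γ) (J : Form) :
    pN w v (B.map fun _ => J) = w.N (fval v J) ^ B.length := by
  induction B with
  | nil => simp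
  | cons b B ih => rw [List.map_cons, pN_cons, ih, List.length_cons, pow_succ']

@[simp] lemma asem_zeroA (P : List Form) : asem w v (zeroA P) ↔ pN w v P = 0 := by
  simp only [asem, zeroA, pN_cons, fval_nil, map_zero, zero_mul]
  exact ⟨fun h => le_antisymm h (pN_nonneg w v P), fun h => h.le⟩

noncomputable def mval (ρ : ℝ) (c : Mono) : ℝ := ρ ^ c.1 * pN w v c.2

def esem (ρ : ℝ) (e : EAtom) : Prop := mval w v ρ e.1 ≤ mval w v ρ e.2

def IsThr (ρ : ℝ) (h : Thr) : Prop :=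
  0 < ρ ∧ h.1 ≠ 0 ∧ pN w v h.2.1 ≠ 0 ∧ pN w v h.2.2 ≠ 0 ∧ ρ ^ h.1 * pN w v h.2.1 = pN w v h.2.2

variable {w v}

lemma asem_leAt {ρ : ℝ} {h : Thr} (hh : IsThr w v ρ h) (e : EAtom) :
    asem w v (leAt h e) ↔ esem w v ρ e := by
  obtain ⟨h1, h2, h3, -, h5⟩ := hh
  simp only [asem, leAt, pN_append, pN_rep, esem, mval]
  exact le_at h1 (lt_of_le_of_ne (pN_nonneg _ _ _) h3.symm) (pN_nonneg _ _ _) (pN_nonneg _ _ _)
    h2 h5 _ _

lemma vs_one {ρ : ℝ} {h : Thr} (hh : IsThr w v ρ h) (e : EAtom) :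
    hold (asem w v) (vs (1, h) e) ↔ esem w v ρ e := by
  simp [vs, eqb, asem_leAt hh]

lemma vs_zero (h : Thr) (e : EAtom) :
    ∀ᶠ ρ in 𝓝[>] (0 : ℝ), (hold (asem w v) (vs (0, h) e) ↔ esem w v ρ e) := by
  obtain ⟨⟨s, P⟩, ⟨t, Q⟩⟩ := e
  have hP := pN_nonneg w v P
  have hQ := pN_nonneg w v Q
  rcases lt_trichotomy s t with hst | rfl | hst
  · obtain ⟨d, rfl⟩ := Nat.exists_eq_add_of_lt hst
    filter_upwards [self_mem_nhdsWithin, ev_lt (a := pN w v P) hQ le_rfl (d + 1)] with ρ h1 h2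
    have e2 : ¬ (s + (d + 1) < s) := by omega
    have e3 : pN w v P ≤ 0 ↔ pN w v P = 0 := ⟨fun h => le_antisymm h hP, fun h => h.le⟩
    simp only [vs, eqb, ltb, esem, mval, add_assoc, div_lt h1, h2]
    simp [e2, e3]
  · filter_upwards [self_mem_nhdsWithin] with ρ h1
    simp [vs, eqb, esem, mval, asem, mul_le_mul_iff_right₀ (pow_pos (show 0 < ρ from h1) s)]
  · obtain ⟨d, rfl⟩ := Nat.exists_eq_add_of_lt hst
    filter_upwards [self_mem_nhdsWithin, ev_gt hP hQ le_rfl (d := d + 1) (by omega)] with ρ h1 h2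
    have e2 : t < t + (d + 1) := by omega
    simp only [vs, eqb, ltb, esem, mval, add_assoc, div_gt h1, h2]
    simp [e2, lt_iff_le_and_ne, hQ, eq_comm]

lemma vs_two {r : ℝ} {h : Thr} (hh : IsThr w v r h) (e : EAtom) :
    ∀ᶠ ρ in 𝓝[>] r, (hold (asem w v) (vs (2, h) e) ↔ esem w v ρ e) := by
  have k1 := asem_leAt hh e
  have k2 := asem_leAt hh (e.2, e.1)
  obtain ⟨⟨s, P⟩, ⟨t, Q⟩⟩ := e
  have hP := pN_nonneg w v P
  have hQ := pN_nonneg w v Q
  have hr := hh.1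
  rcases lt_trichotomy s t with hst | rfl | hst
  · obtain ⟨d, rfl⟩ := Nat.exists_eq_add_of_lt hst
    filter_upwards [self_mem_nhdsWithin, ev_lt (a := pN w v P) hQ hr.le (d + 1)] with ρ h1 h2
    have h1' : 0 < ρ := hr.trans h1
    have e2 : ¬ (s + (d + 1) < s) := by omega
    simp only [add_assoc, esem, mval, div_lt hr] at k1
    simp only [vs, eqb, ltb, esem, mval, add_assoc, div_lt h1', h2]
    simp [e2, k1]
  · filter_upwards [self_mem_nhdsWithin] with ρ h1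
    have h1' : 0 < ρ := hr.trans h1
    simp [vs, eqb, esem, mval, asem, mul_le_mul_iff_right₀ (pow_pos h1' s)]
  · obtain ⟨d, rfl⟩ := Nat.exists_eq_add_of_lt hst
    filter_upwards [self_mem_nhdsWithin, ev_gt hP hQ hr.le (d := d + 1) (by omega)] with ρ h1 h2
    have h1' : 0 < ρ := hr.trans h1
    have e2 : t < t + (d + 1) := by omega
    simp only [add_assoc, esem, mval, div_lt hr] at k2
    simp only [vs, eqb, ltb, esem, mval, add_assoc, div_gt h1', h2]
    simp [e2, k2]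

lemma exists_N_btwn (w : Place) {a b : ℝ} (ha : 0 ≤ a) (hab : a < b) :
    ∃ x : Qb, x ≠ 0 ∧ a < w.N x ∧ w.N x < b := by
  have hb : 0 < b := ha.trans_lt hab
  have h1 : a / b < 1 := (div_lt_one hb).2 hab
  obtain ⟨n, hn⟩ := exists_pow_lt_of_lt_one w.N_p_pos h1
  have hn0 : n ≠ 0 := by
    rintro rfl
    rw [pow_zero] at hn
    linarith [w.N_p_lt_one]
  obtain ⟨π, hπ⟩ := IsAlgClosed.exists_pow_nat_eq (w.p : Qb) (Nat.pos_of_ne_zero hn0)
  have hπ0 : π ≠ 0 := by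
    rintro rfl
    rw [zero_pow hn0] at hπ
    exact w.hp.ne_zero (by exact_mod_cast hπ.symm)
  have h2 : w.N π ^ n = w.N (w.p : Qb) := by rw [← map_pow, hπ]
  have h3 : a / b < w.N π :=
    lt_of_pow_lt_pow_left₀ n (w.N.nonneg _) (by rwa [h2])
  have h4 : w.N π < 1 :=
    lt_of_pow_lt_pow_left₀ n zero_le_one (by rw [h2, one_pow]; exact w.N_p_lt_one)
  obtain ⟨m, h5, h6⟩ := exists_zpow_btwn_of_lt_mul (a := a) (b := b) (c := w.N π)
    (by rwa [div_lt_iff₀' hb] at h3) hb (w.N.pos hπ0) h4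
  exact ⟨π ^ m, zpow_ne_zero _ hπ0, by rwa [map_zpow₀], by rwa [map_zpow₀]⟩

lemma exists_N_of_ev (w : Place) {r : ℝ} (hr : 0 ≤ r) {p : ℝ → Prop} (h : ∀ᶠ ρ in 𝓝[>] r, p ρ) :
    ∃ x : Qb, x ≠ 0 ∧ p (w.N x) := by
  obtain ⟨u, hu, h1⟩ := mem_nhdsGT_iff_exists_Ioo_subset.1 h
  obtain ⟨x, hx, h2, h3⟩ := exists_N_btwn w hr hu
  exact ⟨x, hx, h1 ⟨h2, h3⟩⟩

lemma exists_isThr {h : Thr} (h1 : h.1 ≠ 0) (h2 : pN w v h.2.1 ≠ 0) (h3 : pN w v h.2.2 ≠ 0) :
    ∃ x : Qb, x ≠ 0 ∧ IsThr w v (w.N x) h := by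
  obtain ⟨x, hx⟩ := IsAlgClosed.exists_pow_nat_eq
    ((h.2.2.map (fval v)).prod / (h.2.1.map (fval v)).prod) (Nat.pos_of_ne_zero h1)
  have h4 : w.N x ^ h.1 * pN w v h.2.1 = pN w v h.2.2 := by
    rw [← map_pow, hx, map_div₀, ← pN_eq, ← pN_eq, div_mul_cancel₀ _ h2]
  have h5 : x ≠ 0 := by
    rintro rfl
    rw [map_zero, zero_pow h1, zero_mul] at h4
    exact h3 h4.symm
  exact ⟨x, h5, w.N.pos h5, h1, h2, h3, h4⟩

lemma IsThr.unique {ρ ρ' : ℝ} {h : Thr} (h1 : IsThr w v ρ h) (h2 : IsThr w v ρ' h) : ρ = ρ' := by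
  apply (pow_left_inj₀ h1.1.le h2.1.le h1.2.1).1
  exact mul_right_cancel₀ h1.2.2.1 (h1.2.2.2.2.trans h2.2.2.2.2.symm)

lemma exists_thr_of_eq {ρ : ℝ} (hρ : 0 < ρ) {e : EAtom} (h : mval w v ρ e.1 = mval w v ρ e.2)
    (h1 : e.1.1 ≠ e.2.1) (h2 : pN w v e.1.2 ≠ 0) (h3 : pN w v e.2.2 ≠ 0) :
    ∃ t ∈ thr e, IsThr w v ρ t := by
  obtain ⟨⟨s, P⟩, ⟨t, Q⟩⟩ := e
  simp only [mval] at h h1 h2 h3
  rcases lt_or_gt_of_ne h1 with h4 | h4
  · obtain ⟨d, rfl⟩ := Nat.exists_eq_add_of_lt h4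
    refine ⟨(s + d + 1 - s, Q, P), by simp [thr], hρ, by simp only; omega, h3, h2, ?_⟩
    have : s + d + 1 - s = d + 1 := by omega
    simp only [this]
    apply mul_left_cancel₀ (pow_pos hρ s).ne'
    rw [h]; ring
  · obtain ⟨d, rfl⟩ := Nat.exists_eq_add_of_lt h4
    refine ⟨(t + d + 1 - t, P, Q), by simp [thr], hρ, by simp only; omega, h2, h3, ?_⟩
    have : t + d + 1 - t = d + 1 := by omega
    simp only [this]
    apply mul_left_cancel₀ (pow_pos hρ t).ne'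
    rw [← h]; ring

lemma ev_atoms {l : Filter ℝ} (L : List EAtom) {p : ℝ → EAtom → Prop}
    (h : ∀ e, ∀ᶠ ρ in l, p ρ e) : ∀ᶠ ρ in l, ∀ e ∈ L, p ρ e := by
  induction L with
  | nil => simp
  | cons e L ih =>
    filter_upwards [h e, ih] with ρ h1 h2
    intro e' he'
    rcases List.mem_cons.1 he' with rfl | he'
    · exact h1
    · exact h2 e' he'

lemma hold_guard {k : ℕ} (hk : k ≠ 0) (h : Thr) : hold (asem w v) (guard (k, h)) ↔
    h.1 ≠ 0 ∧ pN w v h.2.1 ≠ 0 ∧ pN w v h.2.2 ≠ 0 := by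
  by_cases h1 : h.1 = 0 <;> simp [guard, eqb, hk, h1]

theorem elimR_iff (D : DNF EAtom) :
    hold (asem w v) (elimR D) ↔ ∃ x : Qb, x ≠ 0 ∧ hold (esem w v (w.N x)) D := by
  rw [elimR, hold_anyD]
  constructor
  · rintro ⟨_, h1, h2⟩
    obtain ⟨τ, hτ, rfl⟩ := List.mem_map.1 h1
    rw [hold_andD, hold_bindD] at h2
    obtain ⟨hg, h2⟩ := h2
    rcases List.mem_cons.1 hτ with rfl | hτ
    · obtain ⟨x, hx, h3⟩ := exists_N_of_ev w le_rfl
        (ev_atoms (atoms D) (vs_zero (w := w) (v := v) (0, [], [])))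
      exact ⟨x, hx, (hold_congr h3).1 h2⟩
    · simp only [List.mem_flatMap, List.mem_cons, List.not_mem_nil, or_false] at hτ
      obtain ⟨e, -, h, -, rfl | rfl⟩ := hτ
      · obtain ⟨g1, g2, g3⟩ := (hold_guard one_ne_zero h).1 hg
        obtain ⟨x, hx, h3⟩ := exists_isThr g1 g2 g3
        exact ⟨x, hx, (hold_congr fun e _ => vs_one h3 e).1 h2⟩
      · obtain ⟨g1, g2, g3⟩ := (hold_guard two_ne_zero h).1 hg
        obtain ⟨x, hx, h3⟩ := exists_isThr g1 g2 g3
        obtain ⟨y, hy, h4⟩ := exists_N_of_ev w h3.1.le (ev_atoms (atoms D) (vs_two h3))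
        exact ⟨y, hy, (hold_congr h4).1 h2⟩
  · rintro ⟨x, hx, hD⟩
    set ρ₀ := w.N x with hρ₀
    have hρ : 0 < ρ₀ := w.N.pos hx
    let T : List Thr := (atoms D).flatMap thr
    let S : Set ℝ := {ρ | ∃ h ∈ T, IsThr w v ρ h}
    have hS : S.Finite := by
      have : S = ⋃ h ∈ {h | h ∈ T}, {ρ | IsThr w v ρ h} := by ext; simp [S]
      rw [this]
      exact (List.finite_toSet T).biUnion fun h _ =>
        Set.Subsingleton.finite fun _ h1 _ h2 => h1.unique h2
    have hmem : ∀ h ∈ T, (1, h) ∈ tests (atoms D) ∧ (2, h) ∈ tests (atoms D) := by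
      intro h hh
      obtain ⟨e, he, hh⟩ := List.mem_flatMap.1 hh
      constructor <;>
      exact List.mem_cons_of_mem _ (List.mem_flatMap.2 ⟨e, he, List.mem_flatMap.2 ⟨h, hh, by simp⟩⟩)
    have key : ∀ (τ : Test) (r : ℝ), 0 ≤ r → r < ρ₀ → (∀ ρ ∈ S, ρ ≤ ρ₀ → ρ ≤ r) →
        (∀ e, ∀ᶠ ρ in 𝓝[>] r, (hold (asem w v) (vs τ e) ↔ esem w v ρ e)) →
        hold (asem w v) (bindD (fun e => vs τ e) D) := by
      intro τ r hr hr0 hmax hev
      obtain ⟨ρ₁, h1, h2⟩ := ((ev_atoms (atoms D) hev).and (Ioo_mem_nhdsGT hr0)).exists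
      rw [hold_bindD]
      refine (hold_congr fun e he => ?_).2 hD
      rw [h1 e he]
      refine const_between (pN_nonneg _ _ _) (pN_nonneg _ _ _) (hr.trans_lt h2.1) h2.2.le ?_
      intro ρ h3 h4 h5
      by_contra h6
      push Not at h6
      obtain ⟨t, ht, h7⟩ := exists_thr_of_eq ((hr.trans_lt h2.1).trans_le h3) h5 h6.1 h6.2.1 h6.2.2
      have := hmax ρ ⟨t, List.mem_flatMap.2 ⟨e, he, ht⟩, h7⟩ h4
      linarith [h2.1]
    by_cases h1 : ρ₀ ∈ S
    · obtain ⟨h, hh, h2⟩ := h1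
      refine ⟨_, List.mem_map.2 ⟨_, (hmem h hh).1, rfl⟩, ?_⟩
      rw [hold_andD, hold_bindD, hold_guard one_ne_zero]
      exact ⟨⟨h2.2.1, h2.2.2.1, h2.2.2.2.1⟩, (hold_congr fun e _ => vs_one h2 e).2 hD⟩
    rcases (S ∩ Iic ρ₀).eq_empty_or_nonempty with h2 | h2
    · refine ⟨_, List.mem_map.2 ⟨_, List.mem_cons_self, rfl⟩, ?_⟩
      rw [hold_andD]
      refine ⟨by simp [guard, eqb], key _ 0 le_rfl hρ ?_ (vs_zero _)⟩
      intro ρ h3 h4
      exact absurd (show ρ ∈ S ∩ Iic ρ₀ from ⟨h3, h4⟩) (by simp [h2])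
    · obtain ⟨r, ⟨⟨h, hh, h3⟩, h4⟩, h5⟩ := Set.exists_max_image _ id (hS.inter_of_left _) h2
      refine ⟨_, List.mem_map.2 ⟨_, (hmem h hh).2, rfl⟩, ?_⟩
      rw [hold_andD, hold_guard two_ne_zero]
      refine ⟨⟨h3.2.1, h3.2.2.1, h3.2.2.2.1⟩, key _ r h3.1.le ?_ ?_ (vs_two h3)⟩
      · refine lt_of_le_of_ne h4 ?_
        rintro rfl
        exact h1 ⟨h, hh, h3⟩
      · intro ρ h6 h7
        exact h5 ρ ⟨h6, h7⟩

end Pool.Agent.Lib.MP_7610b6_lc
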