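import Pool.Agent.Lib.MP_7610b6_lc.Comp

/-!
The decision procedure on Gödel numbers.
-/

namespace Pool.Agent.Lib.MP_7610b6_lc

open Pool.Agent.H10

abbrev AB := List (ℤ × List ℤ) × List (ℤ × List ℤ)

/-- Rules computing the normal form (or failure) of a code. -/
def Rule (l : List (ℕ × Option GF)) (j : ℕ × Option GF) : Prop :=
  (∃ x : AB, j = (Nat.pair 0 (Encodable.encode x), some (dvdG x))) ∨
  (∃ m : ℕ, Encodable.decode₂ AB m = none ∧ j = (Nat.pair 0 m, none)) ∨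
  (∃ (m : ℕ) (G : GF), (m, some G) ∈ l ∧ j = (Nat.pair 1 m, some (negD G))) ∨
  (∃ m : ℕ, (m, none) ∈ l ∧ j = (Nat.pair 1 m, none)) ∨
  (∃ (m m' : ℕ) (G G' : GF), (m, some G) ∈ l ∧ (m', some G') ∈ l ∧
    j = (Nat.pair 2 (Nat.pair m m'), some (andD G G'))) ∨
  (∃ m m' : ℕ, (m, none) ∈ l ∧ j = (Nat.pair 2 (Nat.pair m m'), none)) ∨
  (∃ m m' : ℕ, (m', none) ∈ l ∧ j = (Nat.pair 2 (Nat.pair m m'), none)) ∨
  (∃ (m : ℕ) (G : GF), (m, some G) ∈ l ∧ j = (Nat.pair 3 m, some (exG G))) ∨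
  (∃ m : ℕ, (m, none) ∈ l ∧ j = (Nat.pair 3 m, none)) ∨
  (∃ k m : ℕ, j = (Nat.pair (k + 4) m, none))

@[fun_prop] theorem pr_encAB {α : Type} [Primcodable α] {f : α → AB} (hf : Primrec f) :
    Primrec fun a => Encodable.encode (f a) := Primrec.encode.comp hf

@[fun_prop] theorem pr_decAB {α : Type} [Primcodable α] {f : α → ℕ} (hf : Primrec f) :
    Primrec fun a => Encodable.decode₂ AB (f a) := Primrec.decode₂.comp hf

lemma sig_rule : Sig fun x : List (ℕ × Option GF) × (ℕ × Option GF) => Rule x.1 x.2 := by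
  unfold Rule
  fun_prop

def Spec (j : ℕ × Option GF) : Prop :=
  (∀ G, j.2 = some G → ∃ φ : Fm, φ.code = j.1 ∧ G = qe φ) ∧ (j.2 = none → ∀ φ : Fm, φ.code ≠ j.1)

lemma code_inj : ∀ φ ψ : Fm, φ.code = ψ.code → φ = ψ := by
  intro φ
  induction φ with
  | dvd A B =>
    intro ψ h
    cases ψ <;> simp only [Fm.code, Nat.pair_eq_pair] at h
    · have := Encodable.encode_injective h.2
      simp only [Prod.mk.injEq] at this
      rw [this.1, this.2]
    all_goals omega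
  | neg φ ih =>
    intro ψ h
    cases ψ <;> simp only [Fm.code, Nat.pair_eq_pair] at h
    case neg => rw [ih _ h.2]
    all_goals omega
  | conj φ φ' ih ih' =>
    intro ψ h
    cases ψ <;> simp only [Fm.code, Nat.pair_eq_pair] at h
    case conj => rw [ih _ h.2.1, ih' _ h.2.2]
    all_goals omega
  | ex φ ih =>
    intro ψ h
    cases ψ <;> simp only [Fm.code, Nat.pair_eq_pair] at h
    case ex => rw [ih _ h.2]
    all_goals omega

lemma gen_sound {j : ℕ × Option GF} (h : Gen Rule j) : Spec j := by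
  induction h with
  | mk l j _ hR ih =>
    rcases hR with ⟨x, rfl⟩ | ⟨m, h1, rfl⟩ | ⟨m, G, h1, rfl⟩ | ⟨m, h1, rfl⟩ |
      ⟨m, m', G, G', h1, h2, rfl⟩ | ⟨m, m', h1, rfl⟩ | ⟨m, m', h1, rfl⟩ | ⟨m, G, h1, rfl⟩ |
      ⟨m, h1, rfl⟩ | ⟨k, m, rfl⟩
    · refine ⟨fun G hG => ⟨.dvd x.1 x.2, rfl, ?_⟩, by simp⟩
      exact (Option.some.inj hG).symm
    · refine ⟨by simp, fun _ φ h => ?_⟩
      cases φ <;> simp only [Fm.code, Nat.pair_eq_pair] at h
      · rw [← h.2, Encodable.encodek₂] at h1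
        simp at h1
      all_goals omega
    · obtain ⟨φ, h2, rfl⟩ := (ih _ h1).1 G rfl
      refine ⟨fun G hG => ⟨.neg φ, by simp only [Fm.code, h2], ?_⟩, by simp⟩
      exact (Option.some.inj hG).symm
    · refine ⟨by simp, fun _ φ h => ?_⟩
      cases φ <;> simp only [Fm.code, Nat.pair_eq_pair] at h
      case neg => exact (ih _ h1).2 rfl _ h.2
      all_goals omega
    · obtain ⟨φ, h3, rfl⟩ := (ih _ h1).1 G rfl
      obtain ⟨φ', h4, rfl⟩ := (ih _ h2).1 G' rfl
      refine ⟨fun G hG => ⟨.conj φ φ', by simp only [Fm.code, h3, h4], ?_⟩, by simp⟩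
      exact (Option.some.inj hG).symm
    · refine ⟨by simp, fun _ φ h => ?_⟩
      cases φ <;> simp only [Fm.code, Nat.pair_eq_pair] at h
      case conj => exact (ih _ h1).2 rfl _ h.2.1
      all_goals omega
    · refine ⟨by simp, fun _ φ h => ?_⟩
      cases φ <;> simp only [Fm.code, Nat.pair_eq_pair] at h
      case conj => exact (ih _ h1).2 rfl _ h.2.2
      all_goals omega
    · obtain ⟨φ, h2, rfl⟩ := (ih _ h1).1 G rfl
      refine ⟨fun G hG => ⟨.ex φ, by simp only [Fm.code, h2], ?_⟩, by simp⟩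
      exact (Option.some.inj hG).symm
    · refine ⟨by simp, fun _ φ h => ?_⟩
      cases φ <;> simp only [Fm.code, Nat.pair_eq_pair] at h
      case ex => exact (ih _ h1).2 rfl _ h.2
      all_goals omega
    · refine ⟨by simp, fun _ φ h => ?_⟩
      cases φ <;> simp only [Fm.code, Nat.pair_eq_pair] at h <;> omega

lemma lt_pair {a : ℕ} (ha : 0 < a) (b : ℕ) : b < Nat.pair a b :=
  (Nat.right_le_pair 0 b).trans_lt (Nat.pair_lt_pair_left b ha)

lemma gen_total (n : ℕ) : ∃ o, Gen Rule (n, o) := by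
  induction n using Nat.strong_induction_on with
  | _ n ih =>
    obtain ⟨a, b, rfl⟩ : ∃ a b, n = Nat.pair a b := ⟨_, _, (Nat.pair_unpair n).symm⟩
    rcases a with _ | _ | _ | _ | k
    · rcases h : Encodable.decode₂ AB b with _ | x
      · exact ⟨none, Gen.mk [] _ (by simp) (Or.inr (Or.inl ⟨b, h, rfl⟩))⟩
      · have := Encodable.decode₂_eq_some.1 h
        exact ⟨_, Gen.mk [] _ (by simp) (Or.inl ⟨x, by rw [this]⟩)⟩
    · obtain ⟨o, ho⟩ := ih b (lt_pair (by omega) b)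
      rcases o with _ | G
      · exact ⟨none, Gen.mk [(b, none)] _ (by simpa using ho)
          (Or.inr (Or.inr (Or.inr (Or.inl ⟨b, by simp, rfl⟩))))⟩
      · exact ⟨_, Gen.mk [(b, some G)] _ (by simpa using ho)
          (Or.inr (Or.inr (Or.inl ⟨b, G, by simp, rfl⟩)))⟩
    · obtain ⟨m, m', rfl⟩ : ∃ m m', b = Nat.pair m m' := ⟨_, _, (Nat.pair_unpair b).symm⟩
      obtain ⟨o, ho⟩ := ih m ((Nat.left_le_pair m m').trans_lt (lt_pair (by omega) _))
      obtain ⟨o', ho'⟩ := ih m' ((Nat.right_le_pair m m').trans_lt (lt_pair (by omega) _))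
      rcases o with _ | G
      · exact ⟨none, Gen.mk [(m, none)] _ (by simpa using ho)
          (Or.inr (Or.inr (Or.inr (Or.inr (Or.inr (Or.inl ⟨m, m', by simp, rfl⟩))))))⟩
      rcases o' with _ | G'
      · exact ⟨none, Gen.mk [(m', none)] _ (by simpa using ho')
          (Or.inr (Or.inr (Or.inr (Or.inr (Or.inr (Or.inr (Or.inl ⟨m, m', by simp, rfl⟩)))))))⟩
      · exact ⟨_, Gen.mk [(m, some G), (m', some G')] _ (by simpa using ⟨ho, ho'⟩)
          (Or.inr (Or.inr (Or.inr (Or.inr (Or.inl ⟨m, m', G, G', by simp, by simp, rfl⟩)))))⟩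
    · obtain ⟨o, ho⟩ := ih b (lt_pair (by omega) b)
      rcases o with _ | G
      · exact ⟨none, Gen.mk [(b, none)] _ (by simpa using ho) (Or.inr (Or.inr (Or.inr (Or.inr
          (Or.inr (Or.inr (Or.inr (Or.inr (Or.inl ⟨b, by simp, rfl⟩)))))))))⟩
      · exact ⟨_, Gen.mk [(b, some G)] _ (by simpa using ho) (Or.inr (Or.inr (Or.inr (Or.inr
          (Or.inr (Or.inr (Or.inr (Or.inl ⟨b, G, by simp, rfl⟩))))))))⟩
    · exact ⟨none, Gen.mk [] _ (by simp) (Or.inr (Or.inr (Or.inr (Or.inr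
          (Or.inr (Or.inr (Or.inr (Or.inr (Or.inr ⟨k, b, rfl⟩)))))))))⟩

theorem decidable_theory :
    ComputablePred fun n : ℕ => ∃ φ : Fm, φ.code = n ∧ φ.Sat (fun _ => 0) := by
  have hG : Sig (Gen Rule) := Sig.gen sig_rule
  apply computablePred_of_sig
  · have : Sig fun n : ℕ => ∃ G : GF, Gen Rule (n, some G) ∧ evalG G = true := by fun_prop
    refine this.of_eq fun n => ?_
    constructor
    · rintro ⟨G, h1, h2⟩
      obtain ⟨φ, h3, rfl⟩ := (gen_sound h1).1 G rfl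
      exact ⟨φ, h3, (sat_iff_eval φ).2 h2⟩
    · rintro ⟨φ, h1, h2⟩
      obtain ⟨_ | G, ho⟩ := gen_total n
      · exact absurd h1 ((gen_sound ho).2 rfl φ)
      · obtain ⟨ψ, h3, rfl⟩ := (gen_sound ho).1 G rfl
        rw [code_inj φ ψ (h1.trans h3.symm)] at h2
        exact ⟨_, ho, (sat_iff_eval ψ).1 h2⟩
  · have : Sig fun n : ℕ => Gen Rule (n, none) ∨
        ∃ G : GF, Gen Rule (n, some G) ∧ evalG G = false := by fun_prop
    refine this.of_eq fun n => ?_
    constructor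
    · rintro (h | ⟨G, h1, h2⟩) ⟨φ, h3, h4⟩
      · exact (gen_sound h).2 rfl φ h3
      · obtain ⟨ψ, h5, rfl⟩ := (gen_sound h1).1 G rfl
        rw [code_inj φ ψ (h3.trans h5.symm), sat_iff_eval, h2] at h4
        exact Bool.false_ne_true h4
    · intro h
      obtain ⟨_ | G, ho⟩ := gen_total n
      · exact Or.inl ho
      · refine Or.inr ⟨G, ho, ?_⟩
        obtain ⟨ψ, h3, rfl⟩ := (gen_sound ho).1 G rfl
        by_contra h4
        exact h ⟨ψ, h3, (sat_iff_eval ψ).2 (by simpa using h4)⟩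

end Pool.Agent.Lib.MP_7610b6_lc
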