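import Mathlib

/-!
Nonarchimedean places of the field of algebraic numbers, given by embeddings into the algebraic
closures of the `p`-adic fields.
-/

namespace Pool.Agent.Lib.MP_7610b6_lc

open Polynomial

abbrev Qb := AlgebraicClosure ℚ

instance instAlgQb : Algebra.IsAlgebraic ℚ Qb := AlgebraicClosure.isAlgebraic ℚ

instance instClQb : IsAlgClosure ℚ Qb := ⟨inferInstance, inferInstance⟩

structure Place where
  p : ℕ
  hp : p.Prime
  emb : haveI : Fact p.Prime := ⟨hp⟩; Qb →+* PadicAlgCl p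

namespace Place

noncomputable def N (w : Place) : AbsoluteValue Qb ℝ :=
  haveI : Fact w.p.Prime := ⟨w.hp⟩
  (NormedField.toAbsoluteValue (PadicAlgCl w.p)).comp w.emb.injective

lemma N_apply (w : Place) (x : Qb) :
    w.N x = haveI : Fact w.p.Prime := ⟨w.hp⟩; ‖w.emb x‖ := rfl

variable (w : Place)

lemma add_le (x y : Qb) : w.N (x + y) ≤ max (w.N x) (w.N y) := by
  have : Fact w.p.Prime := ⟨w.hp⟩
  simp only [N_apply, map_add]
  exact PadicAlgCl.isNonarchimedean w.p _ _

lemma na : IsNonarchimedean w.N := w.add_le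

lemma sub_le (x y : Qb) : w.N (x - y) ≤ max (w.N x) (w.N y) := by
  have := w.add_le x (-y)
  rwa [← sub_eq_add_neg, w.N.map_neg] at this

lemma add_eq_left {x y : Qb} (h : w.N y < w.N x) : w.N (x + y) = w.N x := by
  apply le_antisymm ((w.add_le x y).trans (max_le le_rfl h.le))
  have h1 := w.sub_le (x + y) y
  rw [add_sub_cancel_right] at h1
  rcases le_max_iff.1 h1 with h2 | h2
  · exact h2
  · exact absurd h2 (not_le.2 h)

lemma add_eq_right {x y : Qb} (h : w.N x < w.N y) : w.N (x + y) = w.N y := by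
  rw [add_comm]; exact w.add_eq_left h

lemma sub_eq_left {x y : Qb} (h : w.N y < w.N x) : w.N (x - y) = w.N x := by
  rw [sub_eq_add_neg]; apply w.add_eq_left; rwa [w.N.map_neg]

lemma sub_eq_right {x y : Qb} (h : w.N x < w.N y) : w.N (x - y) = w.N y := by
  rw [sub_eq_add_neg, w.add_eq_right (by rwa [w.N.map_neg]), w.N.map_neg]

lemma add_le_of {x y : Qb} {r : ℝ} (hx : w.N x ≤ r) (hy : w.N y ≤ r) : w.N (x + y) ≤ r :=
  (w.add_le x y).trans (max_le hx hy)

lemma sub_le_of {x y : Qb} {r : ℝ} (hx : w.N x ≤ r) (hy : w.N y ≤ r) : w.N (x - y) ≤ r :=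
  (w.sub_le x y).trans (max_le hx hy)

lemma add_lt_of {x y : Qb} {r : ℝ} (hx : w.N x < r) (hy : w.N y < r) : w.N (x + y) < r :=
  (w.add_le x y).trans_lt (max_lt hx hy)

lemma sub_lt_of {x y : Qb} {r : ℝ} (hx : w.N x < r) (hy : w.N y < r) : w.N (x - y) < r :=
  (w.sub_le x y).trans_lt (max_lt hx hy)

lemma mul_le_one {x y : Qb} (hx : w.N x ≤ 1) (hy : w.N y ≤ 1) : w.N (x * y) ≤ 1 := by
  rw [map_mul]; exact mul_le_one₀ hx (w.N.nonneg _) hy

lemma sum_le {ι : Type*} (s : Finset ι) (f : ι → Qb) {r : ℝ} (hr : 0 ≤ r)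
    (h : ∀ i ∈ s, w.N (f i) ≤ r) : w.N (∑ i ∈ s, f i) ≤ r := by
  classical
  induction s using Finset.induction_on with
  | empty => simpa using hr
  | insert a s ha ih =>
    rw [Finset.sum_insert ha]
    exact w.add_le_of (h a (by simp)) (ih fun i hi => h i (by simp [hi]))

lemma sum_lt {ι : Type*} (s : Finset ι) (f : ι → Qb) {r : ℝ} (hr : 0 < r)
    (h : ∀ i ∈ s, w.N (f i) < r) : w.N (∑ i ∈ s, f i) < r := by
  classical
  induction s using Finset.induction_on with
  | empty => simpa using hr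
  | insert a s ha ih =>
    rw [Finset.sum_insert ha]
    exact w.add_lt_of (h a (by simp)) (ih fun i hi => h i (by simp [hi]))

lemma N_rat (q : ℚ) : w.N (q : Qb) = (padicNorm w.p q : ℝ) := by
  have : Fact w.p.Prime := ⟨w.hp⟩
  rw [N_apply, map_ratCast, ← map_ratCast (algebraMap ℚ_[w.p] (PadicAlgCl w.p)),
    PadicAlgCl.norm_extends, Padic.eq_padicNorm]

lemma N_int (n : ℤ) : w.N (n : Qb) = (padicNorm w.p n : ℝ) := by
  rw [← w.N_rat]; simp

lemma N_nat (n : ℕ) : w.N (n : Qb) = (padicNorm w.p n : ℝ) := by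
  rw [← w.N_rat]; simp

lemma int_le_one (n : ℤ) : w.N (n : Qb) ≤ 1 := w.na.apply_intCast_le_one

lemma nat_le_one (n : ℕ) : w.N (n : Qb) ≤ 1 := by simpa using w.int_le_one n

lemma N_p : w.N (w.p : Qb) = (w.p : ℝ)⁻¹ := by
  have : Fact w.p.Prime := ⟨w.hp⟩
  rw [w.N_nat, padicNorm.padicNorm_p_of_prime]; simp

lemma one_lt_p : (1 : ℝ) < w.p := by exact_mod_cast w.hp.one_lt

lemma N_p_lt_one : w.N (w.p : Qb) < 1 := by
  rw [w.N_p]; exact inv_lt_one_of_one_lt₀ w.one_lt_p

lemma N_p_pos : 0 < w.N (w.p : Qb) := by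
  rw [w.N_p]; have := w.one_lt_p; positivity

lemma N_int_eq_one {n : ℤ} (h : ¬ (w.p : ℤ) ∣ n) : w.N (n : Qb) = 1 := by
  have : Fact w.p.Prime := ⟨w.hp⟩
  rw [w.N_int, (padicNorm.int_eq_one_iff n).2 h]; simp

lemma N_nat_eq_one {n : ℕ} (h : ¬ w.p ∣ n) : w.N (n : Qb) = 1 := by
  have := w.N_int_eq_one (n := n) (by exact_mod_cast h)
  simpa using this

lemma N_int_le_of_dvd {n : ℤ} (h : (w.p : ℤ) ∣ n) : w.N (n : Qb) ≤ w.N (w.p : Qb) := by
  obtain ⟨m, rfl⟩ := h
  push_cast
  rw [map_mul]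
  exact mul_le_of_le_one_right (w.N.nonneg _) (w.int_le_one m)

lemma dvd_of_N_lt_one {n : ℤ} (h : w.N (n : Qb) < 1) : (w.p : ℤ) ∣ n := by
  by_contra h'
  rw [w.N_int_eq_one h'] at h
  exact lt_irrefl _ h

lemma of_integral {x : Qb} (hx : IsIntegral ℤ x) : w.N x ≤ 1 := by
  obtain ⟨f, hf, h0⟩ := hx
  by_contra h
  push Not at h
  rw [eval₂_eq_sum_range, Finset.sum_range_succ, hf.coeff_natDegree] at h0
  simp only [map_one, one_mul] at h0
  have h1 : w.N (∑ i ∈ Finset.range f.natDegree, algebraMap ℤ Qb (f.coeff i) * x ^ i)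
      < w.N (x ^ f.natDegree) := by
    apply w.sum_lt _ _ (by rw [map_pow]; positivity)
    intro i hi
    rw [map_mul, map_pow, map_pow]
    calc _ ≤ 1 * w.N x ^ i := by
          gcongr
          exact w.int_le_one _
      _ < _ := by
          rw [one_mul]; exact pow_lt_pow_right₀ h (Finset.mem_range.1 hi)
  have h2 := w.add_eq_right h1
  rw [h0, map_zero, map_pow] at h2
  have : 0 < w.N x ^ f.natDegree := by positivity
  linarith

/-- The place obtained by composing with a field automorphism. -/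
noncomputable def act (σ : Qb →+* Qb) : Place :=
  haveI : Fact w.p.Prime := ⟨w.hp⟩
  ⟨w.p, w.hp, w.emb.comp σ⟩

@[simp] lemma act_p (σ : Qb →+* Qb) : (w.act σ).p = w.p := rfl

lemma act_N (σ : Qb →+* Qb) (x : Qb) : (w.act σ).N x = w.N (σ x) := rfl

/-- The closed unit ball as a subring. -/
def ball : Subring Qb where
  carrier := {x | w.N x ≤ 1}
  mul_mem' := fun ha hb => w.mul_le_one ha hb
  one_mem' := by simp
  add_mem' := fun ha hb => w.add_le_of ha hb
  zero_mem' := by simp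
  neg_mem' := fun ha => by simpa using ha

end Place

lemma exists_place {p : ℕ} (hp : p.Prime) : ∃ w : Place, w.p = p := by
  have : Fact p.Prime := ⟨hp⟩
  exact ⟨⟨p, hp, (IsAlgClosed.lift : Qb →ₐ[ℚ] PadicAlgCl p).toRingHom⟩, rfl⟩

instance : Nonempty Place := by
  obtain ⟨w, -⟩ := exists_place Nat.prime_two
  exact ⟨w⟩

lemma coeff_mem_of_roots (V : Subring Qb) (s : Multiset Qb) (hs : ∀ r ∈ s, r ∈ V) (i : ℕ) :
    (s.map fun r => X - C r).prod.coeff i ∈ V := by
  induction s using Multiset.induction_on generalizing i with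
  | empty =>
    simp only [Multiset.map_zero, Multiset.prod_zero, coeff_one]
    split_ifs
    · exact V.one_mem
    · exact V.zero_mem
  | cons a s ih =>
    have ih' := ih (fun r hr => hs r (Multiset.mem_cons_of_mem hr))
    rw [Multiset.map_cons, Multiset.prod_cons, sub_mul, coeff_sub, coeff_C_mul]
    refine V.sub_mem ?_ (V.mul_mem (hs a (Multiset.mem_cons_self _ _)) (ih' i))
    cases i with
    | zero => simp
    | succ i => rw [coeff_X_mul]; exact ih' i

lemma rat_int_of_le_one {q : ℚ} (h : ∀ p : ℕ, p.Prime → padicNorm p q ≤ 1) : ∃ n : ℤ, q = n := by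
  by_cases hd : q.den = 1
  · exact ⟨q.num, (Rat.den_eq_one_iff q).1 hd |>.symm⟩
  exfalso
  obtain ⟨p, hp, hpd⟩ := Nat.exists_prime_and_dvd hd
  have : Fact p.Prime := ⟨hp⟩
  have h1 := h p hp
  have hn : ¬ (p : ℤ) ∣ q.num := by
    intro h2
    have h3 : p ∣ q.num.natAbs := Int.natCast_dvd.1 h2
    have := Nat.dvd_gcd h3 hpd
    rw [q.reduced] at this
    exact hp.one_lt.ne' (Nat.dvd_one.1 this)
  have h4 : padicNorm p (q.num : ℚ) = 1 := (padicNorm.int_eq_one_iff _).2 hn
  have h5 : padicNorm p ((q.den : ℤ) : ℚ) < 1 :=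
    (padicNorm.int_lt_one_iff _).2 (by exact_mod_cast hpd)
  have h6 : (q.num : ℚ) = q * ((q.den : ℤ) : ℚ) := by
    push_cast; exact (Rat.mul_den_eq_num q).symm
  rw [h6, padicNorm.mul] at h4
  have h7 := padicNorm.nonneg (p := p) ((q.den : ℤ) : ℚ)
  nlinarith

lemma integral_of_le_one {x : Qb} (h : ∀ w : Place, w.N x ≤ 1) : IsIntegral ℤ x := by
  have hx : IsIntegral ℚ x := Algebra.IsIntegral.isIntegral x
  set f := minpoly ℚ x with hf
  have hm : f.Monic := minpoly.monic hx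
  have hc : ∀ i, ∃ n : ℤ, f.coeff i = n := by
    intro i
    apply rat_int_of_le_one
    intro p hp
    obtain ⟨w, rfl⟩ := exists_place hp
    have hs : (f.map (algebraMap ℚ Qb)).Splits := IsAlgClosed.splits _
    have h1 := hs.eq_prod_roots_of_monic (hm.map _)
    have h2 := coeff_mem_of_roots w.ball (f.map (algebraMap ℚ Qb)).roots (by
      intro r hr
      have hr' : aeval r f = 0 := by
        have := (mem_roots (hm.map _).ne_zero).1 hr
        rwa [IsRoot, eval_map_algebraMap] at this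
      obtain ⟨σ, hσ⟩ := minpoly.exists_algEquiv_of_root' hx.isAlgebraic hr'
      have := h (w.act σ.toRingEquiv.toRingHom)
      rw [Place.act_N] at this
      change w.N r ≤ 1
      rw [← hσ]; exact this) i
    rw [← h1, coeff_map] at h2
    change w.N _ ≤ 1 at h2
    rw [eq_ratCast, w.N_rat] at h2
    exact_mod_cast h2
  have hl : f ∈ lifts (algebraMap ℤ ℚ) := by
    rw [lifts_iff_coeff_lifts]
    intro i
    obtain ⟨n, hn⟩ := hc i
    exact ⟨n, by simp [hn]⟩
  obtain ⟨g, hg, -, hgm⟩ := lifts_and_degree_eq_and_monic hl hm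
  refine ⟨g, hgm, ?_⟩
  rw [← aeval_def, ← aeval_map_algebraMap ℚ, hg]
  exact minpoly.aeval ℚ x

lemma exists_den (x : Qb) : ∃ D : ℤ, D ≠ 0 ∧ IsIntegral ℤ ((D : Qb) * x) := by
  have h1 : IsAlgebraic ℤ x :=
    (IsFractionRing.isAlgebraic_iff ℤ ℚ Qb).2 (Algebra.IsAlgebraic.isAlgebraic x)
  obtain ⟨D, hD, h⟩ := h1.exists_integral_multiple
  exact ⟨D, hD, by simpa using h⟩

lemma exists_bound_le (x : Qb) : ∃ B : ℕ, ∀ w : Place, B < w.p → w.N x ≤ 1 := by
  obtain ⟨D, hD, h⟩ := exists_den x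
  refine ⟨D.natAbs, fun w hw => ?_⟩
  have h1 := w.of_integral h
  rw [map_mul, w.N_int_eq_one, one_mul] at h1
  · exact h1
  · intro h2
    have := Nat.le_of_dvd (Int.natAbs_pos.2 hD) (Int.natCast_dvd.1 h2)
    omega

lemma exists_bound_eq {x : Qb} (hx : x ≠ 0) : ∃ B : ℕ, ∀ w : Place, B < w.p → w.N x = 1 := by
  obtain ⟨B, hB⟩ := exists_bound_le x
  obtain ⟨B', hB'⟩ := exists_bound_le x⁻¹
  refine ⟨max B B', fun w hw => le_antisymm (hB w (by omega)) ?_⟩
  have h1 := hB' w (by omega)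
  rw [map_inv₀] at h1
  exact (inv_le_one₀ (w.N.pos hx)).1 h1

/-- Every absolute value is, up to a power, the absolute value of a rational number. -/
lemma Place.exists_pow_eq_rat (w : Place) {x : Qb} (hx : x ≠ 0) :
    ∃ k : ℕ, k ≠ 0 ∧ ∃ c : ℚ, c ≠ 0 ∧ w.N x ^ k = w.N (c : Qb) := by
  have hi : IsIntegral ℚ x := Algebra.IsIntegral.isIntegral x
  set f := minpoly ℚ x with hf
  have h0 : aeval x f = 0 := minpoly.aeval ℚ x
  have hne : f ≠ 0 := minpoly.ne_zero hi
  by_contra hcon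
  push Not at hcon
  have key : ∀ i ∈ f.support, ∀ j ∈ f.support, i < j →
      w.N ((f.coeff i : Qb) * x ^ i) ≠ w.N ((f.coeff j : Qb) * x ^ j) := by
    intro i hi j hj hij he
    have hci : f.coeff i ≠ 0 := mem_support_iff.1 hi
    have hcj : f.coeff j ≠ 0 := mem_support_iff.1 hj
    apply hcon (j - i) (by omega) (f.coeff i / f.coeff j) (div_ne_zero hci hcj)
    rw [map_mul, map_mul, map_pow, map_pow] at he
    have hxp : 0 < w.N x := w.N.pos hx
    have hjp : 0 < w.N (f.coeff j : Qb) := w.N.pos (by exact_mod_cast hcj)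
    push_cast
    rw [map_div₀, eq_div_iff hjp.ne']
    obtain ⟨d, rfl⟩ := Nat.exists_eq_add_of_lt hij
    have : i + d + 1 - i = d + 1 := by omega
    rw [this]
    rw [add_assoc, pow_add] at he
    have hxi : 0 < w.N x ^ i := by positivity
    apply mul_right_cancel₀ hxi.ne'
    rw [he]; ring_nf
  obtain ⟨m, hm, hmax⟩ := f.support.exists_max_image (fun i => w.N ((f.coeff i : Qb) * x ^ i))
    (support_nonempty.2 hne)
  rw [aeval_def, eval₂_eq_sum, sum_def, ← Finset.add_sum_erase _ _ hm] at h0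
  simp only [eq_ratCast] at h0
  have hpos : 0 < w.N ((f.coeff m : Qb) * x ^ m) :=
    w.N.pos (mul_ne_zero (by exact_mod_cast mem_support_iff.1 hm) (pow_ne_zero _ hx))
  have h1 := w.add_eq_left (w.sum_lt (f.support.erase m) (fun i => (f.coeff i : Qb) * x ^ i) hpos
    (by
      intro i hi
      obtain ⟨h1, h2⟩ := Finset.mem_erase.1 hi
      refine lt_of_le_of_ne (hmax i h2) ?_
      rcases lt_or_gt_of_ne h1 with h | h
      · exact key i h2 m hm h
      · exact (key m hm i h2 h).symm))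
  rw [h0, map_zero] at h1
  linarith

end Pool.Agent.Lib.MP_7610b6_lc
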