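import Pool.Agent.Lib.MP_7610b6_lc.Local

/-!
Correctness of the quantifier elimination.
-/

namespace Pool.Agent.Lib.MP_7610b6_lc

variable {w : Place} {v : ℕ → Qb}

lemma prod_map_scale {γ : Type*} (A : List γ) (f g : γ → ℝ) (μ : ℝ) (h : ∀ F ∈ A, f F * μ = g F) :
    (A.map g).prod = (A.map f).prod * μ ^ A.length := by
  induction A with
  | nil => simp
  | cons F A ih =>
    simp only [List.map_cons, List.prod_cons, List.length_cons]
    rw [ih fun G hG => h G (List.mem_cons_of_mem _ hG), ← h F List.mem_cons_self]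
    ring

lemma scale_iff {γ : Type*} (A B : List γ) (f g : γ → ℝ) {μ : ℝ} (hμ : 0 < μ)
    (h : ∀ F ∈ A ++ B, f F * μ = g F) :
    (A.map g).prod * μ ^ B.length ≤ (B.map g).prod * μ ^ A.length ↔
      (A.map f).prod ≤ (B.map f).prod := by
  rw [prod_map_scale A f g μ fun F hF => h F (List.mem_append_left _ hF),
    prod_map_scale B f g μ fun F hF => h F (List.mem_append_right _ hF), mul_assoc, mul_assoc,
    mul_comm (μ ^ B.length), mul_le_mul_iff_left₀ (by positivity)]

lemma asem_subC (hv : v 0 = 1) {J : Form} (hJ : cf J ≠ 0) {x : Qb}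
    (hx : cf J * x + fval v (restF J) = 0) (a : Atom) :
    asem w v (subC J a) ↔ asem w (ins x v) a := by
  have hJ' : (cf J : Qb) ≠ 0 := by exact_mod_cast hJ
  have := scale_iff a.1 a.2 (fun F => w.N (fval (ins x v) F)) (fun F => w.N (fval v (crossF J F)))
    (w.N.pos hJ') (fun F _ => by
      rw [← map_mul, fval_ins, fval_crossF]
      congr 1
      linear_combination (cf F : Qb) * hx)
  simp only [asem, subC, pN_append, pN_const, fval_coefF hv]
  simp only [pN, List.map_map]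
  exact this

lemma hold_subL (hv : v 0 = 1) {J : Form} (hJ : cf J ≠ 0) {x : Qb}
    (hx : cf J * x + fval v (restF J) = 0) (ψ : LF) :
    hold (asem w v) (subL J ψ) ↔ hold (asem w (ins x v)) ψ := by
  rw [subL, hold_bindD]
  exact hold_congr fun a _ => by rw [hold_atomD, asem_subC hv hJ hx]

lemma choices_spec (hv : v 0 = 1) {ρ : ℝ} (hρ : 0 ≤ ρ) (J : Form) (A init : List Form) :
    (∀ c ∈ choices J A init, mval w v ρ c ≤
      (A.map fun F => max (w.N (cf F) * ρ) (w.N (fval v (crossF J F)))).prod * pN w v init) ∧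
    ∃ c ∈ choices J A init, mval w v ρ c =
      (A.map fun F => max (w.N (cf F) * ρ) (w.N (fval v (crossF J F)))).prod * pN w v init := by
  induction A with
  | nil => simp [choices, mval]
  | cons F A ih =>
    have e : choices J (F :: A) init = (choices J A init).flatMap
        fun c => [(c.1 + 1, coefF F :: c.2), (c.1, crossF J F :: c.2)] := rfl
    have e1 : ∀ c : Mono, mval w v ρ (c.1 + 1, coefF F :: c.2)
        = (w.N (cf F) * ρ) * mval w v ρ c := fun c => by
      simp only [mval, pN_cons, fval_coefF hv]; ring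
    have e2 : ∀ c : Mono, mval w v ρ (c.1, crossF J F :: c.2)
        = w.N (fval v (crossF J F)) * mval w v ρ c := fun c => by
      simp only [mval, pN_cons]; ring
    have hm : ∀ c : Mono, 0 ≤ mval w v ρ c := fun c =>
      mul_nonneg (pow_nonneg hρ _) (pN_nonneg _ _ _)
    obtain ⟨ih1, c, hc, ih2⟩ := ih
    rw [e, List.map_cons, List.prod_cons, mul_assoc]
    have h0 : 0 ≤ max (w.N (cf F) * ρ) (w.N (fval v (crossF J F))) :=
      le_max_of_le_right (w.N.nonneg _)
    constructor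
    · intro d hd
      simp only [List.mem_flatMap, List.mem_cons, List.not_mem_nil, or_false] at hd
      obtain ⟨d', hd', rfl | rfl⟩ := hd
      · rw [e1]; exact mul_le_mul (le_max_left _ _) (ih1 d' hd') (hm _) h0
      · rw [e2]; exact mul_le_mul (le_max_right _ _) (ih1 d' hd') (hm _) h0
    · rcases max_choice (w.N (cf F) * ρ) (w.N (fval v (crossF J F))) with h | h
      · exact ⟨_, List.mem_flatMap.2 ⟨c, hc, List.mem_cons_self⟩, by rw [e1, h, ih2]⟩
      · exact ⟨_, List.mem_flatMap.2 ⟨c, hc, List.mem_cons_of_mem _ List.mem_cons_self⟩,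
          by rw [e2, h, ih2]⟩

lemma hold_extD (hv : v 0 = 1) {ρ : ℝ} (hρ : 0 ≤ ρ) {J : Form} (hJ : cf J ≠ 0) {y : Qb} (a : Atom)
    (h : ∀ F ∈ a.1 ++ a.2, w.N (fval (ins y v) F) * w.N (cf J) =
      max (w.N (cf F) * ρ) (w.N (fval v (crossF J F)))) :
    hold (esem w v ρ) (extD J a) ↔ asem w (ins y v) a := by
  have hJ' : (cf J : Qb) ≠ 0 := by exact_mod_cast hJ
  obtain ⟨a1, c, hc, a2⟩ := choices_spec (w := w) hv hρ J a.1 (a.2.map fun _ => coefF J)
  obtain ⟨b1, d, hd, b2⟩ := choices_spec (w := w) hv hρ J a.2 (a.1.map fun _ => coefF J)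
  rw [pN_const, fval_coefF hv] at a1 a2 b1 b2
  have := scale_iff a.1 a.2 _ _ (w.N.pos hJ') h
  unfold asem pN
  rw [← this, extD, hold_allD]
  simp only [List.mem_map, forall_exists_index, and_imp, forall_apply_eq_imp_iff₂, hold_anyD,
    exists_exists_and_eq_and, hold_atomD, esem]
  constructor
  · intro h1
    obtain ⟨d', hd', h2⟩ := h1 c hc
    exact a2 ▸ h2.trans (b1 d' hd')
  · intro h1 c' hc'
    exact ⟨d, hd, b2 ▸ (a1 c' hc').trans h1⟩

/-- The zero of a form in the eliminated variable. -/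
noncomputable def ctr (v : ℕ → Qb) (F : Form) : Qb := - fval v (restF F) / cf F

noncomputable def ctrs (v : ℕ → Qb) (Λ : List Form) : List Qb :=
  (Λ.filter fun F => decide (cf F ≠ 0)).map (ctr v)

lemma mem_ctrs {Λ : List Form} {z : Qb} : z ∈ ctrs v Λ ↔ ∃ F ∈ Λ, cf F ≠ 0 ∧ ctr v F = z := by
  simp [ctrs, and_assoc]

lemma rest_eq {F : Form} (hF : cf F ≠ 0) : fval v (restF F) = - (cf F * ctr v F) := by
  have : (cf F : Qb) ≠ 0 := by exact_mod_cast hF
  rw [ctr]; field_simp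

lemma fval_ins_ctr {F : Form} (hF : cf F ≠ 0) (y : Qb) :
    fval (ins y v) F = cf F * (y - ctr v F) := by
  rw [fval_ins, rest_eq hF]; ring

lemma cf_varX : cf varX = 1 := by simp [cf, varX, coefF, eqb, ival]

lemma fval_varX (y : Qb) : fval (ins y v) varX = y := by simp [fval, varX, ins]

lemma ext_hyp {Λ : List Form} {J : Form} (hJ : cf J ≠ 0) {y : Qb} {δ : ℝ}
    (h : ∀ z ∈ ctrs v Λ, w.N (y - z) = max δ (w.N (ctr v J - z))) {F : Form} (hF : F ∈ Λ) :
    w.N (fval (ins y v) F) * w.N (cf J) =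
      max (w.N (cf F) * (w.N (cf J) * δ)) (w.N (fval v (crossF J F))) := by
  by_cases h0 : cf F = 0
  · rw [fval_ins, fval_crossF, h0]
    simp [mul_comm, mul_nonneg (w.N.nonneg _) (w.N.nonneg _)]
  · rw [fval_ins_ctr h0, fval_crossF, rest_eq h0, rest_eq hJ, map_mul,
      h _ (mem_ctrs.2 ⟨F, hF, h0, rfl⟩)]
    have : (cf J : Qb) * -(cf F * ctr v F) - cf F * -(cf J * ctr v J)
        = cf F * (cf J * (ctr v J - ctr v F)) := by ring
    rw [this, map_mul, map_mul, ← mul_max_of_nonneg _ _ (w.N.nonneg _),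
      ← mul_max_of_nonneg _ _ (w.N.nonneg _)]
    ring

lemma hold_nzL (hv : v 0 = 1) (J : Form) : hold (asem w v) (nzL J) ↔ cf J ≠ 0 := by
  simp [nzL, fval_coefF hv]

lemma mem_forms {ψ : LF} {a : Atom} (ha : a ∈ atoms ψ) {F : Form} (hF : F ∈ a.1 ++ a.2) :
    F ∈ forms ψ := List.mem_flatMap.2 ⟨a, ha, hF⟩

lemma radCl_top : RadCl ⊤ := fun _ _ _ _ => IntermediateField.mem_top

theorem loc_iff (hv : v 0 = 1) (ψ : LF) {Λ : List Form} (hΛ : ∀ F ∈ varX :: forms ψ, F ∈ Λ) :
    hold (asem w v) (loc ψ) ↔ ∃ y, y ∉ ctrs v Λ ∧ hold (asem w (ins y v)) ψ := by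
  rw [loc, hold_anyD]
  simp only [List.mem_map, exists_exists_and_eq_and, hold_andD, hold_nzL hv, elimR_iff,
    hold_bindD]
  constructor
  · rintro ⟨J, -, hJ, x, hx, h⟩
    have hJ' : (cf J : Qb) ≠ 0 := by exact_mod_cast hJ
    obtain ⟨y, -, hy⟩ := generic_point radCl_top (z₀ := ctr v J) (d := x / cf J)
      IntermediateField.mem_top IntermediateField.mem_top (div_ne_zero hx hJ') (ctrs v Λ)
      fun _ _ => IntermediateField.mem_top
    refine ⟨y, fun h1 => ?_, (hold_congr fun a ha => ?_).1 h⟩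
    · have h2 := hy y h1 w
      rw [sub_self, map_zero] at h2
      have h3 := w.N.pos (div_ne_zero hx hJ')
      linarith [le_max_left (w.N (x / cf J)) (w.N (ctr v J - y))]
    · refine hold_extD hv (w.N.nonneg _) hJ a fun F hF => ?_
      rw [ext_hyp hJ (fun z hz => hy z hz w) (hΛ F (List.mem_cons_of_mem _ (mem_forms ha hF))),
        ← map_mul w.N (cf J : Qb), mul_div_cancel₀ _ hJ']
  · rintro ⟨y, hy, h⟩
    obtain ⟨z₀, h0, h1⟩ := w.nearest y (Z := ctrs v (varX :: forms ψ)) (List.ne_nil_of_mem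
      (mem_ctrs.2 ⟨varX, List.mem_cons_self, by simp [cf_varX], rfl⟩))
    obtain ⟨J, hJm, hJ, rfl⟩ := mem_ctrs.1 h0
    have hJ' : (cf J : Qb) ≠ 0 := by exact_mod_cast hJ
    have hne : y - ctr v J ≠ 0 := by
      intro h2
      exact hy (mem_ctrs.2 ⟨J, hΛ J hJm, hJ, (sub_eq_zero.1 h2).symm⟩)
    refine ⟨J, hJm, hJ, cf J * (y - ctr v J), mul_ne_zero hJ' hne,
      (hold_congr fun a ha => ?_).2 h⟩
    refine hold_extD hv (w.N.nonneg _) hJ a fun F hF => ?_
    rw [ext_hyp hJ h1 (List.mem_cons_of_mem _ (mem_forms ha hF)), map_mul]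

/-- The form vanishes identically in the eliminated variable. -/
def ZF (v : ℕ → Qb) (F : Form) : Prop := cf F = 0 ∧ fval v (restF F) = 0

lemma hold_zeroF (hv : v 0 = 1) (F : Form) : hold (asem w v) (zeroF F) ↔ ZF v F := by
  simp [zeroF, ZF, fval_coefF hv]

lemma pN_gen {u : ℕ → Qb} (A : List Form) (p : Form → Prop)
    (h : ∀ F ∈ A, (p F ∧ w.N (fval u F) = 0) ∨ (¬ p F ∧ w.N (fval u F) = 1)) :
    ((∃ F ∈ A, p F) ∧ pN w u A = 0) ∨ ((¬ ∃ F ∈ A, p F) ∧ pN w u A = 1) := by
  induction A with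
  | nil => simp
  | cons F A ih =>
    rw [pN_cons]
    rcases h F List.mem_cons_self with ⟨h1, h2⟩ | ⟨h1, h2⟩
    · exact Or.inl ⟨⟨F, List.mem_cons_self, h1⟩, by rw [h2, zero_mul]⟩
    · rcases ih fun G hG => h G (List.mem_cons_of_mem _ hG) with ⟨⟨G, hG, h3⟩, h4⟩ | ⟨h3, h4⟩
      · exact Or.inl ⟨⟨G, List.mem_cons_of_mem _ hG, h3⟩, by rw [h4, mul_zero]⟩
      · refine Or.inr ⟨?_, by rw [h2, h4, one_mul]⟩
        rintro ⟨G, hG, h5⟩
        rcases List.mem_cons.1 hG with rfl | hG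
        · exact h1 h5
        · exact h3 ⟨G, hG, h5⟩

lemma hold_genL (hv : v 0 = 1) (w' : Place) (ψ : LF) {y : Qb}
    (h : ∀ F ∈ forms ψ, (ZF v F ∧ w.N (fval (ins y v) F) = 0) ∨
      (¬ ZF v F ∧ w.N (fval (ins y v) F) = 1)) :
    hold (asem w' v) (genL ψ) ↔ hold (asem w (ins y v)) ψ := by
  rw [genL, hold_bindD]
  refine hold_congr fun a ha => ?_
  simp only [genA, hold_append, hold_negD, hold_anyD, List.mem_map, exists_exists_and_eq_and,
    hold_zeroF hv, asem]
  rcases pN_gen a.1 (ZF v) fun F hF => h F (mem_forms ha (List.mem_append_left _ hF))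
    with ⟨h1, h2⟩ | ⟨h1, h2⟩ <;>
  rcases pN_gen a.2 (ZF v) fun F hF => h F (mem_forms ha (List.mem_append_right _ hF))
    with ⟨h3, h4⟩ | ⟨h3, h4⟩ <;> rw [h2, h4]
  · simp [h1]
  · simp [h1]
  · simp only [h1, h3, not_true, or_self, false_iff, not_le]; norm_num
  · simp only [h3, not_false_iff, or_true, le_refl]

def lsem (v : ℕ → Qb) (ψ : LF) : Prop := ∃ w : Place, hold (asem w v) ψ

def gsem (v : ℕ → Qb) (G : GF) : Prop := hold (lsem v) G

lemma mem_posL {C : List (Bool × LF)} {ψ : LF} : ψ ∈ posL C ↔ (true, ψ) ∈ C := by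
  simp only [posL, List.mem_flatMap]
  constructor
  · rintro ⟨⟨b, φ⟩, h1, h2⟩
    cases b
    · simp at h2
    · simp only [cond_true, List.mem_singleton] at h2
      rwa [h2]
  · intro h; exact ⟨_, h, by simp⟩

lemma mem_negL {C : List (Bool × LF)} {ψ : LF} : ψ ∈ negL C ↔ (false, ψ) ∈ C := by
  simp only [negL, List.mem_flatMap]
  constructor
  · rintro ⟨⟨b, φ⟩, h1, h2⟩
    cases b
    · simp only [cond_false, List.mem_singleton] at h2
      rwa [h2]
    · simp at h2
  · intro h; exact ⟨_, h, by simp⟩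

lemma clause_iff (C : List (Bool × LF)) (x : Qb) :
    ((∀ w : Place, w.N x ≤ 1) ∧ ∀ l ∈ C, lit (lsem (ins x v)) l) ↔
      (∀ w, hold (asem w (ins x v)) (th0 C)) ∧ ∀ ψ ∈ posL C, lsem (ins x v) ψ := by
  simp only [th0, hold_andD, hold_atomD, hold_negD, hold_anyD, asem, pN_cons, pN_nil, mul_one,
    fval_varX, mem_posL, mem_negL]
  constructor
  · rintro ⟨h1, h2⟩
    refine ⟨fun w => ⟨h1 w, ?_⟩, fun ψ hψ => (h2 _ hψ).2 rfl⟩
    rintro ⟨ψ, hψ, h3⟩
    simpa using (h2 _ hψ).1 ⟨w, h3⟩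
  · rintro ⟨h1, h2⟩
    refine ⟨fun w => (h1 w).1, ?_⟩
    rintro ⟨b, ψ⟩ hl
    cases b
    · simp only [lit, Bool.false_eq_true, iff_false]
      rintro ⟨w, hw⟩
      exact (h1 w).2 ⟨ψ, hl, hw⟩
    · simpa [lit] using h2 ψ hl

lemma lit_false (ψ : LF) : lit (lsem v) (false, negD ψ) ↔ ∀ w, hold (asem w v) ψ := by
  simp [lit, lsem]

lemma lit_true (ψ : LF) : lit (lsem v) (true, ψ) ↔ lsem v ψ := by
  simp [lit]

lemma exists_bound_list (L : List Qb) :
    ∃ B : ℕ, ∀ x ∈ L, x ≠ 0 → ∀ w : Place, B < w.p → w.N x = 1 := by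
  induction L with
  | nil => exact ⟨0, by simp⟩
  | cons x L ih =>
    obtain ⟨B, hB⟩ := ih
    by_cases hx : x = 0
    · refine ⟨B, fun y hy h0 => ?_⟩
      rcases List.mem_cons.1 hy with rfl | hy
      · exact absurd hx h0
      · exact hB y hy h0
    · obtain ⟨B', hB'⟩ := exists_bound_eq hx
      refine ⟨max B B', fun y hy h0 w hw => ?_⟩
      rcases List.mem_cons.1 hy with rfl | hy
      · exact hB' w (by omega)
      · exact hB y hy h0 w (by omega)

theorem exClause_iff {K : IntermediateField ℚ Qb} (hK : RadCl K) (hv : v 0 = 1)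
    (hvK : ∀ i, v i ∈ K) (C : List (Bool × LF)) :
    gsem v (exClause C) ↔
      ∃ x ∈ K, (∀ w : Place, w.N x ≤ 1) ∧ ∀ l ∈ C, lit (lsem (ins x v)) l := by
  simp only [clause_iff]
  have hl0 : ∀ F ∈ varX :: forms (th0 C), F ∈ lam C := by
    intro F hF
    rcases List.mem_cons.1 hF with rfl | hF
    · exact List.mem_cons_self
    · exact List.mem_cons_of_mem _ (List.mem_append_left _ hF)
  have hl1 : ∀ ψ ∈ posL C, ∀ F ∈ varX :: forms (andD (th0 C) ψ), F ∈ lam C := by
    intro ψ hψ F hF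
    rcases List.mem_cons.1 hF with rfl | hF
    · exact List.mem_cons_self
    · exact List.mem_cons_of_mem _ (List.mem_append_right _ (List.mem_flatMap.2 ⟨ψ, hψ, hF⟩))
  have hgen : (∀ l ∈ genC C, lit (lsem v) l) ↔
      (∀ w, ∃ y, y ∉ ctrs v (lam C) ∧ hold (asem w (ins y v)) (th0 C)) ∧ lsem v (genL (th0 C)) ∧
      ∀ ψ ∈ posL C, ∃ w y, y ∉ ctrs v (lam C) ∧ hold (asem w (ins y v)) (andD (th0 C) ψ) := by
    simp only [genC, List.forall_mem_cons, lit_false, lit_true, List.mem_map, forall_exists_index,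
      and_imp, forall_apply_eq_imp_iff₂, loc_iff hv _ hl0]
    refine and_congr_right fun _ => and_congr_right fun _ => forall₂_congr fun ψ hψ => ?_
    exact exists_congr fun w => loc_iff hv _ (hl1 ψ hψ)
  have hcen : ∀ J, (∀ l ∈ centerC C J, lit (lsem v) l) ↔ cf J ≠ 0 ∧
      (∀ w, hold (asem w (ins (ctr v J) v)) (th0 C)) ∧
      ∀ ψ ∈ posL C, lsem (ins (ctr v J) v) ψ := by
    intro J
    simp only [centerC, List.forall_mem_cons, lit_false, lit_true, List.mem_map,
      forall_exists_index, and_imp, forall_apply_eq_imp_iff₂, hold_andD, hold_nzL hv]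
    by_cases hJ : cf J = 0
    · simp [hJ]
    · have hx : cf J * ctr v J + fval v (restF J) = 0 := by rw [rest_eq hJ]; ring
      simp only [lsem, hold_subL hv hJ hx, ne_eq, hJ, not_false_iff, true_and]
  have hctr : ∀ J, ctr v J ∈ K := fun J =>
    K.div_mem (K.neg_mem (fval_mem hvK _)) (intCast_mem K _)
  rw [gsem, exClause, hold_cons, hgen]
  constructor
  · rintro (⟨h1, ⟨w₁, h2⟩, h3⟩ | ⟨_, h1, h2⟩)
    · obtain ⟨E, hE, hEK, hEs⟩ := exists_fin (K := K)
        (s := {x | x ∈ (lam C).map fun F => fval v (restF F)}) (List.finite_toSet _) (by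
          intro x hx
          obtain ⟨F, -, rfl⟩ := List.mem_map.1 hx
          exact fval_mem hvK _)
      have hrE : ∀ F ∈ lam C, fval v (restF F) ∈ E := fun F hF =>
        hEs (List.mem_map.2 ⟨F, hF, rfl⟩)
      have inv : ∀ ψ : LF, (∀ F ∈ varX :: forms ψ, F ∈ lam C) → ∀ w w' y y', Eqv E w w' →
          (∀ z ∈ ctrs v (lam C), w.N (y - z) = w'.N (y' - z)) →
          hold (asem w (ins y v)) ψ → hold (asem w' (ins y' v)) ψ := by
        intro ψ hψ w w' y y' he hz
        have key : ∀ F ∈ lam C, w.N (fval (ins y v) F) = w'.N (fval (ins y' v) F) := by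
          intro F hF
          by_cases h0 : cf F = 0
          · simp only [fval_ins, h0, Int.cast_zero, zero_mul, zero_add]
            exact he _ (hrE F hF)
          · rw [fval_ins_ctr h0, fval_ins_ctr h0, map_mul, map_mul,
              hz _ (mem_ctrs.2 ⟨F, hF, h0, rfl⟩), he _ (intCast_mem E _)]
        refine (hold_congr fun a ha => ?_).1
        have e1 : pN w (ins y v) a.1 = pN w' (ins y' v) a.1 :=
          congrArg List.prod (List.map_congr_left fun F hF => key F
            (hψ F (List.mem_cons_of_mem _ (mem_forms ha (List.mem_append_left _ hF)))))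
        have e2 : pN w (ins y v) a.2 = pN w' (ins y' v) a.2 :=
          congrArg List.prod (List.map_congr_left fun F hF => key F
            (hψ F (List.mem_cons_of_mem _ (mem_forms ha (List.mem_append_right _ hF)))))
        rw [asem, asem, e1, e2]
      obtain ⟨B, hB⟩ := exists_bound_list
        ((lam C).map (fun F => (cf F : Qb)) ++ (lam C).map fun F => fval v (restF F))
      have : Finite {ψ // ψ ∈ posL C} := (List.finite_toSet (posL C)).to_subtype
      obtain ⟨y, hy, g1, g2⟩ := lgp hK E hEK (Z := ctrs v (lam C)) (ι := {ψ // ψ ∈ posL C})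
        (by
          intro z hz
          obtain ⟨F, hF, -, rfl⟩ := mem_ctrs.1 hz
          exact E.div_mem (E.neg_mem (hrE F hF)) (intCast_mem E _))
        (List.ne_nil_of_mem (mem_ctrs.2 ⟨varX, List.mem_cons_self, by simp [cf_varX], rfl⟩))
        (fun w y => hold (asem w (ins y v)) (th0 C))
        (fun ψ w y => hold (asem w (ins y v)) (andD (th0 C) ψ.1))
        (inv _ hl0) (fun ψ => inv _ (hl1 ψ.1 ψ.2)) B
        (by
          intro w hw y hy
          refine (hold_genL hv w₁ _ fun F hF => ?_).1 h2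
          have hF' := hl0 F (List.mem_cons_of_mem _ hF)
          by_cases h0 : cf F = 0
          · by_cases h4 : fval v (restF F) = 0
            · exact Or.inl ⟨⟨h0, h4⟩, by simp [fval_ins, h0, h4]⟩
            · refine Or.inr ⟨fun h => h4 h.2, ?_⟩
              simp only [fval_ins, h0, Int.cast_zero, zero_mul, zero_add]
              exact hB _ (List.mem_append_right _ (List.mem_map.2 ⟨F, hF', rfl⟩)) h4 w hw
          · refine Or.inr ⟨fun h => h0 h.1, ?_⟩
            rw [fval_ins_ctr h0, map_mul, hy _ (mem_ctrs.2 ⟨F, hF', h0, rfl⟩), mul_one]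
            exact hB _ (List.mem_append_left _ (List.mem_map.2 ⟨F, hF', rfl⟩))
              (by exact_mod_cast h0) w hw)
        h1 (fun ψ => by
          obtain ⟨w, y, g1, g2⟩ := h3 ψ.1 ψ.2
          exact ⟨w, y, g1, (hold_andD _ _).1 g2 |>.1, g2⟩)
      refine ⟨y, hy, g1, fun ψ hψ => ?_⟩
      obtain ⟨w, hw⟩ := g2 ⟨ψ, hψ⟩
      exact ⟨w, (hold_andD _ _).1 hw |>.2⟩
    · obtain ⟨J, -, rfl⟩ := List.mem_map.1 h1
      obtain ⟨-, h3, h4⟩ := (hcen J).1 h2
      exact ⟨_, hctr J, h3, h4⟩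
  · rintro ⟨x, -, h1, h2⟩
    by_cases hx : x ∈ ctrs v (lam C)
    · obtain ⟨J, hJ, h0, rfl⟩ := mem_ctrs.1 hx
      exact Or.inr ⟨_, List.mem_map.2 ⟨J, hJ, rfl⟩, (hcen J).2 ⟨h0, h1, h2⟩⟩
    · refine Or.inl ⟨fun w => ⟨x, hx, h1 w⟩, ?_, fun ψ hψ => ?_⟩
      · obtain ⟨B, hB⟩ := exists_bound_list ((lam C).map fun F => fval (ins x v) F)
        obtain ⟨p, hp1, hp⟩ := Nat.exists_infinite_primes (B + 1)
        obtain ⟨w, rfl⟩ := exists_place hp
        refine ⟨w, (hold_genL (w := w) hv w _ fun F hF => ?_).2 (h1 w)⟩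
        have hF' := hl0 F (List.mem_cons_of_mem _ hF)
        by_cases h3 : ZF v F
        · exact Or.inl ⟨h3, by simp [fval_ins, h3.1, h3.2]⟩
        · refine Or.inr ⟨h3, hB _ (List.mem_map.2 ⟨F, hF', rfl⟩) (fun h4 => ?_) w hp1⟩
          by_cases h0 : cf F = 0
          · exact h3 ⟨h0, by simpa [fval_ins, h0] using h4⟩
          · rw [fval_ins_ctr h0, mul_eq_zero] at h4
            rcases h4 with h4 | h4
            · exact h0 (by exact_mod_cast h4)
            · exact hx (mem_ctrs.2 ⟨F, hF', h0, (sub_eq_zero.1 h4).symm⟩)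
      · obtain ⟨w, hw⟩ := h2 ψ hψ
        exact ⟨w, x, hx, (hold_andD _ _).2 ⟨h1 w, hw⟩⟩

theorem exG_iff {K : IntermediateField ℚ Qb} (hK : RadCl K) (hv : v 0 = 1)
    (hvK : ∀ i, v i ∈ K) (G : GF) :
    gsem v (exG G) ↔ ∃ x ∈ K, (∀ w : Place, w.N x ≤ 1) ∧ gsem (ins x v) G := by
  have : exG G = anyD (G.map exClause) := by simp [exG, anyD, List.flatMap_map]
  rw [this, gsem, hold_anyD]
  simp only [List.mem_map, exists_exists_and_eq_and]
  constructor
  · rintro ⟨C, hC, h⟩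
    obtain ⟨x, hx, h1, h2⟩ := (exClause_iff hK hv hvK C).1 h
    exact ⟨x, hx, h1, C, hC, h2⟩
  · rintro ⟨x, hx, h1, C, hC, h2⟩
    exact ⟨C, hC, (exClause_iff hK hv hvK C).2 ⟨x, hx, h1, h2⟩⟩

end Pool.Agent.Lib.MP_7610b6_lc
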