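import Pool.Agent.Lib.MP_7610b6_lc.Level

/-!
Rings of integers of radically closed fields of algebraic numbers: greatest common divisors,
stable range one, and Skolem's lemma for finitely many points of the field.
-/

namespace Pool.Agent.Lib.MP_7610b6_lc

open NumberField IntermediateField

/-- Closed under extraction of roots. -/
def RadCl (K : IntermediateField ℚ Qb) : Prop := ∀ (x : Qb) (n : ℕ), n ≠ 0 → x ^ n ∈ K → x ∈ K

lemma RadCl.root {K : IntermediateField ℚ Qb} (hK : RadCl K) {a : Qb} (ha : a ∈ K) {n : ℕ}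
    (hn : n ≠ 0) : ∃ r ∈ K, r ^ n = a := by
  obtain ⟨r, hr⟩ := IsAlgClosed.exists_pow_nat_eq a (Nat.pos_of_ne_zero hn)
  exact ⟨r, hK r n hn (hr ▸ ha), hr⟩

lemma fin_adjoin (s : Set Qb) (hs : s.Finite) : FiniteDimensional ℚ (adjoin ℚ s) := by
  have : Finite s := hs
  exact finiteDimensional_adjoin fun x _ => Algebra.IsIntegral.isIntegral x

lemma exists_fin {K : IntermediateField ℚ Qb} {s : Set Qb} (hs : s.Finite) (hsK : s ⊆ K) :
    ∃ E : IntermediateField ℚ Qb, FiniteDimensional ℚ E ∧ E ≤ K ∧ s ⊆ E :=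
  ⟨adjoin ℚ s, fin_adjoin s hs, adjoin_le_iff.2 hsK, subset_adjoin _ _⟩

lemma numberField_of_fin (E : IntermediateField ℚ Qb) [FiniteDimensional ℚ E] : NumberField E :=
  { to_charZero := inferInstance, to_finiteDimensional := inferInstance }

/-- The inclusion of the ring of integers of `E` into the algebraic numbers. -/
noncomputable def oInc (E : IntermediateField ℚ Qb) : 𝓞 E →+* Qb :=
  (algebraMap E Qb).comp (algebraMap (𝓞 E) E)

lemma oInc_mem (E : IntermediateField ℚ Qb) (a : 𝓞 E) : oInc E a ∈ E := (a : E).2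

lemma oInc_integral (E : IntermediateField ℚ Qb) (a : 𝓞 E) : IsIntegral ℤ (oInc E a) :=
  (RingOfIntegers.isIntegral_coe a).map (IsScalarTower.toAlgHom ℤ E Qb)

lemma exists_oInc {E : IntermediateField ℚ Qb} {x : Qb} (hx : x ∈ E) (hi : IsIntegral ℤ x) :
    ∃ a : 𝓞 E, oInc E a = x :=
  ⟨⟨⟨x, hx⟩, (isIntegral_algebraMap_iff (R := ℤ) (A := E) (B := Qb)
    (algebraMap E Qb).injective).1 hi⟩, rfl⟩

lemma oInc_injective (E : IntermediateField ℚ Qb) : Function.Injective (oInc E) :=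
  (algebraMap E Qb).injective.comp (RingOfIntegers.coe_injective)

lemma pow_le_pow_iff_of_nonneg {a b : ℝ} (ha : 0 ≤ a) (hb : 0 ≤ b) {n : ℕ} (hn : n ≠ 0) :
    a ^ n ≤ b ^ n ↔ a ≤ b := pow_le_pow_iff_left₀ ha hb hn

lemma exists_gcd {K : IntermediateField ℚ Qb} (hK : RadCl K) {x y : Qb} (hx : x ∈ K) (hy : y ∈ K)
    (hxi : IsIntegral ℤ x) (hyi : IsIntegral ℤ y) :
    ∃ g ∈ K, ∀ w : Place, w.N g = max (w.N x) (w.N y) := by
  classical
  obtain ⟨E, hE, hEK, hs⟩ := exists_fin (K := K) (s := {x, y}) (by simp)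
    (by rintro _ (rfl | rfl) <;> assumption)
  have := numberField_of_fin E
  obtain ⟨a, rfl⟩ := exists_oInc (E := E) (hs (by simp : x ∈ ({x, y} : Set Qb))) hxi
  obtain ⟨b, rfl⟩ := exists_oInc (E := E) (hs (by simp : y ∈ ({oInc E a, y} : Set Qb))) hyi
  let I : Ideal (𝓞 E) := Ideal.span {a, b}
  have haI : a ∈ I := Ideal.subset_span (by simp)
  have hbI : b ∈ I := Ideal.subset_span (by simp)
  by_cases hI : I = ⊥
  · refine ⟨0, K.zero_mem, fun w => ?_⟩
    rw [hI, Ideal.mem_bot] at haI hbI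
    simp [haI, hbI]
  obtain ⟨h, hh, hp⟩ : ∃ h : ℕ, h ≠ 0 ∧ (I ^ h).IsPrincipal := by
    have hI' : I ∈ nonZeroDivisors (Ideal (𝓞 E)) := mem_nonZeroDivisors_of_ne_zero hI
    refine ⟨Fintype.card (ClassGroup (𝓞 E)), Fintype.card_ne_zero, ?_⟩
    have h1 : ClassGroup.mk0 (⟨I, hI'⟩ ^ Fintype.card (ClassGroup (𝓞 E))) = 1 := by
      rw [map_pow, pow_card_eq_one]
    exact (ClassGroup.mk0_eq_one_iff (pow_mem hI' _)).1 h1
  obtain ⟨δ, hδ⟩ := hp
  obtain ⟨g, hg, hgδ⟩ := hK.root (hEK (oInc_mem E δ)) hh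
  refine ⟨g, hg, fun w => ?_⟩
  set M := max (w.N (oInc E a)) (w.N (oInc E b)) with hM
  have hM0 : 0 ≤ M := le_max_of_le_left (w.N.nonneg _)
  have h1 : ∀ c ∈ I, w.N (oInc E c) ≤ M := by
    intro c hc
    obtain ⟨r, s, rfl⟩ := Ideal.mem_span_pair.1 hc
    rw [map_add, map_mul, map_mul]
    apply w.add_le_of
    · rw [map_mul]
      exact (mul_le_of_le_one_left (w.N.nonneg _) (w.of_integral (oInc_integral E r))).trans
        (le_max_left _ _)
    · rw [map_mul]
      exact (mul_le_of_le_one_left (w.N.nonneg _) (w.of_integral (oInc_integral E s))).trans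
        (le_max_right _ _)
  have h2 : ∀ n : ℕ, ∀ c ∈ I ^ n, w.N (oInc E c) ≤ M ^ n := by
    intro n
    induction n with
    | zero => intro c _; simpa using w.of_integral (oInc_integral E c)
    | succ n ih =>
      intro c hc
      rw [pow_succ] at hc
      refine Submodule.mul_induction_on hc ?_ ?_
      · intro m hm k hk
        rw [map_mul, map_mul, pow_succ]
        exact mul_le_mul (ih m hm) (h1 k hk) (w.N.nonneg _) (by positivity)
      · intro m k hm hk
        rw [map_add]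
        exact w.add_le_of hm hk
  have h3 : ∀ c ∈ I, w.N (oInc E c) ≤ w.N g := by
    intro c hc
    have h4 : c ^ h ∈ I ^ h := Ideal.pow_mem_pow hc h
    rw [hδ] at h4
    obtain ⟨r, hr⟩ := Ideal.mem_span_singleton'.1 h4
    rw [← pow_le_pow_iff_of_nonneg (w.N.nonneg _) (w.N.nonneg _) hh, ← map_pow, ← map_pow,
      ← map_pow, hgδ, ← hr, map_mul, map_mul]
    exact mul_le_of_le_one_left (w.N.nonneg _) (w.of_integral (oInc_integral E r))
  apply le_antisymm
  · rw [← pow_le_pow_iff_of_nonneg (w.N.nonneg _) hM0 hh, ← map_pow, hgδ]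
    apply h2
    rw [hδ]
    exact Ideal.mem_span_singleton_self δ
  · exact max_le (h3 a haI) (h3 b hbI)

/-- Every element is a quotient of coprime integers. -/
lemma exists_frac {K : IntermediateField ℚ Qb} (hK : RadCl K) {z : Qb} (hz : z ∈ K) :
    ∃ b ∈ K, ∃ c ∈ K, c ≠ 0 ∧ z * c = b ∧ ∀ w : Place, max (w.N b) (w.N c) = 1 := by
  obtain ⟨D, hD, hi⟩ := exists_den z
  have hD' : (D : Qb) ≠ 0 := by exact_mod_cast hD
  obtain ⟨g, hg, h⟩ := exists_gcd hK (K.mul_mem (intCast_mem K D) hz) (intCast_mem K D) hi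
    (isIntegral_algebraMap (x := D))
  obtain ⟨w0⟩ := (inferInstance : Nonempty Place)
  have hg0 : g ≠ 0 := by
    intro h0
    have := h w0
    rw [h0, map_zero] at this
    have h1 := w0.N.pos hD'
    have h2 := le_max_right (w0.N (D * z)) (w0.N (D : Qb))
    linarith
  refine ⟨D * z / g, K.div_mem (K.mul_mem (intCast_mem K D) hz) hg, D / g,
    K.div_mem (intCast_mem K D) hg, div_ne_zero hD' hg0, by ring, fun w => ?_⟩
  rw [map_div₀, map_div₀, max_div_div_right (w.N.nonneg _), ← h w, div_self (w.N.pos hg0).ne']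

/-- Powers of an algebraic integer are eventually periodic modulo a nonzero integer. -/
lemma exists_period {b : Qb} (hb : IsIntegral ℤ b) {D : ℤ} (hD : D ≠ 0) :
    ∃ n : ℕ, n ≠ 0 ∧ ∀ w : Place, w.N b = 1 → w.N (b ^ n - 1) ≤ w.N (D : Qb) := by
  obtain ⟨E, hE, -, hs⟩ := exists_fin (K := ⊤) (s := {b}) (by simp) (by simp)
  have := numberField_of_fin E
  obtain ⟨a, rfl⟩ := exists_oInc (E := E) (hs (by simp : b ∈ ({b} : Set Qb))) hb
  let I : Ideal (𝓞 E) := Ideal.span {(D : 𝓞 E)}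
  have hI : I ≠ ⊥ := by
    rw [Ne, Ideal.span_singleton_eq_bot]
    exact_mod_cast hD
  have : Finite (𝓞 E ⧸ I) := Ideal.finiteQuotientOfFreeOfNeBot I hI
  have key : ∀ i j : ℕ, i < j → Ideal.Quotient.mk I (a ^ i) = Ideal.Quotient.mk I (a ^ j) →
      ∃ n : ℕ, n ≠ 0 ∧ ∀ w : Place, w.N (oInc E a) = 1 →
        w.N (oInc E a ^ n - 1) ≤ w.N (D : Qb) := by
    intro i j hij he
    obtain ⟨d, rfl⟩ := Nat.exists_eq_add_of_lt hij
    refine ⟨d + 1, by omega, fun w hw => ?_⟩
    obtain ⟨r, hr⟩ := Ideal.mem_span_singleton'.1 (Ideal.Quotient.eq.1 he.symm)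
    have h1 := congrArg (fun t => w.N (oInc E t)) hr
    have h2 : a ^ (i + d + 1) - a ^ i = a ^ i * (a ^ (d + 1) - 1) := by ring
    simp only [h2, map_mul, map_pow, map_sub, map_one, hw, one_pow, one_mul, map_intCast] at h1
    rw [← h1]
    exact mul_le_of_le_one_left (w.N.nonneg _) (w.of_integral (oInc_integral E r))
  obtain ⟨i, j, hne, he⟩ := Finite.exists_ne_map_eq_of_infinite
    (fun i : ℕ => Ideal.Quotient.mk I (a ^ i))
  rcases lt_or_gt_of_ne hne with h | h
  · exact key i j h he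
  · exact key j i h he.symm

end Pool.Agent.Lib.MP_7610b6_lc
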