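import Pool.Agent.Lib.MP_7610b6_lc.Defs
import Pool.Agent.Lib.MP_7610b6_lc.Units

/-!
The maximal solvable extension is a radically closed field.
-/

namespace Pool.Agent.Lib.MP_7610b6_lc

open Polynomial IntermediateField

section Generic

variable (F E : Type*) [Field F] [Field E] [Algebra F E]

lemma adjoin_rootSet_mono {p q : F[X]} (hq : q ≠ 0) (h : p ∣ q) :
    adjoin F (p.rootSet E) ≤ adjoin F (q.rootSet E) := by
  apply adjoin.mono
  intro x hx
  rw [mem_rootSet_of_ne hq]
  obtain ⟨r, rfl⟩ := h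
  rw [map_mul, aeval_eq_zero_of_mem_rootSet hx, zero_mul]

/-- Elements of splitting fields of polynomials with solvable group. -/
def solvField : IntermediateField F E where
  carrier := {x | ∃ p : F[X], p ≠ 0 ∧ Group.IsSolvable p.Gal ∧ x ∈ adjoin F (p.rootSet E)}
  mul_mem' := by
    rintro x y ⟨p, hp, h1, hx⟩ ⟨q, hq, h2, hy⟩
    exact ⟨p * q, mul_ne_zero hp hq, gal_mul_isSolvable h1 h2,
      mul_mem (adjoin_rootSet_mono F E (mul_ne_zero hp hq) (dvd_mul_right p q) hx)
        (adjoin_rootSet_mono F E (mul_ne_zero hp hq) (dvd_mul_left q p) hy)⟩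
  add_mem' := by
    rintro x y ⟨p, hp, h1, hx⟩ ⟨q, hq, h2, hy⟩
    exact ⟨p * q, mul_ne_zero hp hq, gal_mul_isSolvable h1 h2,
      add_mem (adjoin_rootSet_mono F E (mul_ne_zero hp hq) (dvd_mul_right p q) hx)
        (adjoin_rootSet_mono F E (mul_ne_zero hp hq) (dvd_mul_left q p) hy)⟩
  algebraMap_mem' := fun a => ⟨1, one_ne_zero, gal_one_isSolvable, IntermediateField.algebraMap_mem _ a⟩
  inv_mem' := by
    rintro x ⟨p, hp, h1, hx⟩
    exact ⟨p, hp, h1, inv_mem hx⟩

variable {F E}

lemma mem_solvField_iff [CharZero F] [IsAlgClosed E] (x : E) :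
    x ∈ solvField F E ↔ ∃ L : IntermediateField F E, FiniteDimensional F L ∧ IsGalois F L ∧
      Group.IsSolvable (L ≃ₐ[F] L) ∧ x ∈ L := by
  constructor
  · rintro ⟨p, hp, h1, hx⟩
    have hs : p.IsSplittingField F (adjoin F (p.rootSet E)) :=
      adjoin_rootSet_isSplittingField (IsAlgClosed.splits _)
    have hf := IsSplittingField.finiteDimensional (adjoin F (p.rootSet E)) p
    have hn := Normal.of_isSplittingField (E := adjoin F (p.rootSet E)) p
    refine ⟨_, hf, {}, ?_, hx⟩
    have : Group.IsSolvable (p.SplittingField ≃ₐ[F] p.SplittingField) := h1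
    exact Group.isSolvable_of_isSolvable_injective
      (f := (AlgEquiv.autCongr (IsSplittingField.algEquiv (adjoin F (p.rootSet E)) p)).toMonoidHom)
      (MulEquiv.injective _)
  · rintro ⟨L, h1, h2, h3, hx⟩
    obtain ⟨p, hp, hs⟩ := IsGalois.is_separable_splitting_field F L
    refine ⟨p, hp.ne_zero, ?_, (isSplittingField_iff.1 hs).2 ▸ hx⟩
    exact Group.isSolvable_of_surjective (G' := p.SplittingField ≃ₐ[F] p.SplittingField)
      (f := (AlgEquiv.autCongr (IsSplittingField.algEquiv L p)).toMonoidHom)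
      (MulEquiv.surjective _)

lemma solv_minpoly [IsAlgClosed E] {x : E} (hx : x ∈ solvField F E) :
    IsIntegral F x ∧ Group.IsSolvable (minpoly F x).Gal := by
  obtain ⟨p, hp, h1, hx⟩ := hx
  have hs : p.IsSplittingField F (adjoin F (p.rootSet E)) :=
    adjoin_rootSet_isSplittingField (IsAlgClosed.splits _)
  have hf := IsSplittingField.finiteDimensional (adjoin F (p.rootSet E)) p
  let f := IsSplittingField.algEquiv (adjoin F (p.rootSet E)) p
  have key : minpoly F x = minpoly F (f ⟨x, hx⟩) := by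
    rw [minpoly.algEquiv_eq]
    exact minpoly.algebraMap_eq (A := F) (B := adjoin F (p.rootSet E)) (B' := E)
      (algebraMap (adjoin F (p.rootSet E)) E).injective ⟨x, hx⟩
  refine ⟨(Algebra.IsIntegral.isIntegral (R := F) (⟨x, hx⟩ : adjoin F (p.rootSet E))).map
    (adjoin F (p.rootSet E)).val, ?_⟩
  rw [key]
  exact gal_isSolvable_of_splits ⟨Normal.splits inferInstance (f ⟨x, hx⟩)⟩ h1

lemma solvField_rad [IsAlgClosed E] (x : E) (n : ℕ) (hn : n ≠ 0) (hx : x ^ n ∈ solvField F E) :
    x ∈ solvField F E := by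
  obtain ⟨hi, hα⟩ := solv_minpoly hx
  let p := minpoly F (x ^ n)
  have hp : p.comp (X ^ n) ≠ 0 := by
    intro h
    rcases comp_eq_zero_iff.mp h with h' | h'
    · exact minpoly.ne_zero hi h'
    · exact hn (by rw [← @natDegree_C F, ← h'.2, natDegree_X_pow])
  refine ⟨p.comp (X ^ n), hp, ?_, subset_adjoin _ _ ?_⟩
  · refine gal_isSolvable_tower p (p.comp (X ^ n)) ?_ hα ?_
    · exact Gal.splits_in_splittingField_of_comp _ _ (by rwa [natDegree_X_pow])
    · obtain ⟨s, hs⟩ := splits_iff_exists_multiset.1 (SplittingField.splits p)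
      rw [map_comp, Polynomial.map_pow, map_X, hs, mul_comp, C_comp]
      apply gal_mul_isSolvable (gal_C_isSolvable _)
      rw [multiset_prod_comp]
      apply gal_prod_isSolvable
      intro q hq
      rw [Multiset.mem_map] at hq
      obtain ⟨q, hq, rfl⟩ := hq
      rw [Multiset.mem_map] at hq
      obtain ⟨q, _, rfl⟩ := hq
      rw [sub_comp, X_comp, C_comp]
      exact gal_X_pow_sub_C_isSolvable n q
  · rw [mem_rootSet_of_ne hp, aeval_comp, aeval_X_pow, minpoly.aeval]

end Generic

/-- The maximal solvable extension of `ℚ`. -/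
noncomputable def Ksolv : IntermediateField ℚ Qb := solvField ℚ Qb

lemma radCl_Ksolv : RadCl Ksolv := solvField_rad

lemma mem_Zsolv {x : Qb} : x ∈ Zsolv ↔ x ∈ Ksolv ∧ ∀ w : Place, w.N x ≤ 1 := by
  constructor
  · rintro ⟨h1, h2⟩
    exact ⟨(mem_solvField_iff x).2 h2, fun w => w.of_integral h1⟩
  · rintro ⟨h1, h2⟩
    exact ⟨integral_of_le_one h2, (mem_solvField_iff x).1 h1⟩

end Pool.Agent.Lib.MP_7610b6_lc
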