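import Pool.Agent.Lib.MP_7610b6_lc.Units

/-!
Stable range one and Skolem's lemma in radically closed fields of algebraic numbers.
-/

namespace Pool.Agent.Lib.MP_7610b6_lc

open Polynomial

lemma Place.prod_sub_one_le (w : Place) {ι : Type*} (s : Finset ι) (a : ι → Qb) {r : ℝ}
    (hr0 : 0 ≤ r) (hr : r ≤ 1) (h : ∀ i ∈ s, w.N (a i) ≤ r) :
    w.N (∏ i ∈ s, (1 + a i) - 1) ≤ r := by
  classical
  induction s using Finset.induction_on with
  | empty => simpa using hr0
  | insert j s hj ih =>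
    have ih' := ih fun i hi => h i (by simp [hi])
    have hj' := h j (by simp)
    rw [Finset.prod_insert hj]
    have : (1 + a j) * ∏ i ∈ s, (1 + a i) - 1
        = (1 + a j) * (∏ i ∈ s, (1 + a i) - 1) + a j := by ring
    rw [this]
    refine w.add_le_of ?_ hj'
    rw [map_mul]
    exact (mul_le_of_le_one_left (w.N.nonneg _)
      (w.add_le_of (by simp) (hj'.trans hr))).trans ih'

lemma Place.prod_le_pow (w : Place) {ι : Type*} (s : Finset ι) (a : ι → Qb) {r : ℝ}
    (h : ∀ i ∈ s, w.N (a i) ≤ r) : w.N (∏ i ∈ s, a i) ≤ r ^ s.card := by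
  rw [map_prod, ← Finset.prod_const]
  exact Finset.prod_le_prod (fun i _ => w.N.nonneg _) h

/-- The radical equation `t ^ p = t₀ ^ p * ∏ (1 + [j] t)`. -/
lemma exists_radical_sol {K : IntermediateField ℚ Qb} (hK : RadCl K) {p : ℕ} (hp : p.Prime)
    {t₀ : Qb} (ht : t₀ ∈ K) : ∃ t ∈ K, ∃ c : ℕ → Qb, c 0 = 0 ∧ c 1 = 1 ∧
      (∀ j, ∀ w : Place, w.N (c j) ≤ 1) ∧
      t ^ p = t₀ ^ p * ∏ j ∈ Finset.range p, (1 + c j * t) := by
  have : NeZero p := ⟨hp.ne_zero⟩
  obtain ⟨ζ, hζ⟩ := HasEnoughRootsOfUnity.exists_primitiveRoot Qb p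
  have hζK : ζ ∈ K := hK ζ p hp.ne_zero (by rw [hζ.pow_eq_one]; exact K.one_mem)
  have hl : ζ - 1 ≠ 0 := sub_ne_zero.2 (hζ.ne_one hp.one_lt)
  have hlK : ζ - 1 ∈ K := K.sub_mem hζK K.one_mem
  set l := ζ - 1 with hldef
  have hex : ∃ t ∈ K, t ^ p * (l ^ p + (-t₀) ^ p) = t₀ ^ p * (l - t) ^ p := by
    by_cases hD : l ^ p + (-t₀) ^ p = 0
    · exact ⟨l, hlK, by rw [hD]; simp [hp.ne_zero]⟩
    have hDK : l ^ p + (-t₀) ^ p ∈ K := K.add_mem (pow_mem hlK _) (pow_mem (K.neg_mem ht) _)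
    obtain ⟨φ, hφK, hφ⟩ := hK.root (K.div_mem (pow_mem ht p) hDK) hp.ne_zero
    have h1 : 1 + φ ≠ 0 := by
      intro h
      have h2 : φ = -1 := by linear_combination h
      rw [h2, eq_div_iff hD, mul_add, ← mul_pow, ← mul_pow] at hφ
      simp only [neg_mul, one_mul, neg_neg, add_eq_right] at hφ
      exact hl (neg_eq_zero.1 (pow_eq_zero_iff hp.ne_zero |>.1 hφ))
    refine ⟨l * φ / (1 + φ), K.div_mem (K.mul_mem hlK hφK) (K.add_mem K.one_mem hφK), ?_⟩
    have h3 : l - l * φ / (1 + φ) = l / (1 + φ) := by field_simp; ring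
    rw [h3, div_pow, div_pow, mul_pow, hφ]
    field_simp
  obtain ⟨t, htK, he⟩ := hex
  refine ⟨t, htK, fun j => ∑ i ∈ Finset.range j, ζ ^ i, by simp, by simp, ?_, ?_⟩
  · intro j w
    apply w.sum_le _ _ zero_le_one
    intro i _
    rw [map_pow]
    have : w.N ζ ^ p = 1 := by rw [← map_pow, hζ.pow_eq_one, map_one]
    rw [(pow_eq_one_iff_of_nonneg (w.N.nonneg _) hp.ne_zero).1 this, one_pow]
  · have h1 := congrArg (eval (l - t)) (X_pow_sub_C_eq_prod hζ (α := -t) hp.pos rfl)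
    simp only [eval_sub, eval_pow, eval_X, eval_C, eval_prod] at h1
    have h2 : ∀ j, l - t - ζ ^ j * -t = l * (1 + (∑ i ∈ Finset.range j, ζ ^ i) * t) := by
      intro j
      have := mul_geom_sum ζ j
      rw [← hldef] at this
      linear_combination (-t) * this
    simp only [h2, Finset.prod_mul_distrib, Finset.prod_const, Finset.card_range] at h1
    apply mul_left_cancel₀ (pow_ne_zero p hl)
    have h3 : (-t₀) ^ p * t ^ p = t₀ ^ p * (-t) ^ p := by
      rw [← mul_pow, ← mul_pow]; ring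
    linear_combination he + t₀ ^ p * h1 - h3

lemma wild_step {K : IntermediateField ℚ Qb} (hK : RadCl K) {p : ℕ} (hp : p.Prime)
    {t₀ : Qb} (ht : t₀ ∈ K) (hi : ∀ w : Place, w.N t₀ ≤ 1) :
    ∃ e ∈ K, ∃ t₁ ∈ K, (∀ w : Place, w.N e = 1) ∧ 1 + t₀ = e * (1 + t₁) ∧
      (∀ w : Place, w.N t₁ ≤ w.N t₀) ∧
      ∀ w : Place, w.p = p → w.N t₀ ≤ w.N (p : Qb) → w.N t₁ ^ p ≤ w.N t₀ ^ p * w.N (p : Qb) := by
  classical
  by_cases h0 : t₀ = 0
  · exact ⟨1, K.one_mem, 0, K.zero_mem, by simp, by simp [h0], by simp,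
      by simp [h0, hp.ne_zero]⟩
  obtain ⟨t, htK, c, hc0, hc1, hc, he⟩ := exists_radical_sol hK hp ht
  set U := ∏ j ∈ Finset.range p, (1 + c j * t) with hU
  have hct : ∀ (w : Place) j, w.N (c j * t) ≤ w.N t := fun w j => by
    rw [map_mul]; exact mul_le_of_le_one_left (w.N.nonneg _) (hc j w)
  have h1 : ∀ w : Place, w.N t ≤ 1 := by
    intro w
    by_contra h
    push Not at h
    obtain ⟨q, rfl⟩ := Nat.exists_eq_succ_of_ne_zero hp.ne_zero
    have h2 : w.N U ≤ w.N t ^ q := by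
      rw [hU, Finset.prod_range_succ', hc0]
      simp only [zero_mul, add_zero, mul_one]
      have := w.prod_le_pow (Finset.range q) (fun j => 1 + c (j + 1) * t) (r := w.N t)
        (fun j _ => w.add_le_of (by simpa using h.le) (hct w _))
      simpa using this
    have h3 := congrArg w.N he
    rw [map_mul, map_pow, map_pow] at h3
    have h4 : w.N t₀ ^ (q + 1) ≤ 1 := pow_le_one₀ (w.N.nonneg _) (hi w)
    have h5 : w.N t ^ q < w.N t ^ (q + 1) := pow_lt_pow_right₀ h (by omega)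
    have h6 := mul_le_of_le_one_left (w.N.nonneg U) h4
    simp only [Nat.succ_eq_add_one] at h3
    linarith
  have hU1 : ∀ w : Place, w.N (U - 1) ≤ w.N t := fun w =>
    w.prod_sub_one_le _ _ (w.N.nonneg _) (h1 w) fun j _ => hct w j
  have hUle : ∀ w : Place, w.N U ≤ 1 := fun w => by
    have := w.add_le_of ((hU1 w).trans (h1 w)) (by simp : w.N 1 ≤ 1)
    simpa using this
  have h2 : ∀ w : Place, w.N U = 1 := by
    intro w
    rcases (h1 w).lt_or_eq with h | h
    · have := w.add_eq_right (x := U - 1) (y := 1) (by simpa using (hU1 w).trans_lt h)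
      simpa using this
    · have h3 := congrArg w.N he
      rw [map_mul, map_pow, map_pow, h, one_pow] at h3
      have h4 : w.N t₀ ^ p ≤ 1 := pow_le_one₀ (w.N.nonneg _) (hi w)
      have h6 := mul_le_of_le_one_left (w.N.nonneg U) h4
      linarith [hUle w]
  have h3 : ∀ w : Place, w.N t = w.N t₀ := by
    intro w
    have h3 := congrArg w.N he
    rw [map_mul, map_pow, map_pow, h2 w, mul_one] at h3
    exact (pow_left_inj₀ (w.N.nonneg _) (w.N.nonneg _) hp.ne_zero).1 h3
  have h4 : ∀ w : Place, w.N (1 + t) = 1 := by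
    intro w
    have h5 := h2 w
    rw [hU, ← Finset.mul_prod_erase _ _ (Finset.mem_range.2 hp.one_lt), hc1, one_mul,
      map_mul] at h5
    have h6 := w.prod_le_pow ((Finset.range p).erase 1) (fun j => 1 + c j * t) (r := 1)
      (fun j _ => w.add_le_of (by simp) ((hct w _).trans (h1 w)))
    rw [one_pow] at h6
    have h7 : w.N (1 + t) ≤ 1 := w.add_le_of (by simp) (h1 w)
    have h8 := mul_le_of_le_one_right (w.N.nonneg (1 + t)) h6
    linarith
  obtain ⟨w0⟩ := (inferInstance : Nonempty Place)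
  have h5 : 1 + t ≠ 0 := by
    intro h
    have := h4 w0
    rw [h] at this
    simp at this
  set r := t / t₀ with hr
  have hrN : ∀ w : Place, w.N r = 1 := fun w => by
    rw [hr, map_div₀, h3 w, div_self (w.N.pos h0).ne']
  have hrp : r ^ p = U := by
    rw [hr, div_pow, he]; field_simp
  have hr1 : ∀ w : Place, w.N (r - 1) ≤ 1 := fun w => w.sub_le_of (hrN w).le (by simp)
  have h6 : ∀ w : Place, w.N ((t₀ - t) / (1 + t)) = w.N t₀ * w.N (r - 1) := by
    intro w
    rw [map_div₀, h4 w, div_one, ← map_mul, ← w.N.map_neg]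
    congr 1
    rw [hr]; field_simp; ring
  refine ⟨1 + t, K.add_mem K.one_mem htK, (t₀ - t) / (1 + t),
    K.div_mem (K.sub_mem ht htK) (K.add_mem K.one_mem htK), h4, by field_simp; ring, ?_, ?_⟩
  · intro w
    rw [h6]
    exact mul_le_of_le_one_right (w.N.nonneg _) (hr1 w)
  · intro w _ hw
    rw [h6, mul_pow]
    apply mul_le_mul_of_nonneg_left _ (pow_nonneg (w.N.nonneg _) _)
    obtain ⟨z, hz⟩ := exists_add_pow_prime_eq hp (⟨r - 1, hr1 w⟩ : w.ball) 1
    have h7 := congrArg (fun u : w.ball => (u : Qb)) hz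
    simp only [Subring.coe_add, Subring.coe_pow, Subring.coe_mul, Subring.coe_one,
      Subring.coe_natCast, sub_add_cancel, hrp, one_pow, mul_one] at h7
    have h8 : (r - 1) ^ p = (U - 1) - p * ((r - 1) * z) := by linear_combination -h7
    rw [← map_pow, h8]
    apply w.sub_le_of ((hU1 w).trans ((h3 w).le.trans hw))
    rw [map_mul]
    exact mul_le_of_le_one_right (w.N.nonneg _) (w.mul_le_one (hr1 w) z.2)

lemma wild_iter {K : IntermediateField ℚ Qb} (hK : RadCl K) {p : ℕ} (hp : p.Prime) (k : ℕ)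
    {t₀ : Qb} (ht : t₀ ∈ K) (hi : ∀ w : Place, w.N t₀ ≤ 1) :
    ∃ e ∈ K, ∃ t₁ ∈ K, (∀ w : Place, w.N e = 1) ∧ 1 + t₀ = e * (1 + t₁) ∧
      (∀ w : Place, w.N t₁ ≤ w.N t₀) ∧
      ∀ w : Place, w.p = p → w.N t₀ ≤ w.N (p : Qb) → w.N t₁ ^ p ≤ w.N (p : Qb) ^ k := by
  induction k with
  | zero =>
    exact ⟨1, K.one_mem, t₀, ht, by simp, by simp, by simp,
      fun w _ _ => by simpa using pow_le_one₀ (w.N.nonneg _) (hi w)⟩
  | succ k ih =>
    obtain ⟨e, he, t₁, ht₁, h1, h2, h3, h4⟩ := ih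
    obtain ⟨e', he', t₂, ht₂, g1, g2, g3, g4⟩ := wild_step hK hp ht₁ fun w => (h3 w).trans (hi w)
    refine ⟨e * e', K.mul_mem he he', t₂, ht₂, fun w => by rw [map_mul, h1, g1, one_mul],
      by rw [h2, g2, mul_assoc], fun w => (g3 w).trans (h3 w), fun w hw h => ?_⟩
    refine (g4 w hw ((h3 w).trans h)).trans ?_
    rw [pow_succ]
    exact mul_le_mul_of_nonneg_right (h4 w hw h) (w.N.nonneg _)

lemma wild_all {K : IntermediateField ℚ Qb} (hK : RadCl K) (m B : ℕ)
    {t₀ : Qb} (ht : t₀ ∈ K) (hi : ∀ w : Place, w.N t₀ ≤ 1) :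
    ∃ e ∈ K, ∃ t₁ ∈ K, (∀ w : Place, w.N e = 1) ∧ 1 + t₀ = e * (1 + t₁) ∧
      (∀ w : Place, w.N t₁ ≤ w.N t₀) ∧
      ∀ w : Place, w.p ≤ B → w.N t₀ ≤ w.N (w.p : Qb) → w.N t₁ ≤ w.N (w.p : Qb) ^ m := by
  induction B with
  | zero =>
    exact ⟨1, K.one_mem, t₀, ht, by simp, by simp, by simp,
      fun w hw _ => absurd w.hp.pos (by omega)⟩
  | succ B ih =>
    obtain ⟨e, he, t₁, ht₁, h1, h2, h3, h4⟩ := ih
    by_cases hp : (B + 1).Prime
    swap
    · refine ⟨e, he, t₁, ht₁, h1, h2, h3, fun w hw h => h4 w ?_ h⟩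
      rcases hw.lt_or_eq with h | h
      · omega
      · exact absurd (h ▸ w.hp) hp
    obtain ⟨e', he', t₂, ht₂, g1, g2, g3, g4⟩ := wild_iter hK hp (m * (B + 1)) ht₁
      fun w => (h3 w).trans (hi w)
    refine ⟨e * e', K.mul_mem he he', t₂, ht₂, fun w => by rw [map_mul, h1, g1, one_mul],
      by rw [h2, g2, mul_assoc], fun w => (g3 w).trans (h3 w), fun w hw h => ?_⟩
    rcases hw.lt_or_eq with h' | h'
    · exact (g3 w).trans (h4 w (by omega) h)
    · have := g4 w h' (by rw [← h']; exact (h3 w).trans h)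
      rw [pow_mul, pow_le_pow_iff_of_nonneg (w.N.nonneg _) (pow_nonneg (w.N.nonneg _) _)
        (by omega), ← h'] at this
      exact this

lemma Place.pow_le_N_int (w : Place) : ∀ (n : ℕ) {D : ℤ}, D ≠ 0 → D.natAbs ≤ n →
    w.N (w.p : Qb) ^ n ≤ w.N (D : Qb) := by
  intro n
  induction n with
  | zero => intro D hD h; omega
  | succ n ih =>
    intro D hD h
    by_cases hp : (w.p : ℤ) ∣ D
    · obtain ⟨D', rfl⟩ := hp
      have hD' : D' ≠ 0 := by rintro rfl; simp at hD
      have h1 : D'.natAbs ≤ n := by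
        rw [Int.natAbs_mul, Int.natAbs_natCast] at h
        have := w.hp.two_le
        have := Int.natAbs_pos.2 hD'
        nlinarith
      push_cast
      rw [map_mul, pow_succ']
      exact mul_le_mul_of_nonneg_left (ih hD' h1) (w.N.nonneg _)
    · rw [w.N_int_eq_one hp]
      exact pow_le_one₀ (w.N.nonneg _) w.N_p_lt_one.le

/-- Stable range one. -/
theorem stable_range {K : IntermediateField ℚ Qb} (hK : RadCl K) {b c : Qb} (hb : b ∈ K)
    (hc : c ∈ K) (hc0 : c ≠ 0) (h : ∀ w : Place, max (w.N b) (w.N c) = 1) :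
    ∃ y ∈ K, (∀ w : Place, w.N y ≤ 1) ∧ ∀ w : Place, w.N (b - c * y) = 1 := by
  have hb1 : ∀ w : Place, w.N b ≤ 1 := fun w => (le_max_left _ _).trans (h w).le
  have hc1 : ∀ w : Place, w.N c ≤ 1 := fun w => (le_max_right _ _).trans (h w).le
  obtain ⟨D, hD, hi⟩ := exists_den c⁻¹
  have hDc : ∀ w : Place, w.N (D : Qb) ≤ w.N c := fun w => by
    have := w.of_integral hi
    rwa [map_mul, map_inv₀, mul_inv_le_iff₀ (w.N.pos hc0), one_mul] at this
  obtain ⟨n, hn, hper⟩ := exists_period (integral_of_le_one hb1) hD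
  have hi0 : ∀ w : Place, w.N (b ^ n - 1) ≤ 1 := fun w =>
    w.sub_le_of (by rw [map_pow]; exact pow_le_one₀ (w.N.nonneg _) (hb1 w)) (by simp)
  obtain ⟨e, he, t, ht, h1, h2, h3, h4⟩ := wild_all hK (D.natAbs * n) D.natAbs
    (K.sub_mem (pow_mem hb n) K.one_mem) hi0
  have h5 : ∀ w : Place, w.N t ≤ w.N c ^ n := by
    intro w
    rcases (hc1 w).lt_or_eq with hw | hw
    · have hbw : w.N b = 1 := by
        have := h w
        rcases max_choice (w.N b) (w.N c) with h' | h'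
        · rwa [h'] at this
        · rw [h'] at this; exact absurd this hw.ne
      have hpD := w.dvd_of_N_lt_one ((hDc w).trans_lt hw)
      have hle : w.p ≤ D.natAbs := Nat.le_of_dvd (Int.natAbs_pos.2 hD) (Int.natCast_dvd.1 hpD)
      refine (h4 w hle ((hper w hbw).trans (w.N_int_le_of_dvd hpD))).trans ?_
      rw [pow_mul]
      exact pow_le_pow_left₀ (pow_nonneg (w.N.nonneg _) _)
        ((w.pow_le_N_int _ hD le_rfl).trans (hDc w)) n
    · rw [hw, one_pow]; exact (h3 w).trans (hi0 w)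
  obtain ⟨y, hy, hyn⟩ := hK.root (K.div_mem (K.mul_mem he ht) (pow_mem hc n)) hn
  have hy1 : ∀ w : Place, w.N y ≤ 1 := by
    intro w
    rw [← pow_le_pow_iff_of_nonneg (w.N.nonneg _) zero_le_one hn, ← map_pow, hyn, map_div₀,
      map_mul, h1, one_mul, one_pow, map_pow, div_le_one (pow_pos (w.N.pos hc0) n)]
    exact h5 w
  refine ⟨y, hy, hy1, fun w => ?_⟩
  have h6 : b ^ n - (c * y) ^ n = e := by
    rw [mul_pow, hyn]
    field_simp
    linear_combination h2
  have hcy := w.mul_le_one (hc1 w) (hy1 w)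
  obtain ⟨z, hz⟩ := sub_dvd_pow_sub_pow (⟨b, hb1 w⟩ : w.ball) ⟨c * y, hcy⟩ n
  have h7 := congrArg (fun u : w.ball => w.N (u : Qb)) hz
  simp only [AddSubgroupClass.coe_sub, SubmonoidClass.coe_pow, Subring.coe_mul, h6, h1,
    map_mul] at h7
  have h8 : w.N (b - c * y) ≤ 1 := w.sub_le_of (hb1 w) hcy
  have h9 := mul_le_of_le_one_right (w.N.nonneg (b - c * y)) (z.2 : w.N z ≤ 1)
  linarith

lemma skolem_one {K : IntermediateField ℚ Qb} (hK : RadCl K) {z : Qb} (hz : z ∈ K) :
    ∃ t ∈ K, (∀ w : Place, w.N t ≤ 1) ∧ ∀ w : Place, 1 ≤ w.N (t - z) := by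
  obtain ⟨b, hb, c, hc, hc0, hzc, h⟩ := exists_frac hK hz
  obtain ⟨y, hy, h1, h2⟩ := stable_range hK hb hc hc0 h
  refine ⟨y, hy, h1, fun w => ?_⟩
  have h3 : b - c * y = - c * (y - z) := by rw [← hzc]; ring
  have h4 := h2 w
  rw [h3, map_mul, w.N.map_neg] at h4
  have h5 := mul_le_of_le_one_left (w.N.nonneg (y - z)) ((le_max_right _ _).trans (h w).le)
  linarith

/-- Skolem's lemma: an integer of `K` avoiding finitely many points of `K` at all places. -/
theorem skolem {K : IntermediateField ℚ Qb} (hK : RadCl K) : ∀ (n : ℕ) (W : List Qb),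
    W.length = n → (∀ z ∈ W, z ∈ K) →
    ∃ t ∈ K, (∀ w : Place, w.N t ≤ 1) ∧ ∀ z ∈ W, ∀ w : Place, 1 ≤ w.N (t - z) := by
  intro n
  induction n with
  | zero =>
    intro W hW _
    rw [List.length_eq_zero_iff] at hW
    exact ⟨0, K.zero_mem, by simp, by simp [hW]⟩
  | succ n ih =>
    intro W hW hWK
    obtain ⟨z₁, W, rfl⟩ := List.exists_cons_of_length_eq_add_one hW
    have hz₁ := hWK z₁ (by simp)
    obtain ⟨t₀, ht₀, h1, h2⟩ := skolem_one hK hz₁
    obtain ⟨w0⟩ := (inferInstance : Nonempty Place)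
    have hne : t₀ - z₁ ≠ 0 := by
      intro h
      have := h2 w0
      rw [h, map_zero] at this
      linarith
    set c := (t₀ - z₁)⁻¹ with hc
    have hcK : c ∈ K := K.inv_mem (K.sub_mem ht₀ hz₁)
    have hc1 : ∀ w : Place, w.N c ≤ 1 := fun w => by
      rw [hc, map_inv₀]; exact inv_le_one_of_one_le₀ (h2 w)
    obtain ⟨s, hs, h3, h4⟩ := ih (W.map fun z => (z - t₀) ^ 2 / (1 + c * (z - t₀)))
      (by simpa using hW) (by
        intro u hu
        obtain ⟨z, hz, rfl⟩ := List.mem_map.1 hu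
        have := K.sub_mem (hWK z (by simp [hz])) ht₀
        exact K.div_mem (pow_mem this _) (K.add_mem K.one_mem (K.mul_mem hcK this)))
    obtain ⟨r, hr, hr2⟩ := hK.root (a := (s * c) ^ 2 + 4 * s)
      (K.add_mem (pow_mem (K.mul_mem hs hcK) _) (K.mul_mem (ofNat_mem K 4) hs)) two_ne_zero
    set T := (s * c + r) / 2 with hT
    have hTK : T ∈ K := K.div_mem (K.add_mem (K.mul_mem hs hcK) hr) (ofNat_mem K 2)
    have hTe : T ^ 2 = s * (1 + c * T) := by
      rw [hT]; linear_combination (1 / 4 : Qb) * hr2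
    have hcT : ∀ w : Place, w.N (c * T) ≤ w.N T := fun w => by
      rw [map_mul]; exact mul_le_of_le_one_left (w.N.nonneg _) (hc1 w)
    have hT1 : ∀ w : Place, w.N T ≤ 1 := by
      intro w
      by_contra h
      push Not at h
      have h5 := congrArg w.N hTe
      rw [map_pow, map_mul] at h5
      have h6 : w.N (1 + c * T) ≤ w.N T := w.add_le_of (by simpa using h.le) (hcT w)
      have h7 := mul_le_of_le_one_left (w.N.nonneg (1 + c * T)) (h3 w)
      nlinarith
    have hu : ∀ w : Place, w.N (1 + c * T) = 1 := by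
      intro w
      rcases (hT1 w).lt_or_eq with h | h
      · rw [w.add_eq_left (by simpa using (hcT w).trans_lt h), map_one]
      · have h5 := congrArg w.N hTe
        rw [map_pow, map_mul, h] at h5
        have h6 : w.N (1 + c * T) ≤ 1 := w.add_le_of (by simp) ((hcT w).trans (hT1 w))
        have h7 := mul_le_of_le_one_left (w.N.nonneg (1 + c * T)) (h3 w)
        linarith
    refine ⟨t₀ + T, K.add_mem ht₀ hTK, fun w => w.add_le_of (h1 w) (hT1 w), ?_⟩
    have hz1 : ∀ w : Place, 1 ≤ w.N (t₀ + T - z₁) := by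
      intro w
      have : t₀ + T - z₁ = (t₀ - z₁) * (1 + c * T) := by rw [hc]; field_simp; ring
      rw [this, map_mul, hu, mul_one]
      exact h2 w
    intro z hz w
    rcases List.mem_cons.1 hz with rfl | hz
    · exact hz1 w
    by_contra hlt
    push Not at hlt
    set x := z - t₀ with hx
    have hTx : w.N (T - x) < 1 := by
      rw [hx]
      have : T - (z - t₀) = t₀ + T - z := by ring
      rwa [this]
    have hx1 : w.N x ≤ 1 := by
      have := w.sub_le_of (hT1 w) hTx.le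
      simpa using this
    have hux : w.N (1 + c * x) = 1 := by
      have : 1 + c * x = (1 + c * T) - c * (T - x) := by ring
      rw [this, w.sub_eq_left, hu]
      rw [hu, map_mul]
      exact mul_lt_one_of_nonneg_of_lt_one_right (hc1 w) (w.N.nonneg _) hTx
    have hux0 : 1 + c * x ≠ 0 := by
      intro h; rw [h] at hux; simp at hux
    have huT0 : 1 + c * T ≠ 0 := by
      intro h; have := hu w; rw [h] at this; simp at this
    have h5 := h4 _ (List.mem_map.2 ⟨z, hz, rfl⟩) w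
    rw [← hx] at h5
    have h6 : s - x ^ 2 / (1 + c * x)
        = (T - x) * (T + x + c * T * x) / ((1 + c * T) * (1 + c * x)) := by
      rw [eq_div_iff (mul_ne_zero huT0 hux0), sub_mul, mul_comm (1 + c * T) (1 + c * x),
        ← mul_assoc (x ^ 2 / (1 + c * x)), div_mul_cancel₀ _ hux0]
      linear_combination (-(1 + c * x)) * hTe
    rw [h6, map_div₀, map_mul, map_mul, hu, hux, mul_one, div_one] at h5
    have h7 : w.N (T + x + c * T * x) ≤ 1 :=
      w.add_le_of (w.add_le_of (hT1 w) hx1) (w.mul_le_one ((hcT w).trans (hT1 w)) hx1)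
    have h8 := mul_le_of_le_one_right (w.N.nonneg (T - x)) h7
    linarith

end Pool.Agent.Lib.MP_7610b6_lc
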