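import Pool.Agent.Lib.MP_7610b6_lc.DNF

/-!
The syntactic side of the quantifier elimination: pure list manipulations.
-/

namespace Pool.Agent.Lib.MP_7610b6_lc

/-- A linear form: a list of signed variables; variable `0` stands for the constant `1`. -/
abbrev Form := List (Bool × ℕ)
abbrev Atom := List Form × List Form
abbrev LF := DNF Atom
abbrev GF := DNF LF
abbrev Mono := ℕ × List Form
abbrev EAtom := Mono × Mono
abbrev Thr := ℕ × List Form × List Form
abbrev Test := ℕ × Thr

def coefF (L : Form) : Form := L.flatMap fun e => bif eqb e.2 1 then [(e.1, 0)] else []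

def restF (L : Form) : Form := L.flatMap fun e => bif eqb e.2 1 then [] else [(e.1, e.2 - 1)]

def negF (L : Form) : Form := L.map fun e => (!e.1, e.2)

def mulF (c L : Form) : Form := c.flatMap fun e => bif e.1 then L else negF L

def crossF (J F : Form) : Form := mulF (coefF J) (restF F) ++ negF (mulF (coefF F) (restF J))

def zeroA (P : List Form) : Atom := (P, [[]])

def subC (J : Form) (a : Atom) : Atom :=
  (a.1.map (fun F => crossF J F) ++ a.2.map (fun _ => coefF J),
    a.2.map (fun F => crossF J F) ++ a.1.map (fun _ => coefF J))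

def choices (J : Form) (A init : List Form) : List Mono :=
  A.foldr (fun F acc => acc.flatMap fun c => [(c.1 + 1, coefF F :: c.2), (c.1, crossF J F :: c.2)])
    [(0, init)]

def extD (J : Form) (a : Atom) : DNF EAtom :=
  allD ((choices J a.1 (a.2.map fun _ => coefF J)).map fun c =>
    anyD ((choices J a.2 (a.1.map fun _ => coefF J)).map fun d => atomD (c, d)))

def rep (n : ℕ) (P : List Form) : List Form := (List.range n).flatMap fun _ => P

def leAt (h : Thr) (e : EAtom) : Atom :=
  (rep e.1.1 h.2.2 ++ rep h.1 e.1.2 ++ rep e.2.1 h.2.1,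
    rep e.2.1 h.2.2 ++ rep h.1 e.2.2 ++ rep e.1.1 h.2.1)

def vs (τ : Test) (e : EAtom) : LF :=
  bif eqb τ.1 1 then atomD (leAt τ.2 e)
  else bif eqb e.1.1 e.2.1 then atomD (e.1.2, e.2.2)
  else bif eqb τ.1 0 then
    (bif ltb e.2.1 e.1.1 then negD (atomD (zeroA e.2.2)) ++ atomD (zeroA e.1.2)
      else atomD (zeroA e.1.2))
  else (bif ltb e.2.1 e.1.1 then negD (atomD (leAt τ.2 (e.2, e.1))) ++ atomD (zeroA e.1.2)
      else atomD (leAt τ.2 e))

def thr (e : EAtom) : List Thr := [(e.1.1 - e.2.1, e.1.2, e.2.2), (e.2.1 - e.1.1, e.2.2, e.1.2)]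

def tests (L : List EAtom) : List Test :=
  (0, (0, [], [])) :: L.flatMap fun e => (thr e).flatMap fun h => [(1, h), (2, h)]

def guard (τ : Test) : LF :=
  bif eqb τ.1 0 then [[]] else bif eqb τ.2.1 0 then []
  else andD (negD (atomD (zeroA τ.2.2.1))) (negD (atomD (zeroA τ.2.2.2)))

def elimR (D : DNF EAtom) : LF :=
  anyD ((tests (atoms D)).map fun τ => andD (guard τ) (bindD (fun e => vs τ e) D))

def forms (ψ : LF) : List Form := (atoms ψ).flatMap fun a => a.1 ++ a.2

def varX : Form := [(true, 1)]

def nzL (J : Form) : LF := negD (atomD (zeroA [coefF J]))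

def loc (ψ : LF) : LF :=
  anyD ((varX :: forms ψ).map fun J => andD (nzL J) (elimR (bindD (fun a => extD J a) ψ)))

def zeroF (F : Form) : LF := andD (atomD (zeroA [coefF F])) (atomD (zeroA [restF F]))

def genA (a : Atom) : LF :=
  anyD (a.1.map fun F => zeroF F) ++ negD (anyD (a.2.map fun F => zeroF F))

def genL (ψ : LF) : LF := bindD (fun a => genA a) ψ

def subL (J : Form) (ψ : LF) : LF := bindD (fun a => atomD (subC J a)) ψ

def posL (C : List (Bool × LF)) : List LF := C.flatMap fun l => bif l.1 then [l.2] else []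

def negL (C : List (Bool × LF)) : List LF := C.flatMap fun l => bif l.1 then [] else [l.2]

def th0 (C : List (Bool × LF)) : LF := andD (atomD ([varX], [])) (negD (anyD (negL C)))

def lam (C : List (Bool × LF)) : List Form :=
  varX :: (forms (th0 C) ++ (posL C).flatMap fun ψ => forms (andD (th0 C) ψ))

def centerC (C : List (Bool × LF)) (J : Form) : List (Bool × LF) :=
  (false, negD (andD (nzL J) (subL J (th0 C)))) :: (posL C).map fun ψ => (true, subL J ψ)

def genC (C : List (Bool × LF)) : List (Bool × LF) :=
  (false, negD (loc (th0 C))) :: (true, genL (th0 C)) ::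
    (posL C).map fun ψ => (true, loc (andD (th0 C) ψ))

def exClause (C : List (Bool × LF)) : GF := genC C :: (lam C).map fun J => centerC C J

def exG (G : GF) : GF := G.flatMap fun C => exClause C

end Pool.Agent.Lib.MP_7610b6_lc
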