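import Pool.Agent.Lib.MP_7610b6_lc.QE
import Pool.Agent.Lib.MP_7610b6_lc.Solv

/-!
Translation of formulas into normal forms, and evaluation of closed normal forms.
-/

namespace Pool.Agent.Lib.MP_7610b6_lc

def intF (z : ℤ) (j : ℕ) : Form :=
  (List.range z.toNat).map (fun _ => (true, j)) ++ (List.range (-z).toNat).map (fun _ => (false, j))

def toForm (t : ℤ × List ℤ) : Form :=
  intF t.1 0 ++ (List.range t.2.length).flatMap fun i => intF (t.2.getD i 0) (i + 1)

def dvdG (x : List (ℤ × List ℤ) × List (ℤ × List ℤ)) : GF :=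
  negD (atomD (negD (atomD (x.2.map (fun t => toForm t), x.1.map (fun t => toForm t)))))

def qe : Fm → GF
  | .dvd A B => dvdG (A, B)
  | .neg φ => negD (qe φ)
  | .conj φ ψ => andD (qe φ) (qe ψ)
  | .ex φ => exG (qe φ)

noncomputable def vv (u : ℕ → Qb) : ℕ → Qb := fun i => Nat.casesOn i 1 u

lemma fval_const (v : ℕ → Qb) (e : Bool × ℕ) (n : ℕ) :
    fval v ((List.range n).map fun _ => e) = n * (bif e.1 then v e.2 else - v e.2) := by
  induction n with
  | zero => simp
  | succ n ih =>
    rw [List.range_succ, List.map_append, fval_append, ih]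
    simp [fval_cons]; ring

lemma fval_intF (v : ℕ → Qb) (z : ℤ) (j : ℕ) : fval v (intF z j) = z * v j := by
  rw [intF, fval_append, fval_const, fval_const]
  have := congrArg (Int.cast : ℤ → Qb) (Int.toNat_sub_toNat_neg z)
  push_cast at this
  simp only [cond_true, cond_false]
  rw [← this]; ring

lemma fval_toForm (u : ℕ → Qb) (t : ℤ × List ℤ) : fval (vv u) (toForm t) = lin u t := by
  rw [toForm, fval_append, fval_intF, lin]
  congr 1
  · simp [vv]
  · induction t.2.length with
    | zero => simp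
    | succ n ih =>
      rw [List.range_succ, List.flatMap_append, fval_append, ih, Finset.sum_range_succ]
      simp [fval_intF, vv]

lemma ins_vv (x : Qb) (u : ℕ → Qb) : ins x (vv u) = vv (fun i => Nat.casesOn i x u) := by
  funext i
  rcases i with _ | _ | i <;> simp [ins, vv]

lemma dvd_iff {a b : Qb} (ha : a ∈ Ksolv) (hb : b ∈ Ksolv) :
    (∃ z ∈ Zsolv, b = a * z) ↔ ∀ w : Place, w.N b ≤ w.N a := by
  constructor
  · rintro ⟨z, hz, rfl⟩ w
    rw [map_mul]
    exact mul_le_of_le_one_right (w.N.nonneg _) ((mem_Zsolv.1 hz).2 w)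
  · intro h
    by_cases h0 : a = 0
    · obtain ⟨w⟩ := (inferInstance : Nonempty Place)
      have := h w
      rw [h0, map_zero] at this
      refine ⟨0, mem_Zsolv.2 ⟨Ksolv.zero_mem, by simp⟩, ?_⟩
      rw [mul_zero]
      exact w.N.eq_zero.1 (le_antisymm this (w.N.nonneg _))
    · refine ⟨b / a, mem_Zsolv.2 ⟨Ksolv.div_mem hb ha, fun w => ?_⟩, by field_simp⟩
      rw [map_div₀, div_le_one (w.N.pos h0)]
      exact h w

theorem qe_iff (φ : Fm) : ∀ u : ℕ → Qb, (∀ i, u i ∈ Ksolv) → (φ.Sat u ↔ gsem (vv u) (qe φ)) := by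
  induction φ with
  | dvd A B =>
    intro u hu
    have hv : ∀ i, vv u i ∈ Ksolv := by
      intro i; cases i
      · exact Ksolv.one_mem
      · exact hu _
    have hp : ∀ A : List (ℤ × List ℤ), (A.map (lin u)).prod ∈ Ksolv := by
      intro A
      apply list_prod_mem
      intro x hx
      obtain ⟨t, -, rfl⟩ := List.mem_map.1 hx
      rw [← fval_toForm]
      exact fval_mem hv _
    have e : ∀ A : List (ℤ × List ℤ), (A.map fun t => toForm t).map (fval (vv u)) = A.map (lin u) :=
      fun A => by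
        rw [List.map_map]
        exact List.map_congr_left fun t _ => fval_toForm u t
    simp only [Fm.Sat, qe, dvdG, gsem, hold_negD, hold_atomD, lsem, asem, pN_eq, e, not_exists,
      not_not]
    exact dvd_iff (hp A) (hp B)
  | neg φ ih => intro u hu; simp only [Fm.Sat, qe, gsem, hold_negD]; exact not_congr (ih u hu)
  | conj φ ψ ih1 ih2 =>
    intro u hu
    simp only [Fm.Sat, qe, gsem, hold_andD]
    exact and_congr (ih1 u hu) (ih2 u hu)
  | ex φ ih =>
    intro u hu
    have hv : ∀ i, vv u i ∈ Ksolv := by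
      intro i; cases i
      · exact Ksolv.one_mem
      · exact hu _
    simp only [Fm.Sat, qe]
    rw [exG_iff radCl_Ksolv rfl hv]
    refine exists_congr fun x => ?_
    rw [mem_Zsolv, and_assoc]
    refine and_congr_right fun hx => and_congr_right fun _ => ?_
    rw [ins_vv]
    apply ih
    intro i; cases i
    · exact hx
    · exact hu _

def cntP (F : Form) : ℕ :=
  (F.flatMap fun e => bif eqb e.2 0 then (bif e.1 then [0] else []) else ([] : List ℕ)).length

def cntN (F : Form) : ℕ :=
  (F.flatMap fun e => bif eqb e.2 0 then (bif e.1 then [] else [0]) else ([] : List ℕ)).length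

def aval (F : Form) : ℕ := (cntP F - cntN F) + (cntN F - cntP F)

def pv (A : List Form) : ℕ := A.foldr (fun F acc => aval F * acc) 1

def evalA (p : ℕ) (a : Atom) : Bool :=
  (List.range (pv a.1 + pv a.2 + 1)).all fun k =>
    bif eqb (pv a.2 % p ^ k) 0 then eqb (pv a.1 % p ^ k) 0 else true

def primeB (p : ℕ) : Bool :=
  bif ltb 1 p then (List.range p).all (fun d => bif ltb d 2 then true else !(eqb (p % d) 0))
  else false

def bnd (ψ : LF) : ℕ := (atoms ψ).foldr (fun a acc => pv a.1 + pv a.2 + acc) 0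

def evalL (ψ : LF) : Bool :=
  (List.range (2 * bnd ψ + 3)).any fun p => bif primeB p then holdB (fun a => evalA p a) ψ else false

def evalG (G : GF) : Bool := holdB (fun ψ => evalL ψ) G

lemma fval_zero (F : Form) : fval (vv fun _ => 0) F = (cntP F : Qb) - cntN F := by
  induction F with
  | nil => simp [cntP, cntN]
  | cons e F ih =>
    rw [fval_cons, ih]
    obtain ⟨b, i⟩ := e
    cases b <;> cases i <;> simp [cntP, cntN, eqb, vv] <;> ring

lemma N_aval (w : Place) (F : Form) : w.N (fval (vv fun _ => 0) F) = w.N (aval F : Qb) := by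
  rw [fval_zero, aval]
  rcases le_total (cntP F) (cntN F) with h | h
  · rw [Nat.sub_eq_zero_of_le h, zero_add, Nat.cast_sub h, w.N.map_sub]
  · rw [Nat.sub_eq_zero_of_le h, add_zero, Nat.cast_sub h]

lemma pN_pv (w : Place) (A : List Form) : pN w (vv fun _ => 0) A = w.N (pv A : Qb) := by
  induction A with
  | nil => simp [pv]
  | cons F A ih =>
    have : pv (F :: A) = aval F * pv A := rfl
    rw [pN_cons, ih, N_aval, this, Nat.cast_mul, map_mul]

lemma Place.N_nat_fact (w : Place) {x : ℕ} (hx : x ≠ 0) :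
    w.N (x : Qb) = w.N (w.p : Qb) ^ x.factorization w.p := by
  conv_lhs => rw [← Nat.ordProj_mul_ordCompl_eq_self x w.p]
  rw [Nat.cast_mul, map_mul, w.N_nat_eq_one (Nat.not_dvd_ordCompl w.hp hx), mul_one,
    Nat.cast_pow, map_pow]

lemma Place.N_le_iff (w : Place) (x y : ℕ) : w.N (x : Qb) ≤ w.N (y : Qb) ↔
    ∀ k < x + y + 1, w.p ^ k ∣ y → w.p ^ k ∣ x := by
  by_cases hx : x = 0
  · simp [hx]
  by_cases hy : y = 0
  · subst hy
    have h1 := w.N.pos (x := (x : Qb)) (by exact_mod_cast hx)
    constructor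
    · intro h; simp only [Nat.cast_zero, map_zero] at h; linarith
    · intro h
      have h2 := Nat.le_of_dvd (Nat.pos_of_ne_zero hx) (h x (by omega) (dvd_zero _))
      have h3 := Nat.lt_pow_self (n := x) w.hp.one_lt
      omega
  rw [w.N_nat_fact hx, w.N_nat_fact hy, pow_le_pow_iff_right_of_lt_one₀ w.N_p_pos w.N_p_lt_one]
  simp only [w.hp.pow_dvd_iff_le_factorization hx, w.hp.pow_dvd_iff_le_factorization hy]
  constructor
  · intro h k _ hk; exact hk.trans h
  · intro h
    have := Nat.factorization_lt w.p hy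
    exact h _ (by omega) le_rfl

lemma evalA_iff (w : Place) (a : Atom) : evalA w.p a = true ↔ asem w (vv fun _ => 0) a := by
  rw [asem, pN_pv, pN_pv, w.N_le_iff, evalA, List.all_eq_true]
  simp only [List.mem_range, Nat.dvd_iff_mod_eq_zero]
  refine forall₂_congr fun k _ => ?_
  by_cases h : pv a.2 % w.p ^ k = 0 <;> simp [eqb, h]

lemma primeB_iff (p : ℕ) : primeB p = true ↔ p.Prime := by
  rw [Nat.prime_def_lt', primeB]
  by_cases h : 1 < p
  · simp only [ltb, h, decide_true, cond_true, List.all_eq_true, List.mem_range,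
      Nat.dvd_iff_mod_eq_zero, show 2 ≤ p from h, true_and]
    constructor
    · intro h1 m h2 h3
      have := h1 m h3
      simpa [eqb, not_lt.2 h2] using this
    · intro h1 m h2
      by_cases h3 : m < 2
      · simp [h3]
      · simpa [eqb, h3] using h1 m (not_lt.1 h3) h2
  · have : ¬ 2 ≤ p := h
    simp [ltb, h, this]

lemma le_bnd {ψ : LF} {a : Atom} (ha : a ∈ atoms ψ) : pv a.1 + pv a.2 ≤ bnd ψ := by
  unfold bnd
  generalize atoms ψ = L at ha
  induction L with
  | nil => simp at ha
  | cons b L ih =>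
    rw [List.foldr_cons]
    rcases List.mem_cons.1 ha with rfl | ha
    · omega
    · have := ih ha; omega

lemma N_nat_big {w w' : Place} {x : ℕ} (h : x < w.p) (h' : x < w'.p) :
    w.N (x : Qb) = w'.N (x : Qb) := by
  by_cases hx : x = 0
  · simp [hx]
  rw [w.N_nat_eq_one (Nat.not_dvd_of_pos_of_lt (Nat.pos_of_ne_zero hx) h),
    w'.N_nat_eq_one (Nat.not_dvd_of_pos_of_lt (Nat.pos_of_ne_zero hx) h')]

lemma evalL_iff (ψ : LF) : evalL ψ = true ↔ lsem (vv fun _ => 0) ψ := by
  have key : ∀ w : Place, holdB (fun a => evalA w.p a) ψ = true ↔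
      hold (asem w (vv fun _ => 0)) ψ := fun w => by
    rw [holdB_iff]; exact hold_congr fun a _ => evalA_iff w a
  rw [evalL, List.any_eq_true]
  constructor
  · rintro ⟨p, -, h⟩
    by_cases hp : primeB p = true
    · obtain ⟨w, rfl⟩ := exists_place ((primeB_iff p).1 hp)
      rw [hp, cond_true] at h
      exact ⟨w, (key w).1 h⟩
    · simp [hp] at h
  · rintro ⟨w, hw⟩
    have fin : ∀ w : Place, w.p < 2 * bnd ψ + 3 → hold (asem w (vv fun _ => 0)) ψ →
        ∃ p ∈ List.range (2 * bnd ψ + 3),
          (bif primeB p then holdB (fun a => evalA p a) ψ else false) = true := by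
      intro w h1 h2
      exact ⟨w.p, List.mem_range.2 h1, by rw [(primeB_iff _).2 w.hp, cond_true, key]; exact h2⟩
    by_cases h : w.p < 2 * bnd ψ + 3
    · exact fin w h hw
    · obtain ⟨p, hp, h1, h2⟩ := Nat.exists_prime_lt_and_le_two_mul (bnd ψ + 1) (by omega)
      obtain ⟨w', rfl⟩ := exists_place hp
      refine fin w' (by omega) ((hold_congr fun a ha => ?_).1 hw)
      have := le_bnd ha
      rw [asem, asem, pN_pv, pN_pv, pN_pv, pN_pv, N_nat_big (w := w) (w' := w') (by omega) (by omega),
        N_nat_big (w := w) (w' := w') (x := pv a.2) (by omega) (by omega)]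

theorem sat_iff_eval (φ : Fm) : φ.Sat (fun _ => 0) ↔ evalG (qe φ) = true := by
  rw [qe_iff φ _ fun _ => Ksolv.zero_mem, evalG, holdB_iff, gsem]
  exact hold_congr fun ψ _ => (evalL_iff ψ).symm

end Pool.Agent.Lib.MP_7610b6_lc
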